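import Mathlib

open MeasureTheory Set Filter Topology

namespace Q71.UC

variable {N : ℕ}

/-- polar-type coordinates `(a, ζ) ↦ z₀ + ζ (1, a)` -/
noncomputable def Phi (z0 : Fin (N + 1) → ℂ) (x : (Fin N → ℂ) × ℂ) : Fin (N + 1) → ℂ :=
  fun i => z0 i + x.2 * (Fin.cons 1 x.1 : Fin (N + 1) → ℂ) i

lemma Phi_zero (z0 : Fin (N + 1) → ℂ) (x : (Fin N → ℂ) × ℂ) : Phi z0 x 0 = z0 0 + x.2 := by
  simp [Phi]

lemma Phi_succ (z0 : Fin (N + 1) → ℂ) (x : (Fin N → ℂ) × ℂ) (i : Fin N) :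
    Phi z0 x i.succ = z0 i.succ + x.2 * x.1 i := by
  simp [Phi]

lemma continuous_Phi (z0 : Fin (N + 1) → ℂ) : Continuous (Phi z0) := by
  apply continuous_pi
  intro i
  refine Fin.cases ?_ (fun i => ?_) i
  · simp only [Phi_zero]
    fun_prop
  · simp only [Phi_succ]
    fun_prop

lemma mp_unit {u : ℂ} (hu : ‖u‖ = 1) :
    MeasurePreserving (fun a : Fin N → ℂ => u • a) volume volume := by
  have h : MeasurePreserving (fun w : ℂ => u * w) volume volume := by
    let c : Circle := ⟨u, by simpa [Submonoid.unitSphere] using hu⟩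
    have h1 := (rotation c).measurePreserving
    have h2 : (fun w : ℂ => u * w) = rotation c := by
      funext w
      rfl
    rw [h2]
    exact h1
  exact volume_preserving_pi (fun _ : Fin N => h)

lemma scale {ζ : ℂ} (hζ : ζ ≠ 0) {G : (Fin N → ℂ) → ENNReal} (hG : Measurable G) :
    ∫⁻ b, G b = ENNReal.ofReal (‖ζ‖ ^ (2 * N)) * ∫⁻ a, G (ζ • a) := by
  have hn : 0 < ‖ζ‖ := norm_pos_iff.mpr hζ
  set u : ℂ := ζ / ‖ζ‖ with hu
  have hu1 : ‖u‖ = 1 := by
    rw [hu, norm_div, Complex.norm_real, norm_norm, div_self hn.ne']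
  have hζu : ∀ a : Fin N → ℂ, ζ • a = ‖ζ‖ • (u • a) := by
    intro a
    rw [hu]
    funext i
    simp only [Pi.smul_apply, smul_eq_mul, Complex.real_smul]
    have : (‖ζ‖ : ℂ) ≠ 0 := by exact_mod_cast hn.ne'
    field_simp
  have h1 : ∫⁻ a, G (ζ • a) = ∫⁻ a : Fin N → ℂ, G (‖ζ‖ • a) := by
    simp only [hζu]
    exact (mp_unit hu1).lintegral_comp (f := fun a => G (‖ζ‖ • a)) (by fun_prop)
  have h2 := Measure.map_addHaar_smul (volume : Measure (Fin N → ℂ)) hn.ne'
  have h3 : ∫⁻ a : Fin N → ℂ, G (‖ζ‖ • a) = ∫⁻ b, G b ∂(Measure.map (‖ζ‖ • ·) volume) := by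
    rw [lintegral_map hG (by fun_prop)]
  have h4 : Module.finrank ℝ (Fin N → ℂ) = 2 * N := by
    rw [Module.finrank_pi_fintype]
    simp [Complex.finrank_real_complex, mul_comm]
  rw [h1, h3, h2, lintegral_smul_measure, h4, smul_eq_mul, ← mul_assoc,
    ← ENNReal.ofReal_mul (by positivity), abs_inv, abs_of_pos (by positivity),
    mul_inv_cancel₀ (by positivity), ENNReal.ofReal_one, one_mul]

/-- Change of variables. -/
theorem cv (z0 : Fin (N + 1) → ℂ) {F : (Fin (N + 1) → ℂ) → ENNReal} (hF : Measurable F) :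
    ∫⁻ z, F z = ∫⁻ x : (Fin N → ℂ) × ℂ, F (Phi z0 x) * ENNReal.ofReal (‖x.2‖ ^ (2 * N)) := by
  have h1 : ∫⁻ z, F z = ∫⁻ z : Fin (N + 1) → ℂ, F (z0 + z) :=
    (lintegral_add_left_eq_self F z0).symm
  have h2 : ∫⁻ z : Fin (N + 1) → ℂ, F (z0 + z) =
      ∫⁻ y : ℂ × (Fin N → ℂ), F (z0 + (Fin.cons y.1 y.2 : Fin (N + 1) → ℂ)) := by
    have h3 := (volume_preserving_piFinSuccAbove (fun _ : Fin (N + 1) => ℂ) 0).symm
    have h4 := h3.lintegral_comp (f := fun z : Fin (N + 1) → ℂ => F (z0 + z)) (by fun_prop)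
    rw [← h4]
    apply lintegral_congr
    intro y
    congr 2
    funext i
    refine Fin.cases ?_ (fun i => ?_) i
    · simp [MeasurableEquiv.piFinSuccAbove]
    · simp [MeasurableEquiv.piFinSuccAbove]
  rw [h1, h2]
  have hcons : Measurable fun y : ℂ × (Fin N → ℂ) => (Fin.cons y.1 y.2 : Fin (N + 1) → ℂ) := by
    apply measurable_pi_lambda
    intro i
    refine Fin.cases ?_ (fun i => ?_) i
    · simp only [Fin.cons_zero]
      fun_prop
    · simp only [Fin.cons_succ]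
      fun_prop
  have hPhi := (continuous_Phi z0).measurable
  rw [Measure.volume_eq_prod, Measure.volume_eq_prod, lintegral_prod _ (by fun_prop),
    lintegral_prod_symm _ (by fun_prop)]
  apply lintegral_congr_ae
  have hne : ∀ᵐ ζ : ℂ, ζ ≠ 0 := by
    rw [ae_iff]
    simp
  filter_upwards [hne] with ζ hζ
  rw [scale hζ (G := fun b => F (z0 + (Fin.cons ζ b : Fin (N + 1) → ℂ))) (by fun_prop),
    ← lintegral_const_mul _ (by fun_prop)]
  apply lintegral_congr
  intro a
  rw [mul_comm]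
  congr 2
  funext i
  refine Fin.cases ?_ (fun i => ?_) i
  · simp [Phi]
  · simp [Phi]

lemma map_Phi (z0 : Fin (N + 1) → ℂ) :
    (volume.withDensity (fun x : (Fin N → ℂ) × ℂ => ENNReal.ofReal (‖x.2‖ ^ (2 * N)))).map
      (Phi z0) = volume := by
  ext s hs
  have h := cv z0 (F := s.indicator 1) (measurable_one.indicator hs)
  rw [lintegral_indicator_one hs] at h
  rw [Measure.map_apply (continuous_Phi z0).measurable hs,
    withDensity_apply _ ((continuous_Phi z0).measurable hs), h, ← lintegral_indicator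
    ((continuous_Phi z0).measurable hs)]
  apply lintegral_congr
  intro x
  by_cases hx : Phi z0 x ∈ s
  · have : x ∈ Phi z0 ⁻¹' s := hx
    simp [hx, this]
  · have : x ∉ Phi z0 ⁻¹' s := hx
    simp [hx, this]

lemma cv_integral {E : Type*} [NormedAddCommGroup E] [NormedSpace ℝ E]
    (z0 : Fin (N + 1) → ℂ) {F : (Fin (N + 1) → ℂ) → E} (hF : AEStronglyMeasurable F volume) :
    ∫ z, F z = ∫ x : (Fin N → ℂ) × ℂ, (‖x.2‖ ^ (2 * N)) • F (Phi z0 x) := by
  have h1 : ∫ z, F z = ∫ z, F z ∂((volume.withDensity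
      (fun x : (Fin N → ℂ) × ℂ => ENNReal.ofReal (‖x.2‖ ^ (2 * N)))).map (Phi z0)) := by
    rw [map_Phi]
  rw [h1, integral_map (continuous_Phi z0).measurable.aemeasurable (by rw [map_Phi]; exact hF),
    integral_withDensity_eq_integral_toReal_smul (by fun_prop) (by simp)]
  apply integral_congr_ae
  filter_upwards with x
  rw [ENNReal.toReal_ofReal (by positivity)]

end Q71.UC
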