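import Pool.Agent.Q71.UC.Kernel

open MeasureTheory Set Filter Topology Metric
open scoped ENNReal NNReal

namespace Q71.UC

/-- The one-dimensional data. -/
structure OneD (n : ℕ) (R : ℝ) (v W : ℂ → ℝ≥0∞) : Prop where
  mv : Measurable v
  mW : Measurable W
  fin_W : ∫⁻ z in ball (0 : ℂ) R, W z ^ (2 * n : ℝ) * ‖z‖ₑ ^ (2 * n - 2 : ℝ) < ⊤
  fin_v : ∫⁻ z in ball (0 : ℂ) R, v z < ⊤
  fin_Wv : ∀ M : ℝ, 0 ≤ M → ∫⁻ z in ball (0 : ℂ) R, W z * v z * ‖z‖ₑ ^ (-M) < ⊤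
  ineq : ∀ s t : ℚ, 0 < s → s < t → (t : ℝ) < R → ∃ C : ℝ≥0∞, C < ⊤ ∧ ∀ k : ℕ, ∀ᵐ z : ℂ,
    ‖z‖ < s → v z * ‖z‖ₑ ^ (-(k : ℝ)) ≤
      (∫⁻ ζ in ball (0 : ℂ) s, (W ζ * v ζ) * ‖ζ‖ₑ ^ (-(k : ℝ)) * ‖z - ζ‖ₑ⁻¹) +
      C * ∫⁻ ζ in ball (0 : ℂ) t \ ball 0 s,
        (W ζ * v ζ + v ζ) * ‖ζ‖ₑ ^ (-(k : ℝ)) * ‖z - ζ‖ₑ⁻¹

def Pz (v : ℂ → ℝ≥0∞) (ρ : ℝ) : Prop := ∀ᵐ z : ℂ, ‖z‖ < ρ → v z = 0

lemma exists_small {f : ℂ → ℝ≥0∞} {R : ℝ} (hf : ∫⁻ z in ball (0 : ℂ) R, f z < ⊤) {Γ : ℝ}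
    (hR : Γ < R) {ε : ℝ≥0∞} (hε : 0 < ε) :
    ∃ t, Γ < t ∧ t < R ∧ ∫⁻ z in ball (0 : ℂ) t \ closedBall 0 Γ, f z < ε := by
  set s : ℕ → Set ℂ := fun j => ball (0 : ℂ) (Γ + 1 / (j + 1)) \ closedBall 0 Γ with hs
  have hanti : Antitone s := by
    intro i j hij z hz
    refine ⟨?_, hz.2⟩
    have := hz.1
    rw [mem_ball_zero_iff] at this ⊢
    refine lt_of_lt_of_le this ?_
    have : (1 : ℝ) / (j + 1) ≤ 1 / (i + 1) := by
      apply one_div_le_one_div_of_le (by positivity)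
      have : (i : ℝ) ≤ j := by exact_mod_cast hij
      linarith
    linarith
  have hinter : ⋂ j, s j = ∅ := by
    apply eq_empty_of_forall_notMem
    intro z hz
    rw [mem_iInter] at hz
    have h1 : Γ < ‖z‖ := by
      have := (hz 0).2
      rw [mem_closedBall_zero_iff] at this
      exact not_le.mp this
    obtain ⟨j, hj⟩ := exists_nat_one_div_lt (show (0 : ℝ) < ‖z‖ - Γ by linarith)
    have h2 := (hz j).1
    rw [mem_ball_zero_iff] at h2
    linarith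
  have h1 : Tendsto (fun j => (volume.restrict (ball (0 : ℂ) R)) (s j)) atTop (𝓝 0) := by
    have := tendsto_measure_iInter_atTop (μ := volume.restrict (ball (0 : ℂ) R)) (s := s)
      (fun j => (measurableSet_ball.diff measurableSet_closedBall).nullMeasurableSet) hanti
      ⟨0, ne_of_lt (lt_of_le_of_lt (Measure.restrict_apply_le _ _)
        (lt_of_le_of_lt (measure_mono sdiff_subset) measure_ball_lt_top))⟩
    rw [hinter, measure_empty] at this
    exact this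
  have h2 := tendsto_setLIntegral_zero (μ := volume.restrict (ball (0 : ℂ) R)) (f := f) hf.ne h1
  obtain ⟨j0, hj0⟩ := (h2.eventually_lt_const hε).exists_forall_of_atTop
  obtain ⟨j1, hj1⟩ := exists_nat_one_div_lt (show (0 : ℝ) < R - Γ by linarith)
  set j := max j0 j1 with hj
  have hjR : Γ + 1 / ((j : ℝ) + 1) < R := by
    have : (1 : ℝ) / (j + 1) ≤ 1 / (j1 + 1) := by
      apply one_div_le_one_div_of_le (by positivity)
      have : (j1 : ℝ) ≤ j := by exact_mod_cast le_max_right _ _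
      linarith
    linarith
  refine ⟨Γ + 1 / (j + 1), ?_, hjR, ?_⟩
  · have : (0 : ℝ) < 1 / (j + 1) := by positivity
    linarith
  · have h3 := hj0 j (le_max_left _ _)
    rw [Measure.restrict_restrict (measurableSet_ball.diff measurableSet_closedBall)] at h3
    have h4 : s j ∩ ball (0 : ℂ) R = s j := by
      apply inter_eq_left.mpr
      intro z hz
      have := hz.1
      rw [mem_ball_zero_iff] at this ⊢
      linarith
    rw [h4] at h3
    exact h3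

lemma sphere_null (Γ : ℝ) (h0 : 0 ≤ Γ) : ∀ᵐ z : ℂ, ‖z‖ ≠ Γ := by
  rw [ae_iff]
  have : {z : ℂ | ¬ ‖z‖ ≠ Γ} = sphere (0 : ℂ) Γ := by
    ext z
    simp
  rw [this]
  exact Measure.addHaar_sphere volume 0 Γ

lemma step {n : ℕ} (hn : 2 ≤ n) {R : ℝ} {v W : ℂ → ℝ≥0∞} (h : OneD n R v W) {Γ : ℝ}
    (h0 : 0 ≤ Γ) (hR : Γ < R) (hP : Pz v Γ) : ∃ ρ', Γ < ρ' ∧ Pz v ρ' := by
  obtain ⟨C0, hC0, hker⟩ := kernel_bound hn
  have hn' : (2 : ℝ) ≤ n := by exact_mod_cast hn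
  have mv := h.mv
  have mW := h.mW
  -- smallness
  obtain ⟨ε, hε, hε2⟩ : ∃ ε : ℝ≥0∞, 0 < ε ∧ C0 * ε ^ (1 / (2 * n : ℝ)) ≤ 1 / 2 := by
    have hc : Tendsto (fun x : ℝ≥0∞ => C0 * x ^ (1 / (2 * n : ℝ))) (𝓝 0) (𝓝 0) := by
      have h1 : Tendsto (fun x : ℝ≥0∞ => x ^ (1 / (2 * n : ℝ))) (𝓝 0) (𝓝 0) := by
        have := (ENNReal.continuous_rpow_const (y := 1 / (2 * n : ℝ))).tendsto 0
        rwa [ENNReal.zero_rpow_of_pos (by positivity)] at this
      have h2 := ENNReal.Tendsto.const_mul (a := C0) h1 (Or.inr hC0.ne)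
      rwa [mul_zero] at h2
    have h3 : ∀ᶠ x : ℝ≥0∞ in 𝓝 0, C0 * x ^ (1 / (2 * n : ℝ)) ≤ 1 / 2 :=
      hc.eventually_le_const (by norm_num)
    obtain ⟨ε, hε, h4⟩ := (ENNReal.nhds_zero_basis.eventually_iff.mp h3)
    refine ⟨min (ε / 2) 1, ?_, h4 ?_⟩
    · simp only [lt_min_iff, zero_lt_one, and_true]
      exact ENNReal.half_pos hε.ne'
    · rw [mem_Iio]
      by_cases hεt : ε = ⊤
      · rw [hεt]
        exact lt_of_le_of_lt (min_le_right _ _) ENNReal.one_lt_top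
      · exact lt_of_le_of_lt (min_le_left _ _) (ENNReal.half_lt_self hε.ne' hεt)
  obtain ⟨t0, ht0, ht0R, hsmall⟩ := exists_small h.fin_W hR hε
  obtain ⟨t, ht1, ht2⟩ := exists_rat_btwn ht0
  obtain ⟨s, hs1, hs2⟩ := exists_rat_btwn ht1
  have hs0 : (0 : ℝ) < s := lt_of_le_of_lt h0 hs1
  have hs0q : (0 : ℚ) < s := by exact_mod_cast hs0
  have hstq : s < t := by exact_mod_cast hs2
  obtain ⟨C, hC, hineq⟩ := h.ineq s t hs0q hstq (ht2.trans ht0R)
  set S : Set ℂ := ball (0 : ℂ) s \ closedBall 0 Γ with hS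
  have mS : MeasurableSet S := measurableSet_ball.diff measurableSet_closedBall
  set T : Set ℂ := ball (0 : ℂ) t \ ball 0 s with hT
  have mT : MeasurableSet T := measurableSet_ball.diff measurableSet_ball
  have hk2 : ∀ ζ : ℂ, ζ ≠ 0 → ∫⁻ z in S, W z * ‖z‖ₑ ^ (-(1 / 2 : ℝ)) * ‖z - ζ‖ₑ⁻¹ ≤
      1 / 2 * ‖ζ‖ₑ ^ (-(1 / 2 : ℝ)) := by
    intro ζ hζ
    refine (hker S mS W mW ζ hζ).trans ?_
    apply mul_le_mul_left
    refine le_trans ?_ hε2
    apply mul_le_mul_right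
    apply ENNReal.rpow_le_rpow _ (by positivity)
    refine le_trans (lintegral_mono_set ?_) hsmall.le
    intro z hz
    refine ⟨?_, hz.2⟩
    have := hz.1
    rw [mem_ball_zero_iff] at this ⊢
    linarith
  -- Tonelli
  have tonelli : ∀ (Q : Set ℂ), MeasurableSet Q → ∀ f : ℂ → ℝ≥0∞, Measurable f →
      ∫⁻ z in S, W z * ‖z‖ₑ ^ (-(1 / 2 : ℝ)) * ∫⁻ ζ in Q, f ζ * ‖z - ζ‖ₑ⁻¹ ≤
        1 / 2 * ∫⁻ ζ in Q, f ζ * ‖ζ‖ₑ ^ (-(1 / 2 : ℝ)) := by
    intro Q mQ f mf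
    calc ∫⁻ z in S, W z * ‖z‖ₑ ^ (-(1 / 2 : ℝ)) * ∫⁻ ζ in Q, f ζ * ‖z - ζ‖ₑ⁻¹
        = ∫⁻ z in S, ∫⁻ ζ in Q, W z * ‖z‖ₑ ^ (-(1 / 2 : ℝ)) * (f ζ * ‖z - ζ‖ₑ⁻¹) := by
          apply lintegral_congr
          intro z
          rw [lintegral_const_mul _ (by fun_prop)]
      _ = ∫⁻ ζ in Q, ∫⁻ z in S, W z * ‖z‖ₑ ^ (-(1 / 2 : ℝ)) * (f ζ * ‖z - ζ‖ₑ⁻¹) := by
          apply lintegral_lintegral_swap
          fun_prop
      _ = ∫⁻ ζ in Q, f ζ * ∫⁻ z in S, W z * ‖z‖ₑ ^ (-(1 / 2 : ℝ)) * ‖z - ζ‖ₑ⁻¹ := by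
          apply lintegral_congr
          intro ζ
          rw [← lintegral_const_mul _ (by fun_prop)]
          apply lintegral_congr
          intro z
          ring
      _ ≤ ∫⁻ ζ in Q, f ζ * (1 / 2 * ‖ζ‖ₑ ^ (-(1 / 2 : ℝ))) := by
          apply lintegral_mono_ae
          filter_upwards [ae_restrict_of_ae (ae_ne 0)] with ζ hζ
          exact mul_le_mul_right (hk2 ζ hζ) _
      _ = _ := by
          rw [← lintegral_const_mul _ (by fun_prop)]
          apply lintegral_congr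
          intro ζ
          ring
  -- the total masses
  set Y : ℝ≥0∞ := ∫⁻ ζ in T, (W ζ * v ζ + v ζ) with hY
  have hTR : T ⊆ ball (0 : ℂ) R := by
    intro z hz
    have := hz.1
    rw [mem_ball_zero_iff] at this ⊢
    linarith
  have hSR : S ⊆ ball (0 : ℂ) R := by
    intro z hz
    have := hz.1
    rw [mem_ball_zero_iff] at this ⊢
    linarith
  have hYfin : Y < ⊤ := by
    rw [hY, lintegral_add_right _ mv]
    apply ENNReal.add_lt_top.mpr
    constructor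
    · have := h.fin_Wv 0 le_rfl
      simp only [neg_zero, ENNReal.rpow_zero, mul_one] at this
      exact lt_of_le_of_lt (lintegral_mono_set hTR) this
    · exact lt_of_le_of_lt (lintegral_mono_set hTR) h.fin_v
  have hsE : ENNReal.ofReal s ≠ 0 := by simpa using hs0
  -- the pointwise bound on T
  have hTk : ∀ c : ℝ, 0 ≤ c → ∫⁻ ζ in T, (W ζ * v ζ + v ζ) * ‖ζ‖ₑ ^ (-c) ≤
      ENNReal.ofReal s ^ (-c) * Y := by
    intro c hc
    rw [hY, ← lintegral_const_mul _ (by fun_prop)]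
    apply setLIntegral_mono' mT
    intro ζ hζ
    rw [mul_comm]
    apply mul_le_mul_left
    have : (s : ℝ) ≤ ‖ζ‖ := by
      have := hζ.2
      rw [mem_ball_zero_iff] at this
      exact not_lt.mp this
    exact enorm_rpow_neg_le hc hs0 this
  -- X_k
  have hX : ∀ k : ℕ, ∫⁻ z in S, W z * v z * ‖z‖ₑ ^ (-((k : ℝ) + 1 / 2)) ≤
      C * (ENNReal.ofReal s ^ (-((k : ℝ) + 1 / 2)) * Y) := by
    intro k
    set X := ∫⁻ z in S, W z * v z * ‖z‖ₑ ^ (-((k : ℝ) + 1 / 2)) with hXdef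
    have hXfin : X < ⊤ := lt_of_le_of_lt (lintegral_mono_set hSR) (h.fin_Wv _ (by positivity))
    have hsplit : ∀ z : ℂ, z ≠ 0 → ‖z‖ₑ ^ (-((k : ℝ) + 1 / 2)) =
        ‖z‖ₑ ^ (-(1 / 2 : ℝ)) * ‖z‖ₑ ^ (-(k : ℝ)) := by
      intro z hz
      rw [← ENNReal.rpow_add _ _ (by simpa using hz) enorm_ne_top]
      congr 1
      ring
    have h1 : X ≤ 1 / 2 * X + 1 / 2 * (C * (ENNReal.ofReal s ^ (-((k : ℝ) + 1 / 2)) * Y)) := by
      calc X = ∫⁻ z in S, W z * ‖z‖ₑ ^ (-(1 / 2 : ℝ)) * (v z * ‖z‖ₑ ^ (-(k : ℝ))) := by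
            apply lintegral_congr_ae
            filter_upwards [ae_restrict_of_ae (ae_ne 0)] with z hz
            rw [hsplit z hz]
            ring
        _ ≤ ∫⁻ z in S, W z * ‖z‖ₑ ^ (-(1 / 2 : ℝ)) *
            ((∫⁻ ζ in ball (0 : ℂ) s, (W ζ * v ζ) * ‖ζ‖ₑ ^ (-(k : ℝ)) * ‖z - ζ‖ₑ⁻¹) +
              C * ∫⁻ ζ in T, (W ζ * v ζ + v ζ) * ‖ζ‖ₑ ^ (-(k : ℝ)) * ‖z - ζ‖ₑ⁻¹) := by
            apply lintegral_mono_ae
            filter_upwards [ae_restrict_of_ae (hineq k), ae_restrict_mem mS] with z hz hzS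
            apply mul_le_mul_right
            apply hz
            have := hzS.1
            rwa [mem_ball_zero_iff] at this
        _ = (∫⁻ z in S, W z * ‖z‖ₑ ^ (-(1 / 2 : ℝ)) *
            ∫⁻ ζ in ball (0 : ℂ) s, (W ζ * v ζ) * ‖ζ‖ₑ ^ (-(k : ℝ)) * ‖z - ζ‖ₑ⁻¹) +
            C * ∫⁻ z in S, W z * ‖z‖ₑ ^ (-(1 / 2 : ℝ)) *
              ∫⁻ ζ in T, (W ζ * v ζ + v ζ) * ‖ζ‖ₑ ^ (-(k : ℝ)) * ‖z - ζ‖ₑ⁻¹ := by
            have m1 : Measurable fun z : ℂ => ∫⁻ ζ in ball (0 : ℂ) s,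
                (W ζ * v ζ) * ‖ζ‖ₑ ^ (-(k : ℝ)) * ‖z - ζ‖ₑ⁻¹ :=
              Measurable.lintegral_prod_right' (f := fun p : ℂ × ℂ =>
                (W p.2 * v p.2) * ‖p.2‖ₑ ^ (-(k : ℝ)) * ‖p.1 - p.2‖ₑ⁻¹) (by fun_prop)
            have m2 : Measurable fun z : ℂ => ∫⁻ ζ in T,
                (W ζ * v ζ + v ζ) * ‖ζ‖ₑ ^ (-(k : ℝ)) * ‖z - ζ‖ₑ⁻¹ :=
              Measurable.lintegral_prod_right' (f := fun p : ℂ × ℂ =>
                (W p.2 * v p.2 + v p.2) * ‖p.2‖ₑ ^ (-(k : ℝ)) * ‖p.1 - p.2‖ₑ⁻¹) (by fun_prop)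
            rw [← lintegral_const_mul _ (by fun_prop), ← lintegral_add_left (by fun_prop)]
            apply lintegral_congr
            intro z
            ring
        _ ≤ 1 / 2 * (∫⁻ ζ in ball (0 : ℂ) s, (W ζ * v ζ) * ‖ζ‖ₑ ^ (-(k : ℝ)) *
              ‖ζ‖ₑ ^ (-(1 / 2 : ℝ))) +
            C * (1 / 2 * ∫⁻ ζ in T, (W ζ * v ζ + v ζ) * ‖ζ‖ₑ ^ (-(k : ℝ)) *
              ‖ζ‖ₑ ^ (-(1 / 2 : ℝ))) := by
            apply add_le_add
            · exact tonelli _ measurableSet_ball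
                (fun ζ => (W ζ * v ζ) * ‖ζ‖ₑ ^ (-(k : ℝ))) (by fun_prop)
            · apply mul_le_mul_right
              exact tonelli _ mT
                (fun ζ => (W ζ * v ζ + v ζ) * ‖ζ‖ₑ ^ (-(k : ℝ))) (by fun_prop)
        _ ≤ 1 / 2 * X + 1 / 2 * (C * (ENNReal.ofReal s ^ (-((k : ℝ) + 1 / 2)) * Y)) := by
            apply add_le_add
            · apply mul_le_mul_right
              have e1 : ∫⁻ ζ in ball (0 : ℂ) s, (W ζ * v ζ) * ‖ζ‖ₑ ^ (-(k : ℝ)) *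
                  ‖ζ‖ₑ ^ (-(1 / 2 : ℝ)) = ∫⁻ ζ in ball (0 : ℂ) s,
                    S.indicator (fun ζ => W ζ * v ζ * ‖ζ‖ₑ ^ (-((k : ℝ) + 1 / 2))) ζ := by
                apply lintegral_congr_ae
                filter_upwards [ae_restrict_of_ae (ae_ne 0), ae_restrict_mem measurableSet_ball,
                  ae_restrict_of_ae hP, ae_restrict_of_ae (sphere_null Γ h0)] with ζ h1 h2 h3 h4
                by_cases hζ : ζ ∈ S
                · rw [indicator_of_mem hζ, hsplit ζ h1]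
                  ring
                · rw [indicator_of_notMem hζ]
                  have : ‖ζ‖ ≤ Γ := by
                    by_contra hcon
                    apply hζ
                    refine ⟨h2, ?_⟩
                    rw [mem_closedBall_zero_iff]
                    exact hcon
                  rw [h3 (lt_of_le_of_ne this h4)]
                  simp
              rw [e1, lintegral_indicator mS]
              apply lintegral_mono'
              · exact Measure.restrict_mono_measure Measure.restrict_le_self S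
              · exact le_rfl
            · rw [← mul_assoc, mul_comm C, mul_assoc]
              apply mul_le_mul_right
              apply mul_le_mul_right
              refine le_trans (le_of_eq ?_) (hTk _ (by positivity))
              apply lintegral_congr_ae
              filter_upwards [ae_restrict_of_ae (ae_ne 0)] with ζ hζ
              rw [hsplit ζ hζ]
              ring
    set Z := C * (ENNReal.ofReal s ^ (-((k : ℝ) + 1 / 2)) * Y)
    have h2 : 1 / 2 * X + 1 / 2 * X = X := by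
      rw [← add_mul]
      simp [ENNReal.inv_two_add_inv_two]
    have h3 : 1 / 2 * X + 1 / 2 * X ≤ 1 / 2 * X + 1 / 2 * Z := by rw [h2]; exact h1
    have h4 : 1 / 2 * X ≤ 1 / 2 * Z := by
      refine (ENNReal.add_le_add_iff_left ?_).mp h3
      exact (ENNReal.mul_lt_top (by norm_num) hXfin).ne
    exact (ENNReal.mul_le_mul_iff_right (by norm_num) (by norm_num)).mp h4
  have hCY : C * Y < ⊤ := ENNReal.mul_lt_top hC hYfin
  -- a geometric factor
  have hq : ∀ r : ℝ, 0 < r → r < s → ∀ c : ℝ, ENNReal.ofReal r ^ c * ENNReal.ofReal s ^ (-c) =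
      ENNReal.ofReal (r / s) ^ c := by
    intro r hr0 hrs c
    rw [ENNReal.ofReal_rpow_of_pos hr0, ENNReal.ofReal_rpow_of_pos hs0,
      ENNReal.ofReal_rpow_of_pos (div_pos hr0 hs0), ← ENNReal.ofReal_mul (by positivity),
      Real.div_rpow hr0.le hs0.le, Real.rpow_neg hs0.le, div_eq_mul_inv]
  have hq1 : ∀ r : ℝ, 0 < r → r < s → ENNReal.ofReal (r / s) < 1 := by
    intro r hr0 hrs
    rw [ENNReal.ofReal_lt_one]
    rw [div_lt_one hs0]
    exact hrs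
  have hWv : ∀ r : ℝ, 0 < r → r < s → ∫⁻ z in ball (0 : ℂ) r, W z * v z = 0 := by
    intro r hr0 hrs
    have hb : ∀ k : ℕ, ∫⁻ z in ball (0 : ℂ) r, W z * v z ≤
        (C * Y) * ENNReal.ofReal (r / s) ^ k := by
      intro k
      have hpt : ∀ᵐ z ∂(volume.restrict (ball (0 : ℂ) r)), W z * v z ≤
          ENNReal.ofReal r ^ ((k : ℝ) + 1 / 2) *
            S.indicator (fun z => W z * v z * ‖z‖ₑ ^ (-((k : ℝ) + 1 / 2))) z := by
        filter_upwards [ae_restrict_of_ae (ae_ne 0), ae_restrict_mem measurableSet_ball,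
          ae_restrict_of_ae hP, ae_restrict_of_ae (sphere_null Γ h0)] with ζ h1 h2 h3 h4
        by_cases hζ : ζ ∈ S
        · rw [indicator_of_mem hζ]
          rw [mem_ball_zero_iff] at h2
          have e1 : ‖ζ‖ₑ ^ ((k : ℝ) + 1 / 2) ≤ ENNReal.ofReal r ^ ((k : ℝ) + 1 / 2) := by
            apply ENNReal.rpow_le_rpow _ (by positivity)
            rw [← ofReal_norm]
            exact ENNReal.ofReal_le_ofReal h2.le
          have e2 : ‖ζ‖ₑ ^ ((k : ℝ) + 1 / 2) * ‖ζ‖ₑ ^ (-((k : ℝ) + 1 / 2)) = 1 := by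
            rw [← ENNReal.rpow_add _ _ (by simpa using h1) enorm_ne_top, add_neg_cancel,
              ENNReal.rpow_zero]
          calc W ζ * v ζ = (‖ζ‖ₑ ^ ((k : ℝ) + 1 / 2) * ‖ζ‖ₑ ^ (-((k : ℝ) + 1 / 2))) *
                (W ζ * v ζ) := by rw [e2, one_mul]
            _ = ‖ζ‖ₑ ^ ((k : ℝ) + 1 / 2) * (W ζ * v ζ * ‖ζ‖ₑ ^ (-((k : ℝ) + 1 / 2))) := by ring
            _ ≤ _ := mul_le_mul_left e1 _
        · have : ‖ζ‖ ≤ Γ := by
            by_contra hcon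
            apply hζ
            refine ⟨?_, ?_⟩
            · rw [mem_ball_zero_iff] at h2 ⊢
              linarith
            · rw [mem_closedBall_zero_iff]
              exact hcon
          rw [h3 (lt_of_le_of_ne this h4)]
          simp
      calc ∫⁻ z in ball (0 : ℂ) r, W z * v z ≤ ∫⁻ z in ball (0 : ℂ) r,
          ENNReal.ofReal r ^ ((k : ℝ) + 1 / 2) *
            S.indicator (fun z => W z * v z * ‖z‖ₑ ^ (-((k : ℝ) + 1 / 2))) z :=
            lintegral_mono_ae hpt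
        _ ≤ ∫⁻ z, ENNReal.ofReal r ^ ((k : ℝ) + 1 / 2) *
            S.indicator (fun z => W z * v z * ‖z‖ₑ ^ (-((k : ℝ) + 1 / 2))) z :=
            setLIntegral_le_lintegral _ _
        _ = ENNReal.ofReal r ^ ((k : ℝ) + 1 / 2) *
            ∫⁻ z in S, W z * v z * ‖z‖ₑ ^ (-((k : ℝ) + 1 / 2)) := by
            have m1 : Measurable (S.indicator
                (fun z => W z * v z * ‖z‖ₑ ^ (-((k : ℝ) + 1 / 2)))) :=
              Measurable.indicator (by fun_prop) mS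
            rw [lintegral_const_mul _ m1, lintegral_indicator mS]
        _ ≤ ENNReal.ofReal r ^ ((k : ℝ) + 1 / 2) *
            (C * (ENNReal.ofReal s ^ (-((k : ℝ) + 1 / 2)) * Y)) := mul_le_mul_right (hX k) _
        _ = (C * Y) * (ENNReal.ofReal r ^ ((k : ℝ) + 1 / 2) *
            ENNReal.ofReal s ^ (-((k : ℝ) + 1 / 2))) := by ring
        _ = (C * Y) * ENNReal.ofReal (r / s) ^ ((k : ℝ) + 1 / 2) := by rw [hq r hr0 hrs]
        _ ≤ (C * Y) * ENNReal.ofReal (r / s) ^ k := by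
            apply mul_le_mul_right
            rw [← ENNReal.rpow_natCast]
            exact ENNReal.rpow_le_rpow_of_exponent_ge (hq1 r hr0 hrs).le (by linarith)
    have hlim : Tendsto (fun k : ℕ => (C * Y) * ENNReal.ofReal (r / s) ^ k) atTop (𝓝 0) := by
      have := ENNReal.Tendsto.const_mul (a := C * Y)
        (ENNReal.tendsto_pow_atTop_nhds_zero_of_lt_one (hq1 r hr0 hrs)) (Or.inr hCY.ne)
      rwa [mul_zero] at this
    exact le_antisymm (ge_of_tendsto' hlim hb) zero_le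
  have hWvs : ∀ᵐ z : ℂ, ‖z‖ < s → W z * v z = 0 := by
    have h1 : ∀ j : ℕ, ∀ᵐ z : ℂ, ‖z‖ < s * (1 - 1 / ((j : ℝ) + 2)) → W z * v z = 0 := by
      intro j
      have hj : (0 : ℝ) < (j : ℝ) + 2 := by positivity
      have hj1 : 1 / ((j : ℝ) + 2) < 1 := by
        rw [div_lt_one hj]
        have : (0 : ℝ) ≤ j := Nat.cast_nonneg j
        linarith
      have hj0 : 0 < 1 / ((j : ℝ) + 2) := by positivity
      have h2 := hWv (s * (1 - 1 / ((j : ℝ) + 2))) (mul_pos hs0 (by linarith))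
        (by nlinarith)
      rw [lintegral_eq_zero_iff (by fun_prop)] at h2
      have h3 := (ae_restrict_iff' measurableSet_ball).mp h2
      filter_upwards [h3] with z hz hz2
      exact hz (by rwa [mem_ball_zero_iff])
    filter_upwards [ae_all_iff.mpr h1] with z hz hzs
    have hlim : Tendsto (fun j : ℕ => (s : ℝ) * (1 - 1 / ((j : ℝ) + 2))) atTop (𝓝 s) := by
      have e1 : Tendsto (fun j : ℕ => 1 / ((j : ℝ) + 2)) atTop (𝓝 0) := by
        have := tendsto_one_div_add_atTop_nhds_zero_nat (𝕜 := ℝ)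
        have e2 := (tendsto_add_atTop_iff_nat 1).mpr this
        refine e2.congr (fun j => ?_)
        push_cast
        ring
      have e3 := (e1.const_sub 1).const_mul (s : ℝ)
      simpa using e3
    obtain ⟨j, hj⟩ := (hlim.eventually_const_lt hzs).exists
    exact hz j hj
  refine ⟨(Γ + s) / 2, by linarith, ?_⟩
  set r : ℝ := (Γ + s) / 2 with hr
  have hr0 : 0 < r := by
    rw [hr]
    linarith
  have hrs : r < s := by
    rw [hr]
    linarith
  unfold Pz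
  filter_upwards [ae_all_iff.mpr hineq, ae_ne 0] with z hz hz0 hzr
  have hzs : ‖z‖ < s := hzr.trans hrs
  have hD : (C * (ENNReal.ofReal (s - r))⁻¹ * Y) < ⊤ := by
    apply ENNReal.mul_lt_top _ hYfin
    apply ENNReal.mul_lt_top hC
    rw [ENNReal.inv_lt_top, ENNReal.ofReal_pos]
    linarith
  have hb : ∀ k : ℕ, v z ≤ (C * (ENNReal.ofReal (s - r))⁻¹ * Y) * ENNReal.ofReal (r / s) ^ k := by
    intro k
    have h1 := hz k hzs
    have h2 : ∫⁻ ζ in ball (0 : ℂ) s, (W ζ * v ζ) * ‖ζ‖ₑ ^ (-(k : ℝ)) * ‖z - ζ‖ₑ⁻¹ = 0 := by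
      rw [lintegral_eq_zero_iff (by fun_prop)]
      rw [EventuallyEq, ae_restrict_iff' measurableSet_ball]
      filter_upwards [hWvs] with ζ hζ hζs
      rw [mem_ball_zero_iff] at hζs
      simp [hζ hζs]
    rw [h2, zero_add] at h1
    have h3 : ∫⁻ ζ in T, (W ζ * v ζ + v ζ) * ‖ζ‖ₑ ^ (-(k : ℝ)) * ‖z - ζ‖ₑ⁻¹ ≤
        (ENNReal.ofReal (s - r))⁻¹ * (ENNReal.ofReal s ^ (-(k : ℝ)) * Y) := by
      calc _ ≤ ∫⁻ ζ in T, (ENNReal.ofReal (s - r))⁻¹ *
            ((W ζ * v ζ + v ζ) * ‖ζ‖ₑ ^ (-(k : ℝ))) := by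
            apply setLIntegral_mono' mT
            intro ζ hζ
            rw [mul_comm]
            apply mul_le_mul_left
            apply ENNReal.inv_le_inv.mpr
            rw [← ofReal_norm]
            apply ENNReal.ofReal_le_ofReal
            have e1 : (s : ℝ) ≤ ‖ζ‖ := by
              have := hζ.2
              rw [mem_ball_zero_iff] at this
              exact not_lt.mp this
            have e2 : ‖ζ‖ ≤ ‖z - ζ‖ + ‖z‖ := by
              calc ‖ζ‖ = ‖z - (z - ζ)‖ := by ring_nf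
                _ ≤ _ := norm_sub_le _ _
                _ = _ := by ring
            linarith
        _ = (ENNReal.ofReal (s - r))⁻¹ * ∫⁻ ζ in T, (W ζ * v ζ + v ζ) * ‖ζ‖ₑ ^ (-(k : ℝ)) := by
            rw [lintegral_const_mul _ (by fun_prop)]
        _ ≤ _ := mul_le_mul_right (hTk _ (by positivity)) _
    have h4 : v z * ‖z‖ₑ ^ (-(k : ℝ)) ≤
        (C * (ENNReal.ofReal (s - r))⁻¹ * Y) * ENNReal.ofReal s ^ (-(k : ℝ)) := by
      refine h1.trans ?_
      calc _ ≤ C * ((ENNReal.ofReal (s - r))⁻¹ * (ENNReal.ofReal s ^ (-(k : ℝ)) * Y)) :=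
            mul_le_mul_right h3 _
        _ = _ := by ring
    have e2 : ‖z‖ₑ ^ (-(k : ℝ)) * ‖z‖ₑ ^ (k : ℝ) = 1 := by
      rw [← ENNReal.rpow_add _ _ (by simpa using hz0) enorm_ne_top, neg_add_cancel,
        ENNReal.rpow_zero]
    have e3 : ‖z‖ₑ ^ (k : ℝ) ≤ ENNReal.ofReal r ^ (k : ℝ) := by
      apply ENNReal.rpow_le_rpow _ (by positivity)
      rw [← ofReal_norm]
      exact ENNReal.ofReal_le_ofReal hzr.le
    calc v z = v z * (‖z‖ₑ ^ (-(k : ℝ)) * ‖z‖ₑ ^ (k : ℝ)) := by rw [e2, mul_one]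
      _ = (v z * ‖z‖ₑ ^ (-(k : ℝ))) * ‖z‖ₑ ^ (k : ℝ) := by ring
      _ ≤ ((C * (ENNReal.ofReal (s - r))⁻¹ * Y) * ENNReal.ofReal s ^ (-(k : ℝ))) *
          ENNReal.ofReal r ^ (k : ℝ) := mul_le_mul' h4 e3
      _ = (C * (ENNReal.ofReal (s - r))⁻¹ * Y) * (ENNReal.ofReal r ^ (k : ℝ) *
          ENNReal.ofReal s ^ (-(k : ℝ))) := by ring
      _ = _ := by rw [hq r hr0 hrs, ENNReal.rpow_natCast]
  have hlim : Tendsto (fun k : ℕ => (C * (ENNReal.ofReal (s - r))⁻¹ * Y) *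
      ENNReal.ofReal (r / s) ^ k) atTop (𝓝 0) := by
    have := ENNReal.Tendsto.const_mul (a := C * (ENNReal.ofReal (s - r))⁻¹ * Y)
      (ENNReal.tendsto_pow_atTop_nhds_zero_of_lt_one (hq1 r hr0 hrs)) (Or.inr hD.ne)
    rwa [mul_zero] at this
  exact le_antisymm (ge_of_tendsto' hlim hb) zero_le

lemma Pz.mono {v : ℂ → ℝ≥0∞} {ρ ρ' : ℝ} (h : Pz v ρ) (hle : ρ' ≤ ρ) : Pz v ρ' := by
  unfold Pz at *
  filter_upwards [h] with z hz hz2
  exact hz (hz2.trans_le hle)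

/-- The one-dimensional uniqueness theorem. -/
theorem oneD {n : ℕ} (hn : 2 ≤ n) {R : ℝ} {v W : ℂ → ℝ≥0∞} (h : OneD n R v W) : Pz v R := by
  by_cases hR : R ≤ 0
  · unfold Pz
    filter_upwards with z hz
    have := norm_nonneg z
    linarith
  rw [not_le] at hR
  set A : Set ℝ := {ρ | 0 ≤ ρ ∧ ρ ≤ R ∧ Pz v ρ} with hA
  have hA0 : (0 : ℝ) ∈ A := by
    refine ⟨le_rfl, hR.le, ?_⟩
    unfold Pz
    filter_upwards with z hz
    have := norm_nonneg z
    linarith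
  have hbdd : BddAbove A := ⟨R, fun ρ hρ => hρ.2.1⟩
  set Γ := sSup A with hΓ
  have hΓ0 : 0 ≤ Γ := le_csSup hbdd hA0
  have hΓR : Γ ≤ R := csSup_le ⟨0, hA0⟩ (fun ρ hρ => hρ.2.1)
  have hPΓ : Pz v Γ := by
    have h1 : ∀ j : ℕ, ∀ᵐ z : ℂ, ‖z‖ < Γ - 1 / ((j : ℝ) + 1) → v z = 0 := by
      intro j
      have : (0 : ℝ) < 1 / ((j : ℝ) + 1) := by positivity
      obtain ⟨ρ, hρ, hlt⟩ := exists_lt_of_lt_csSup ⟨0, hA0⟩
        (show Γ - 1 / ((j : ℝ) + 1) < sSup A by linarith)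
      exact hρ.2.2.mono hlt.le
    unfold Pz
    filter_upwards [ae_all_iff.mpr h1] with z hz hzΓ
    obtain ⟨j, hj⟩ := exists_nat_one_div_lt (show (0 : ℝ) < Γ - ‖z‖ by linarith)
    exact hz j (by linarith)
  by_contra hcon
  have hlt : Γ < R := by
    rcases hΓR.lt_or_eq with h | h
    · exact h
    · rw [h] at hPΓ
      exact absurd hPΓ hcon
  obtain ⟨ρ', h1, h2⟩ := step hn h hΓ0 hlt hPΓ
  have h3 : min ρ' R ∈ A := ⟨le_min (hΓ0.trans h1.le) hR.le, min_le_right _ _,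
    h2.mono (min_le_left _ _)⟩
  have h4 := le_csSup hbdd h3
  have h5 : Γ < min ρ' R := lt_min h1 hlt
  linarith

end Q71.UC
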