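import Pool.Agent.Q71.UC.Rep
import Pool.Agent.Q71.UC.OneD

set_option linter.unusedSectionVars false
set_option linter.unusedVariables false

open MeasureTheory Set Filter Topology Metric Complex
open scoped ContDiff ComplexConjugate ENNReal

namespace Q71.UC

variable {N : ℕ} {F : Type*} [NormedAddCommGroup F] [NormedSpace ℂ F] [CompleteSpace F]

/-- `2n` with `n = N + 1` -/
noncomputable def pe (N : ℕ) : ℝ := 2 * ((N + 1 : ℕ) : ℝ)

/-- the conjugate exponent of `2n` -/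
noncomputable def qe (N : ℕ) : ℝ := pe N / (pe N - 1)

lemma pe_ge (N : ℕ) : 2 ≤ pe N := by
  unfold pe
  push_cast
  have : (0 : ℝ) ≤ N := Nat.cast_nonneg N
  linarith

lemma pq (N : ℕ) : (pe N).HolderConjugate (qe N) := by
  have h := pe_ge N
  rw [Real.holderConjugate_iff]
  refine ⟨by linarith, ?_⟩
  unfold qe
  have : pe N - 1 ≠ 0 := by linarith
  have : pe N ≠ 0 := by linarith
  field_simp
  ring

lemma qe_ge (N : ℕ) : 1 ≤ qe N := (pq N).symm.lt.le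

structure Setup (Ω : Set (Fin (N + 1) → ℂ)) (u : (Fin (N + 1) → ℂ) → F)
    (g : Fin (N + 1) → (Fin (N + 1) → ℂ) → F) (V : (Fin (N + 1) → ℂ) → ℝ≥0∞) : Prop where
  wd : WeakData Ω u g
  mu : StronglyMeasurable u
  mg : ∀ j, StronglyMeasurable (g j)
  mV : Measurable V
  ineq : ∀ᵐ z, z ∈ Ω → ∑ j, ‖g j z‖ₑ ≤ V z * ‖u z‖ₑ
  fV : ∀ K ⊆ Ω, IsCompact K → ∫⁻ z in K, V z ^ pe N < ⊤
  fu : ∀ K ⊆ Ω, IsCompact K → ∫⁻ z in K, ‖u z‖ₑ ^ qe N < ⊤

/-- infinite order vanishing, integral form -/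
def Van (u : (Fin (N + 1) → ℂ) → F) (z0 : Fin (N + 1) → ℂ) : Prop :=
  ∀ M : ℝ, 0 ≤ M → ∃ δ > 0, ∫⁻ z in ball z0 δ, ‖u z‖ₑ ^ qe N * ‖z - z0‖ₑ ^ (-M) < ⊤

lemma cone_le (z0 : Fin (N + 1) → ℂ) {f : (Fin (N + 1) → ℂ) → ℝ≥0∞} (mf : Measurable f)
    {Reg : Set ((Fin N → ℂ) × ℂ)} (mReg : MeasurableSet Reg) {S : Set (Fin (N + 1) → ℂ)}
    (mS : MeasurableSet S) (hS : ∀ x ∈ Reg, Phi z0 x ∈ S) :
    ∫⁻ x in Reg, f (Phi z0 x) * ENNReal.ofReal (‖x.2‖ ^ (2 * N)) ≤ ∫⁻ z in S, f z := by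
  rw [← lintegral_indicator mS, cv z0 (mf.indicator mS), ← lintegral_indicator mReg]
  apply lintegral_mono
  intro x
  beta_reduce
  by_cases hx : x ∈ Reg
  · rw [indicator_of_mem hx, indicator_of_mem (hS x hx)]
  · rw [indicator_of_notMem hx]
    exact zero_le

lemma ae_Phi (z0 : Fin (N + 1) → ℂ) {P : (Fin (N + 1) → ℂ) → Prop} (h : ∀ᵐ z, P z) :
    ∀ᵐ x : (Fin N → ℂ) × ℂ, P (Phi z0 x) := by
  rw [← map_Phi z0] at h
  have h1 := ae_of_ae_map (continuous_Phi z0).measurable.aemeasurable h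
  rw [ae_withDensity_iff (by fun_prop)] at h1
  filter_upwards [h1, ae_ne2] with x hx hx2
  apply hx
  rw [ne_eq, ENNReal.ofReal_eq_zero, not_le]
  have : 0 < ‖x.2‖ := norm_pos_iff.mpr hx2
  positivity

lemma Phi_norm (z0 : Fin (N + 1) → ℂ) {A : ℝ} (hA : 1 ≤ A) {x : (Fin N → ℂ) × ℂ}
    (hx : ‖x.1‖ ≤ A) : ‖Phi z0 x - z0‖ ≤ A * ‖x.2‖ := by
  rw [pi_norm_le_iff_of_nonneg (by positivity)]
  intro i
  rw [Pi.sub_apply]
  unfold Phi
  rw [add_sub_cancel_left, norm_mul, mul_comm]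
  apply mul_le_mul_of_nonneg_right _ (norm_nonneg _)
  refine Fin.cases ?_ (fun i => ?_) i
  · simpa using hA
  · simp only [Fin.cons_succ]
    exact (norm_le_pi_norm x.1 i).trans hx

lemma le_Phi_norm (z0 : Fin (N + 1) → ℂ) (x : (Fin N → ℂ) × ℂ) : ‖x.2‖ ≤ ‖Phi z0 x - z0‖ := by
  have h := norm_le_pi_norm (Phi z0 x - z0) 0
  rw [Pi.sub_apply, Phi_zero, add_sub_cancel_left] at h
  exact h

lemma mul_le_pow_add_pow (a b : ℝ≥0∞) {p q : ℝ} (hpq : p.HolderConjugate q) :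
    a * b ≤ a ^ p + b ^ q := by
  refine (ENNReal.young_inequality a b hpq).trans ?_
  apply add_le_add
  · refine ENNReal.div_le_of_le_mul' ?_
    have : (1 : ℝ≥0∞) ≤ ENNReal.ofReal p := by
      rw [← ENNReal.ofReal_one]
      exact ENNReal.ofReal_le_ofReal hpq.lt.le
    calc a ^ p = 1 * a ^ p := (one_mul _).symm
      _ ≤ _ := mul_le_mul_left this _
  · refine ENNReal.div_le_of_le_mul' ?_
    have : (1 : ℝ≥0∞) ≤ ENNReal.ofReal q := by
      rw [← ENNReal.ofReal_one]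
      exact ENNReal.ofReal_le_ofReal hpq.symm.lt.le
    calc b ^ q = 1 * b ^ q := (one_mul _).symm
      _ ≤ _ := mul_le_mul_left this _

lemma le_one_add_rpow (a : ℝ≥0∞) {q : ℝ} (hq : 1 ≤ q) : a ≤ 1 + a ^ q := by
  rcases le_total a 1 with h | h
  · exact h.trans le_self_add
  · calc a = a ^ (1 : ℝ) := (ENNReal.rpow_one a).symm
      _ ≤ a ^ q := ENNReal.rpow_le_rpow_of_exponent_le h hq
      _ ≤ _ := le_add_self

theorem cone {Ω : Set (Fin (N + 1) → ℂ)} {u : (Fin (N + 1) → ℂ) → F}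
    {g : Fin (N + 1) → (Fin (N + 1) → ℂ) → F} {V : (Fin (N + 1) → ℂ) → ℝ≥0∞}
    (hN : 1 ≤ N) (S : Setup Ω u g V) {z0 : Fin (N + 1) → ℂ} (hv : Van u z0) {A ρ : ℝ}
    (hA : 1 ≤ A) (hρ0 : 0 < ρ) (hρ : closedBall z0 ρ ⊆ Ω) :
    ∀ᵐ x : (Fin N → ℂ) × ℂ, ‖x.1‖ < A → ‖x.2‖ < ρ / A → u (Phi z0 x) = 0 := by
  have hA0 : 0 < A := lt_of_lt_of_le one_pos hA
  set R : ℝ := ρ / A with hRdef
  have hR0 : 0 < R := div_pos hρ0 hA0
  set K : Set (Fin (N + 1) → ℂ) := closedBall z0 ρ with hKdef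
  have hK : IsCompact K := isCompact_closedBall _ _
  have mK : MeasurableSet K := measurableSet_closedBall
  have mu := S.mu
  have mV := S.mV
  have mun : Measurable (fun z => ‖u z‖ₑ) := mu.enorm
  have hq1 := qe_ge N
  have hq0 : 0 < qe N := lt_of_lt_of_le one_pos hq1
  -- H'
  have H' : ∀ M : ℝ, 0 ≤ M → ∫⁻ z in K, ‖u z‖ₑ ^ qe N * ‖z - z0‖ₑ ^ (-M) < ⊤ := by
    intro M hM
    obtain ⟨δ, hδ, hfin⟩ := hv M hM
    have hsub : K ⊆ ball z0 δ ∪ (K \ ball z0 δ) := by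
      intro z hz
      by_cases h : z ∈ ball z0 δ
      · exact Or.inl h
      · exact Or.inr ⟨hz, h⟩
    refine lt_of_le_of_lt ((lintegral_mono_set hsub).trans (lintegral_union_le _ _ _)) ?_
    apply ENNReal.add_lt_top.mpr ⟨hfin, ?_⟩
    calc ∫⁻ z in K \ ball z0 δ, ‖u z‖ₑ ^ qe N * ‖z - z0‖ₑ ^ (-M) ≤
        ∫⁻ z in K \ ball z0 δ, ‖u z‖ₑ ^ qe N * ENNReal.ofReal δ ^ (-M) := by
          apply setLIntegral_mono' (mK.diff measurableSet_ball)
          intro z hz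
          apply mul_le_mul_right
          apply rpow_neg_anti hM
          rw [← ofReal_norm]
          apply ENNReal.ofReal_le_ofReal
          have := hz.2
          rw [mem_ball_iff_norm, not_lt] at this
          exact this
      _ ≤ ∫⁻ z in K, ‖u z‖ₑ ^ qe N * ENNReal.ofReal δ ^ (-M) := lintegral_mono_set sdiff_subset
      _ = (∫⁻ z in K, ‖u z‖ₑ ^ qe N) * ENNReal.ofReal δ ^ (-M) := by
          rw [lintegral_mul_const _ (by fun_prop)]
      _ < ⊤ := by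
          apply ENNReal.mul_lt_top (S.fu K hρ hK)
          rw [ENNReal.ofReal_rpow_of_pos hδ]
          exact ENNReal.ofReal_lt_top
  have hpow : ∀ M : ℝ, ∀ z, (‖u z‖ₑ * ‖z - z0‖ₑ ^ (-M)) ^ qe N =
      ‖u z‖ₑ ^ qe N * ‖z - z0‖ₑ ^ (-(M * qe N)) := by
    intro M z
    rw [ENNReal.mul_rpow_of_nonneg _ _ hq0.le, ← ENNReal.rpow_mul]
    congr 2
    ring
  have HI1 : ∀ M : ℝ, 0 ≤ M → ∫⁻ z in K, ‖u z‖ₑ * ‖z - z0‖ₑ ^ (-M) < ⊤ := by
    intro M hM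
    calc ∫⁻ z in K, ‖u z‖ₑ * ‖z - z0‖ₑ ^ (-M) ≤
        ∫⁻ z in K, (1 + ‖u z‖ₑ ^ qe N * ‖z - z0‖ₑ ^ (-(M * qe N))) := by
          apply lintegral_mono
          intro z
          beta_reduce
          rw [← hpow]
          exact le_one_add_rpow _ hq1
      _ = volume K + ∫⁻ z in K, ‖u z‖ₑ ^ qe N * ‖z - z0‖ₑ ^ (-(M * qe N)) := by
          rw [lintegral_add_left measurable_const]
          simp
      _ < ⊤ := ENNReal.add_lt_top.mpr ⟨hK.measure_lt_top, H' _ (by positivity)⟩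
  have HI2 : ∀ M : ℝ, 0 ≤ M → ∫⁻ z in K, V z * ‖u z‖ₑ * ‖z - z0‖ₑ ^ (-M) < ⊤ := by
    intro M hM
    calc ∫⁻ z in K, V z * ‖u z‖ₑ * ‖z - z0‖ₑ ^ (-M) ≤
        ∫⁻ z in K, (V z ^ pe N + ‖u z‖ₑ ^ qe N * ‖z - z0‖ₑ ^ (-(M * qe N))) := by
          apply lintegral_mono
          intro z
          beta_reduce
          rw [← hpow, mul_assoc]
          exact mul_le_pow_add_pow _ _ (pq N)
      _ = (∫⁻ z in K, V z ^ pe N) + ∫⁻ z in K, ‖u z‖ₑ ^ qe N * ‖z - z0‖ₑ ^ (-(M * qe N)) := by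
          rw [lintegral_add_left (by fun_prop)]
      _ < ⊤ := ENNReal.add_lt_top.mpr ⟨S.fV K hρ hK, H' _ (by positivity)⟩
  -- the region
  set Reg : Set ((Fin N → ℂ) × ℂ) := ball (0 : Fin N → ℂ) A ×ˢ ball (0 : ℂ) R with hReg
  have mReg : MeasurableSet Reg := measurableSet_ball.prod measurableSet_ball
  have memReg : ∀ x : (Fin N → ℂ) × ℂ, x ∈ Reg ↔ ‖x.1‖ < A ∧ ‖x.2‖ < R := by
    intro x
    rw [hReg, mem_prod, mem_ball_zero_iff, mem_ball_zero_iff]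
  have hRegK : ∀ x ∈ Reg, Phi z0 x ∈ K := by
    intro x hx
    rw [memReg] at hx
    rw [hKdef, mem_closedBall_iff_norm]
    refine (Phi_norm z0 hA hx.1.le).trans ?_
    have : A * ‖x.2‖ ≤ A * R := mul_le_mul_of_nonneg_left hx.2.le hA0.le
    refine this.trans (le_of_eq ?_)
    rw [hRdef]
    field_simp
  have hΩ : ∀ x : (Fin N → ℂ) × ℂ, ‖x.1‖ < A → ‖x.2‖ < R → Phi z0 x ∈ Ω := fun x h1 h2 =>
    hρ (hRegK x ((memReg x).mpr ⟨h1, h2⟩))
  have mPhi : Measurable (Phi z0) := (continuous_Phi z0).measurable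
  -- transfer of weighted integrals
  have J : ∀ f : (Fin (N + 1) → ℂ) → ℝ≥0∞, Measurable f → ∀ M : ℝ, 0 ≤ M →
      ∫⁻ z in K, f z * ‖z - z0‖ₑ ^ (-(M + 2 * N)) < ⊤ →
      ∫⁻ x in Reg, f (Phi z0 x) * ‖x.2‖ₑ ^ (-M) < ⊤ := by
    intro f mf M hM hfin
    have h1 : ∀ᵐ x ∂(volume.restrict Reg), f (Phi z0 x) * ‖x.2‖ₑ ^ (-M) ≤
        ENNReal.ofReal A ^ (M + 2 * N) * ((fun z => f z * ‖z - z0‖ₑ ^ (-(M + 2 * N)))
          (Phi z0 x) * ENNReal.ofReal (‖x.2‖ ^ (2 * N))) := by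
      filter_upwards [ae_restrict_mem mReg, ae_restrict_of_ae ae_ne2] with x hx hx2
      rw [memReg] at hx
      have hn : (0 : ℝ) ≤ M + 2 * N := by positivity
      have hx0 : ‖x.2‖ₑ ≠ 0 := by simpa using hx2
      have e1 : ENNReal.ofReal (‖x.2‖ ^ (2 * N)) = ‖x.2‖ₑ ^ ((2 * N : ℕ) : ℝ) := by
        rw [enorm_rpow_eq hx2, Real.rpow_natCast]
      have e2 : ‖x.2‖ₑ ^ (-M) = ‖x.2‖ₑ ^ (-(M + 2 * N)) * ‖x.2‖ₑ ^ ((2 * N : ℕ) : ℝ) := by
        rw [← ENNReal.rpow_add _ _ hx0 enorm_ne_top]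
        congr 1
        push_cast
        ring
      have e3 : ‖x.2‖ₑ ^ (-(M + 2 * N)) ≤ ENNReal.ofReal A ^ (M + 2 * N) *
          ‖Phi z0 x - z0‖ₑ ^ (-(M + 2 * N)) := by
        have e4 : ‖Phi z0 x - z0‖ₑ ≤ ENNReal.ofReal A * ‖x.2‖ₑ := by
          rw [← ofReal_norm, ← ofReal_norm, ← ENNReal.ofReal_mul hA0.le]
          exact ENNReal.ofReal_le_ofReal (Phi_norm z0 hA hx.1.le)
        have e5 := rpow_neg_anti hn e4
        rw [ENNReal.mul_rpow_of_ne_top ENNReal.ofReal_ne_top enorm_ne_top] at e5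
        have e6 : ENNReal.ofReal A ^ (M + 2 * N) * ENNReal.ofReal A ^ (-(M + 2 * N)) = 1 := by
          rw [← ENNReal.rpow_add _ _ (by simpa using hA0) ENNReal.ofReal_ne_top, add_neg_cancel,
            ENNReal.rpow_zero]
        calc ‖x.2‖ₑ ^ (-(M + 2 * N)) = ENNReal.ofReal A ^ (M + 2 * N) *
              (ENNReal.ofReal A ^ (-(M + 2 * N)) * ‖x.2‖ₑ ^ (-(M + 2 * N))) := by
              rw [← mul_assoc, e6, one_mul]
          _ ≤ _ := mul_le_mul_right e5 _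
      rw [e1, e2]
      calc f (Phi z0 x) * (‖x.2‖ₑ ^ (-(M + 2 * N)) * ‖x.2‖ₑ ^ ((2 * N : ℕ) : ℝ)) ≤
          f (Phi z0 x) * ((ENNReal.ofReal A ^ (M + 2 * N) *
          ‖Phi z0 x - z0‖ₑ ^ (-(M + 2 * N))) * ‖x.2‖ₑ ^ ((2 * N : ℕ) : ℝ)) :=
            mul_le_mul_right (mul_le_mul_left e3 _) _
        _ = _ := by ring
    refine lt_of_le_of_lt (lintegral_mono_ae h1) ?_
    rw [lintegral_const_mul _ (by fun_prop)]
    apply ENNReal.mul_lt_top
    · rw [ENNReal.ofReal_rpow_of_pos hA0]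
      exact ENNReal.ofReal_lt_top
    · exact lt_of_le_of_lt (cone_le z0 (by fun_prop) mReg mK hRegK) hfin
  have J1 : ∀ M : ℝ, 0 ≤ M → ∫⁻ x in Reg, ‖u (Phi z0 x)‖ₑ * ‖x.2‖ₑ ^ (-M) < ⊤ := by
    intro M hM
    exact J (fun z => ‖u z‖ₑ) mun M hM (HI1 _ (by positivity))
  have J2 : ∀ M : ℝ, 0 ≤ M →
      ∫⁻ x in Reg, (V (Phi z0 x) * ‖u (Phi z0 x)‖ₑ) * ‖x.2‖ₑ ^ (-M) < ⊤ := by
    intro M hM
    exact J (fun z => V z * ‖u z‖ₑ) (by fun_prop) M hM (HI2 _ (by positivity))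
  -- the bound of `GG`
  have mU : StronglyMeasurable (fun x => u (Phi z0 x)) := mu.comp_measurable mPhi
  have mG : StronglyMeasurable (GG z0 g) := by
    unfold GG
    apply Finset.stronglyMeasurable_fun_sum
    intro j _
    refine StronglyMeasurable.smul (Measurable.stronglyMeasurable ?_)
      ((S.mg j).comp_measurable mPhi)
    have h1 : Continuous (fun x : (Fin N → ℂ) × ℂ =>
        conj ((Fin.cons 1 x.1 : Fin (N + 1) → ℂ) j)) := by
      refine continuous_conj.comp ?_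
      refine Fin.cases ?_ (fun i => ?_) j
      · simp only [Fin.cons_zero]
        fun_prop
      · simp only [Fin.cons_succ]
        fun_prop
    exact h1.measurable
  have hGb : ∀ᵐ x : (Fin N → ℂ) × ℂ, x ∈ Reg →
      ‖GG z0 g x‖ₑ ≤ (ENNReal.ofReal A * V (Phi z0 x)) * ‖u (Phi z0 x)‖ₑ := by
    filter_upwards [ae_Phi z0 S.ineq] with x hx hxR
    have h1 := hx (hρ (hRegK x hxR))
    unfold GG
    calc ‖∑ j, conj ((Fin.cons 1 x.1 : Fin (N + 1) → ℂ) j) • g j (Phi z0 x)‖ₑ ≤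
        ∑ j, ‖conj ((Fin.cons 1 x.1 : Fin (N + 1) → ℂ) j) • g j (Phi z0 x)‖ₑ :=
          enorm_sum_le _ _
      _ ≤ ∑ j, ENNReal.ofReal A * ‖g j (Phi z0 x)‖ₑ := by
          apply Finset.sum_le_sum
          intro j _
          rw [enorm_smul]
          apply mul_le_mul_left
          rw [← ofReal_norm]
          apply ENNReal.ofReal_le_ofReal
          rw [RCLike.norm_conj]
          refine Fin.cases ?_ (fun i => ?_) j
          · simpa using hA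
          · simp only [Fin.cons_succ]
            exact (norm_le_pi_norm x.1 i).trans ((memReg x).mp hxR).1.le
      _ = ENNReal.ofReal A * ∑ j, ‖g j (Phi z0 x)‖ₑ := by rw [Finset.mul_sum]
      _ ≤ ENNReal.ofReal A * (V (Phi z0 x) * ‖u (Phi z0 x)‖ₑ) := mul_le_mul_right h1 _
      _ = _ := by ring
  -- integrability for `rep`
  have toInt : ∀ f : (Fin N → ℂ) × ℂ → F, StronglyMeasurable f → ∀ k : ℕ,
      ∫⁻ x in Reg, ‖f x‖ₑ * ‖x.2‖ₑ ^ (-(k : ℝ)) < ⊤ →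
      IntegrableOn (fun x : (Fin N → ℂ) × ℂ => (‖x.2‖⁻¹) ^ k * ‖f x‖) Reg := by
    intro f mf k hfin
    have mfn : Measurable (fun x => ‖f x‖) := mf.norm.measurable
    refine ⟨(Measurable.stronglyMeasurable (by fun_prop)).aestronglyMeasurable, ?_⟩
    rw [hasFiniteIntegral_iff_enorm]
    refine lt_of_le_of_lt (le_of_eq ?_) hfin
    apply lintegral_congr_ae
    filter_upwards [ae_restrict_of_ae ae_ne2] with x hx2
    rw [enorm_mul, enorm_pow, enorm_inv (norm_ne_zero_iff.mpr hx2), enorm_norm, enorm_norm,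
      ENNReal.rpow_neg, ENNReal.rpow_natCast, ENNReal.inv_pow, mul_comm]
  have hU : ∀ k : ℕ, IntegrableOn (fun x : (Fin N → ℂ) × ℂ =>
      (‖x.2‖⁻¹) ^ k * ‖u (Phi z0 x)‖) Reg := fun k =>
    toInt _ mU k (J1 k (Nat.cast_nonneg k))
  have hG : ∀ k : ℕ, IntegrableOn (fun x : (Fin N → ℂ) × ℂ =>
      (‖x.2‖⁻¹) ^ k * ‖GG z0 g x‖) Reg := by
    intro k
    apply toInt _ mG k
    calc ∫⁻ x in Reg, ‖GG z0 g x‖ₑ * ‖x.2‖ₑ ^ (-(k : ℝ)) ≤
        ∫⁻ x in Reg, ENNReal.ofReal A *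
          ((V (Phi z0 x) * ‖u (Phi z0 x)‖ₑ) * ‖x.2‖ₑ ^ (-(k : ℝ))) := by
          apply lintegral_mono_ae
          filter_upwards [ae_restrict_of_ae hGb, ae_restrict_mem mReg] with x hx hxR
          calc _ ≤ ((ENNReal.ofReal A * V (Phi z0 x)) * ‖u (Phi z0 x)‖ₑ) *
                ‖x.2‖ₑ ^ (-(k : ℝ)) := mul_le_mul_left (hx hxR) _
            _ = _ := by ring
      _ = ENNReal.ofReal A * ∫⁻ x in Reg, (V (Phi z0 x) * ‖u (Phi z0 x)‖ₑ) *
          ‖x.2‖ₑ ^ (-(k : ℝ)) := by rw [lintegral_const_mul _ (by fun_prop)]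
      _ < ⊤ := ENNReal.mul_lt_top ENNReal.ofReal_lt_top (J2 k (Nat.cast_nonneg k))
  -- the representation for all rational radii
  have hrep : ∀ s t : ℚ, 0 < s → s < t → (t : ℝ) < R → ∃ C : ℝ≥0∞, C < ⊤ ∧ ∀ k : ℕ,
      ∀ᵐ x : (Fin N → ℂ) × ℂ, ‖x.1‖ < A → ‖x.2‖ < s →
      ‖u (Phi z0 x)‖ₑ * ‖x.2‖ₑ ^ (-(k : ℝ)) ≤
        (∫⁻ ζ in ball (0 : ℂ) s, ‖GG z0 g (x.1, ζ)‖ₑ * ‖ζ‖ₑ ^ (-(k : ℝ)) * ‖x.2 - ζ‖ₑ⁻¹) +
        C * ∫⁻ ζ in ball (0 : ℂ) t \ ball 0 s,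
          (‖GG z0 g (x.1, ζ)‖ₑ + ‖u (Phi z0 (x.1, ζ))‖ₑ) * ‖ζ‖ₑ ^ (-(k : ℝ)) *
            ‖x.2 - ζ‖ₑ⁻¹ := by
    intro s t hs hst ht
    exact rep S.wd z0 hΩ mU mG hU hG (by exact_mod_cast hs) (by exact_mod_cast hst) ht
  choose! C hC hrep2 using hrep
  -- slices
  have hsl1 : ∀ᵐ a : Fin N → ℂ, ∀ s t : ℚ, 0 < s → s < t → (t : ℝ) < R → ∀ k : ℕ,
      ∀ᵐ z : ℂ, ‖a‖ < A → ‖z‖ < s →
      ‖u (Phi z0 (a, z))‖ₑ * ‖z‖ₑ ^ (-(k : ℝ)) ≤
        (∫⁻ ζ in ball (0 : ℂ) s, ‖GG z0 g (a, ζ)‖ₑ * ‖ζ‖ₑ ^ (-(k : ℝ)) * ‖z - ζ‖ₑ⁻¹) +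
        C s t * ∫⁻ ζ in ball (0 : ℂ) t \ ball 0 s,
          (‖GG z0 g (a, ζ)‖ₑ + ‖u (Phi z0 (a, ζ))‖ₑ) * ‖ζ‖ₑ ^ (-(k : ℝ)) *
            ‖z - ζ‖ₑ⁻¹ := by
    rw [ae_all_iff]
    intro s
    rw [ae_all_iff]
    intro t
    rw [ae_all_iff]
    intro hs
    rw [ae_all_iff]
    intro hst
    rw [ae_all_iff]
    intro ht
    rw [ae_all_iff]
    intro k
    exact Measure.ae_ae_of_ae_prod (hrep2 s t hs hst ht k)
  have hsl2 : ∀ᵐ a : Fin N → ℂ, ∀ᵐ ζ : ℂ, (a, ζ) ∈ Reg →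
      ‖GG z0 g (a, ζ)‖ₑ ≤ (ENNReal.ofReal A * V (Phi z0 (a, ζ))) * ‖u (Phi z0 (a, ζ))‖ₑ :=
    Measure.ae_ae_of_ae_prod hGb
  -- finiteness on slices
  have slfin : ∀ f : (Fin N → ℂ) × ℂ → ℝ≥0∞, Measurable f → ∫⁻ x in Reg, f x < ⊤ →
      ∀ᵐ a : Fin N → ℂ, ‖a‖ < A → ∫⁻ ζ in ball (0 : ℂ) R, f (a, ζ) < ⊤ := by
    intro f mf hfin
    rw [hReg, Measure.volume_eq_prod, ← Measure.prod_restrict, lintegral_prod _ mf.aemeasurable]
      at hfin
    have h1 := ae_lt_top (mf.lintegral_prod_right') hfin.ne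
    have h2 := (ae_restrict_iff' measurableSet_ball).mp h1
    filter_upwards [h2] with a ha haA
    exact ha (by rwa [mem_ball_zero_iff])
  have hW : ∫⁻ x in Reg, (ENNReal.ofReal A * V (Phi z0 x)) ^ (pe N) *
      ‖x.2‖ₑ ^ (pe N - 2) < ⊤ := by
    have hp0 : 0 < pe N := by have := pe_ge N; linarith
    calc ∫⁻ x in Reg, (ENNReal.ofReal A * V (Phi z0 x)) ^ (pe N) * ‖x.2‖ₑ ^ (pe N - 2)
        = ∫⁻ x in Reg, ENNReal.ofReal A ^ (pe N) * (V (Phi z0 x) ^ (pe N) *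
            ENNReal.ofReal (‖x.2‖ ^ (2 * N))) := by
          apply lintegral_congr_ae
          filter_upwards [ae_restrict_of_ae ae_ne2] with x hx2
          rw [ENNReal.mul_rpow_of_nonneg _ _ hp0.le]
          have e1 : ENNReal.ofReal (‖x.2‖ ^ (2 * N)) = ‖x.2‖ₑ ^ ((2 * N : ℕ) : ℝ) := by
            rw [enorm_rpow_eq hx2, Real.rpow_natCast]
          have e2 : pe N - 2 = ((2 * N : ℕ) : ℝ) := by
            unfold pe
            push_cast
            ring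
          rw [e1, e2]
          ring
      _ = ENNReal.ofReal A ^ (pe N) * ∫⁻ x in Reg, V (Phi z0 x) ^ (pe N) *
            ENNReal.ofReal (‖x.2‖ ^ (2 * N)) := by
          rw [lintegral_const_mul _ (by fun_prop)]
      _ < ⊤ := by
          apply ENNReal.mul_lt_top
          · rw [ENNReal.ofReal_rpow_of_pos hA0]
            exact ENNReal.ofReal_lt_top
          · exact lt_of_le_of_lt (cone_le z0 (f := fun z => V z ^ pe N) (by fun_prop) mReg mK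
              hRegK) (S.fV K hρ hK)
  have munx : Measurable (fun x => ‖u (Phi z0 x)‖ₑ) := mU.enorm
  have hslW := slfin _ (by fun_prop) hW
  have hslv := slfin _ (by fun_prop) (J1 0 le_rfl)
  have hslWv : ∀ᵐ a : Fin N → ℂ, ∀ M : ℕ, ‖a‖ < A → ∫⁻ ζ in ball (0 : ℂ) R,
      (V (Phi z0 (a, ζ)) * ‖u (Phi z0 (a, ζ))‖ₑ) * ‖ζ‖ₑ ^ (-(M : ℝ)) < ⊤ := by
    rw [ae_all_iff]
    intro M
    exact slfin (fun x => (V (Phi z0 x) * ‖u (Phi z0 x)‖ₑ) * ‖x.2‖ₑ ^ (-(M : ℝ)))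
      (by fun_prop) (J2 M (Nat.cast_nonneg M))
  -- conclusion on slices
  have hconc : ∀ᵐ a : Fin N → ℂ, ∀ᵐ ζ : ℂ, ‖a‖ < A → ‖ζ‖ < R → u (Phi z0 (a, ζ)) = 0 := by
    filter_upwards [hsl1, hsl2, hslW, hslv, hslWv] with a h1 h2 h3 h4 h5
    by_cases haA : ‖a‖ < A
    swap
    · filter_upwards with ζ h
      exact absurd h haA
    have mPa : Measurable (fun ζ : ℂ => Phi z0 (a, ζ)) := mPhi.comp (by fun_prop)
    have hone : OneD (N + 1) R (fun ζ => ‖u (Phi z0 (a, ζ))‖ₑ)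
        (fun ζ => ENNReal.ofReal A * V (Phi z0 (a, ζ))) := by
      refine ⟨?_, ?_, ?_, ?_, ?_, ?_⟩
      · exact mun.comp mPa
      · exact (mV.comp mPa).const_mul _
      · exact h3 haA
      · have := h4 haA
        simpa using this
      · intro M hM
        obtain ⟨M', hM'⟩ := exists_nat_ge M
        have h6 := h5 M' haA
        have mw : Measurable (fun ζ : ℂ => V (Phi z0 (a, ζ)) * ‖u (Phi z0 (a, ζ))‖ₑ) :=
          (mV.comp mPa).mul (mun.comp mPa)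
        calc ∫⁻ ζ in ball (0 : ℂ) R, ENNReal.ofReal A * V (Phi z0 (a, ζ)) *
              ‖u (Phi z0 (a, ζ))‖ₑ * ‖ζ‖ₑ ^ (-M) ≤
            ∫⁻ ζ in ball (0 : ℂ) R, ENNReal.ofReal A * (ENNReal.ofReal R ^ ((M' : ℝ) - M) *
              ((V (Phi z0 (a, ζ)) * ‖u (Phi z0 (a, ζ))‖ₑ) * ‖ζ‖ₑ ^ (-(M' : ℝ)))) := by
              apply lintegral_mono_ae
              filter_upwards [ae_restrict_mem measurableSet_ball, ae_restrict_of_ae (ae_ne 0)]
                with ζ hζ hζ0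
              rw [mem_ball_zero_iff] at hζ
              have e1 : ‖ζ‖ₑ ^ (-M) = ‖ζ‖ₑ ^ ((M' : ℝ) - M) * ‖ζ‖ₑ ^ (-(M' : ℝ)) := by
                rw [← ENNReal.rpow_add _ _ (by simpa using hζ0) enorm_ne_top]
                congr 1
                ring
              have e2 : ‖ζ‖ₑ ^ ((M' : ℝ) - M) ≤ ENNReal.ofReal R ^ ((M' : ℝ) - M) := by
                apply ENNReal.rpow_le_rpow _ (by linarith)
                rw [← ofReal_norm]
                exact ENNReal.ofReal_le_ofReal hζ.le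
              rw [e1]
              calc ENNReal.ofReal A * V (Phi z0 (a, ζ)) * ‖u (Phi z0 (a, ζ))‖ₑ *
                  (‖ζ‖ₑ ^ ((M' : ℝ) - M) * ‖ζ‖ₑ ^ (-(M' : ℝ))) ≤
                  ENNReal.ofReal A * V (Phi z0 (a, ζ)) * ‖u (Phi z0 (a, ζ))‖ₑ *
                  (ENNReal.ofReal R ^ ((M' : ℝ) - M) * ‖ζ‖ₑ ^ (-(M' : ℝ))) :=
                    mul_le_mul_right (mul_le_mul_left e2 _) _
                _ = _ := by ring
          _ = ENNReal.ofReal A * (ENNReal.ofReal R ^ ((M' : ℝ) - M) *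
              ∫⁻ ζ in ball (0 : ℂ) R, ((V (Phi z0 (a, ζ)) * ‖u (Phi z0 (a, ζ))‖ₑ) *
                ‖ζ‖ₑ ^ (-(M' : ℝ)))) := by
              rw [lintegral_const_mul, lintegral_const_mul]
              · exact mw.mul (by fun_prop)
              · exact (mw.mul (by fun_prop)).const_mul _
          _ < ⊤ := by
              apply ENNReal.mul_lt_top ENNReal.ofReal_lt_top
              apply ENNReal.mul_lt_top _ h6
              rw [ENNReal.ofReal_rpow_of_pos hR0]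
              exact ENNReal.ofReal_lt_top
      · intro s t hs hst ht
        refine ⟨C s t, hC s t hs hst ht, ?_⟩
        intro k
        filter_upwards [h1 s t hs hst ht k] with z hz hzs
        refine (hz haA hzs).trans ?_
        have hsR : (s : ℝ) < R := lt_trans (by exact_mod_cast hst) ht
        apply add_le_add
        · apply lintegral_mono_ae
          filter_upwards [ae_restrict_mem measurableSet_ball, ae_restrict_of_ae h2] with ζ hζ h7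
          rw [mem_ball_zero_iff] at hζ
          apply mul_le_mul_left
          apply mul_le_mul_left
          exact h7 ((memReg _).mpr ⟨haA, hζ.trans hsR⟩)
        · apply mul_le_mul_right
          apply lintegral_mono_ae
          filter_upwards [ae_restrict_mem (measurableSet_ball.diff measurableSet_ball),
            ae_restrict_of_ae h2] with ζ hζ h7
          have hζ1 := hζ.1
          rw [mem_ball_zero_iff] at hζ1
          apply mul_le_mul_left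
          apply mul_le_mul_left
          apply add_le_add _ le_rfl
          exact h7 ((memReg _).mpr ⟨haA, hζ1.trans ht⟩)
    have := oneD (by omega) hone
    unfold Pz at this
    filter_upwards [this] with ζ hζ _ hζR
    have h8 := hζ hζR
    rwa [enorm_eq_zero] at h8
  have mset : MeasurableSet {x : (Fin N → ℂ) × ℂ | ‖x.1‖ < A → ‖x.2‖ < R →
      u (Phi z0 x) = 0} := by
    have h1 : {x : (Fin N → ℂ) × ℂ | ‖x.1‖ < A → ‖x.2‖ < R → u (Phi z0 x) = 0} =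
        Regᶜ ∪ {x | ‖u (Phi z0 x)‖ₑ = 0} := by
      ext x
      simp only [mem_ofPred_eq, mem_union, mem_compl_iff, memReg, enorm_eq_zero]
      tauto
    rw [h1]
    exact mReg.compl.union (munx (measurableSet_singleton 0))
  rw [Measure.volume_eq_prod]
  exact (Measure.ae_prod_iff_ae_ae mset).mpr hconc

end Q71.UC
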