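import Pool.Agent.Q71.UC.Push

open MeasureTheory Set Filter Topology Metric Complex
open scoped ContDiff ComplexConjugate

namespace Q71.UC

lemma dbar1_continuous {f : ℂ → ℂ} (hf : ContDiff ℝ ∞ f) : Continuous (dbar1 f) := by
  have h : Continuous (fderiv ℝ f) := hf.continuous_fderiv (by simp)
  unfold dbar1
  have h4 : Continuous fun z => fderiv ℝ f z 1 := h.clm_apply continuous_const
  have h5 : Continuous fun z => fderiv ℝ f z I := h.clm_apply continuous_const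
  fun_prop

lemma exists_chi {s t : ℝ} (hs : 0 < s) (hst : s < t) : ∃ χ : ℂ → ℂ, ContDiff ℝ ∞ χ ∧
    (∀ ζ, ‖χ ζ‖ ≤ 1) ∧ (∀ ζ, ‖ζ‖ ≤ s → χ ζ = 1) ∧ (∀ ζ, t ≤ ‖ζ‖ → χ ζ = 0) := by
  let b : ContDiffBump (0 : ℂ) := ⟨s, t, hs, hst⟩
  refine ⟨fun w => ((b w : ℝ) : ℂ), ?_, ?_, ?_, ?_⟩
  · have : ContDiff ℝ ∞ (fun w : ℂ => b w) := b.contDiff
    exact Complex.ofRealCLM.contDiff.comp this
  · intro ζ
    rw [Complex.norm_real, Real.norm_of_nonneg b.nonneg]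
    exact b.le_one
  · intro w hw
    have : b w = 1 := b.one_of_mem_closedBall (by simpa [b] using hw)
    simp [this]
  · intro w hw
    have : b w = 0 := b.zero_of_le_dist (by simpa [b] using hw)
    simp [this]

lemma dbar1_norm_le (f : ℂ → ℂ) (z : ℂ) : ‖dbar1 f z‖ ≤ ‖fderiv ℝ f z‖ := by
  unfold dbar1
  have h1 : ‖fderiv ℝ f z 1‖ ≤ ‖fderiv ℝ f z‖ := by
    simpa using (fderiv ℝ f z).le_opNorm 1
  have h2 : ‖fderiv ℝ f z I‖ ≤ ‖fderiv ℝ f z‖ := by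
    simpa using (fderiv ℝ f z).le_opNorm I
  calc ‖(1 / 2 : ℂ) * (fderiv ℝ f z 1 + I * fderiv ℝ f z I)‖
      ≤ (1 / 2) * (‖fderiv ℝ f z 1‖ + ‖fderiv ℝ f z I‖) := by
        rw [norm_mul]
        have : ‖(1 / 2 : ℂ)‖ = 1 / 2 := by simp
        rw [this]
        apply mul_le_mul_of_nonneg_left _ (by norm_num)
        refine (norm_add_le _ _).trans ?_
        rw [norm_mul, norm_I, one_mul]
    _ ≤ _ := by linarith

lemma exists_eta : ∃ (η : ℕ → ℂ → ℂ) (C : ℝ), 0 ≤ C ∧ (∀ j, ContDiff ℝ ∞ (η j)) ∧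
    (∀ j ζ, ‖η j ζ‖ ≤ 2) ∧ (∀ j, ∀ᶠ ζ in 𝓝 0, η j ζ = 0) ∧
    (∀ ζ, ζ ≠ 0 → ∀ᶠ j in atTop, η j =ᶠ[𝓝 ζ] fun _ => 1) ∧
    (∀ j ζ, ζ ≠ 0 → ‖dbar1 (η j) ζ‖ ≤ C * ‖ζ‖⁻¹) := by
  obtain ⟨f, hf, hf1, hfs, hft⟩ := exists_chi (s := 1) (t := 2) one_pos one_lt_two
  have hfc : HasCompactSupport f := by
    refine HasCompactSupport.intro (isCompact_closedBall (0 : ℂ) 2) ?_
    intro ζ hζ
    rw [mem_closedBall_zero_iff, not_le] at hζ
    exact hft ζ hζ.le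
  have hfd : Continuous (fderiv ℝ f) := hf.continuous_fderiv (by simp)
  obtain ⟨C, hC⟩ := (hfc.fderiv ℝ).exists_bound_of_continuous hfd
  have hC0 : 0 ≤ C := (norm_nonneg _).trans (hC 0)
  have hcast : ∀ j : ℕ, (0 : ℝ) < (j : ℝ) + 1 := fun j => by positivity
  refine ⟨fun j ζ => 1 - f (((j : ℝ) + 1) • ζ), 2 * C, by positivity, ?_, ?_, ?_, ?_, ?_⟩
  · intro j
    exact contDiff_const.sub (hf.comp (by fun_prop))
  · intro j ζ
    refine (norm_sub_le _ _).trans ?_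
    have := hf1 (((j : ℝ) + 1) • ζ)
    rw [norm_one]
    linarith
  · intro j
    have h1 : ball (0 : ℂ) (1 / ((j : ℝ) + 1)) ∈ 𝓝 (0 : ℂ) := ball_mem_nhds _ (by positivity)
    filter_upwards [h1] with ζ hζ
    rw [mem_ball_zero_iff, lt_div_iff₀ (hcast j)] at hζ
    rw [hfs, sub_self]
    rw [norm_smul, Real.norm_of_nonneg (hcast j).le, mul_comm]
    exact hζ.le
  · intro ζ hζ
    have hn : 0 < ‖ζ‖ := norm_pos_iff.mpr hζ
    obtain ⟨j0, hj0⟩ := exists_nat_gt (2 / (‖ζ‖ / 2))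
    filter_upwards [eventually_ge_atTop j0] with j hj
    have h1 : ball ζ (‖ζ‖ / 2) ∈ 𝓝 ζ := ball_mem_nhds _ (by positivity)
    filter_upwards [h1] with w hw
    rw [mem_ball_iff_norm] at hw
    have h2 : ‖ζ‖ / 2 ≤ ‖w‖ := by
      have := norm_sub_norm_le ζ w
      rw [norm_sub_rev] at this
      linarith
    have h3 : 2 / (‖ζ‖ / 2) < (j : ℝ) + 1 := by
      have : (j0 : ℝ) ≤ j := by exact_mod_cast hj
      linarith
    rw [div_lt_iff₀ (by positivity)] at h3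
    rw [hft, sub_zero]
    rw [norm_smul, Real.norm_of_nonneg (hcast j).le]
    have h4 := mul_le_mul_of_nonneg_left h2 (hcast j).le
    linarith
  · intro j ζ hζ
    have hn : 0 < ‖ζ‖ := norm_pos_iff.mpr hζ
    have hd1 : HasFDerivAt f (fderiv ℝ f (((j : ℝ) + 1) • ζ)) (((j : ℝ) + 1) • ζ) :=
      (hf.differentiable (by simp) _).hasFDerivAt
    have hd2 : HasFDerivAt (fun w : ℂ => ((j : ℝ) + 1) • w)
        (((j : ℝ) + 1) • ContinuousLinearMap.id ℝ ℂ) ζ :=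
      (hasFDerivAt_id ζ).fun_const_smul ((j : ℝ) + 1)
    have hd3 := (hd1.comp ζ hd2).const_sub 1
    have hd4 : fderiv ℝ (fun ζ => 1 - f (((j : ℝ) + 1) • ζ)) ζ =
      -((fderiv ℝ f (((j : ℝ) + 1) • ζ)).comp (((j : ℝ) + 1) • ContinuousLinearMap.id ℝ ℂ)) :=
      hd3.fderiv
    refine (dbar1_norm_le _ _).trans ?_
    rw [hd4, norm_neg, ContinuousLinearMap.comp_smul, ContinuousLinearMap.comp_id, norm_smul,
      Real.norm_of_nonneg (hcast j).le]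
    by_cases hcase : 2 < ((j : ℝ) + 1) * ‖ζ‖
    · have hz : fderiv ℝ f (((j : ℝ) + 1) • ζ) = 0 := by
        have h5 : f =ᶠ[𝓝 (((j : ℝ) + 1) • ζ)] fun _ => 0 := by
          have h6 : ∀ᶠ w : ℂ in 𝓝 (((j : ℝ) + 1) • ζ), 2 < ‖w‖ := by
            apply (continuous_norm.tendsto _).eventually_const_lt
            rw [norm_smul, Real.norm_of_nonneg (hcast j).le]
            exact hcase
          filter_upwards [h6] with w hw using hft w hw.le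
        rw [h5.fderiv_eq]
        simp
      rw [hz, norm_zero, mul_zero]
      positivity
    · rw [not_lt] at hcase
      have h7 : ((j : ℝ) + 1) ≤ 2 * ‖ζ‖⁻¹ := by
        rw [← div_eq_mul_inv, le_div_iff₀ hn]
        exact hcase
      calc ((j : ℝ) + 1) * ‖fderiv ℝ f (((j : ℝ) + 1) • ζ)‖ ≤ (2 * ‖ζ‖⁻¹) * C :=
            mul_le_mul h7 (hC _) (norm_nonneg _) (by positivity)
        _ = 2 * C * ‖ζ‖⁻¹ := by ring

variable {N : ℕ} {F : Type*} [NormedAddCommGroup F] [NormedSpace ℂ F]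

lemma CP_ne_zero {θ : (Fin N → ℂ) × ℂ → ℂ} {x : (Fin N → ℂ) × ℂ} (h : CP θ x ≠ 0) :
    x.1 ∈ Prod.fst '' tsupport θ := by
  by_contra hcon
  apply h
  unfold CP
  have : ∀ t : ℂ, t⁻¹ * θ (x.1, x.2 - t) = 0 := by
    intro t
    have h1 : θ (x.1, x.2 - t) = 0 := by
      apply image_eq_zero_of_notMem_tsupport
      intro hmem
      exact hcon ⟨_, hmem, rfl⟩
    rw [h1, mul_zero]
  simp [this]

lemma smooth_b {c : ℂ → ℂ} (hc : ContDiff ℝ ∞ c) (c0 : ∀ᶠ ζ in 𝓝 0, c ζ = 0) (k : ℕ) :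
    ContDiff ℝ ∞ (fun ζ : ℂ => (ζ⁻¹) ^ k * c ζ) ∧
    ∀ ζ, dbar1 (fun ζ : ℂ => (ζ⁻¹) ^ k * c ζ) ζ = (ζ⁻¹) ^ k * dbar1 c ζ := by
  have hev : (fun ζ : ℂ => (ζ⁻¹) ^ k * c ζ) =ᶠ[𝓝 0] fun _ => 0 := by
    filter_upwards [c0] with ζ hζ
    rw [hζ, mul_zero]
  constructor
  · rw [contDiff_iff_contDiffAt]
    intro ζ
    by_cases hζ : ζ = 0
    · rw [hζ]
      exact contDiffAt_const.congr_of_eventuallyEq hev
    · have h1 : ContDiffAt ℝ ∞ (fun ζ : ℂ => ζ⁻¹) ζ := contDiffAt_id.inv hζ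
      exact (h1.pow k).mul hc.contDiffAt
  · intro ζ
    by_cases hζ : ζ = 0
    · rw [hζ, dbar1_congr hev, dbar1_congr (show c =ᶠ[𝓝 0] fun _ => 0 from c0)]
      unfold dbar1
      simp
    · have d2 : DifferentiableAt ℂ (fun ζ : ℂ => (ζ⁻¹) ^ k) ζ :=
        (differentiableAt_inv hζ).pow k
      have d3 : DifferentiableAt ℝ (fun ζ : ℂ => (ζ⁻¹) ^ k) ζ := d2.restrictScalars ℝ
      rw [dbar1_mul d3 (hc.differentiable (by simp) ζ), dbar1_holo d2]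
      ring

lemma dbar1_zero_of_large {c : ℂ → ℂ} {t : ℝ} (ct : ∀ ζ, t ≤ ‖ζ‖ → c ζ = 0) {ζ : ℂ}
    (h : t < ‖ζ‖) : dbar1 c ζ = 0 := by
  have h1 : c =ᶠ[𝓝 ζ] fun _ => 0 := by
    have h6 : ∀ᶠ w : ℂ in 𝓝 ζ, t < ‖w‖ := (continuous_norm.tendsto _).eventually_const_lt h
    filter_upwards [h6] with w hw using ct w hw.le
  rw [dbar1_congr h1]
  unfold dbar1
  simp

/-- the vector function `G` -/
noncomputable def GG (z0 : Fin (N + 1) → ℂ) (g : Fin (N + 1) → (Fin (N + 1) → ℂ) → F)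
    (x : (Fin N → ℂ) × ℂ) : F :=
  ∑ j, conj ((Fin.cons 1 x.1 : Fin (N + 1) → ℂ) j) • g j (Phi z0 x)

lemma ae_ne2 : ∀ᵐ x : (Fin N → ℂ) × ℂ, x.2 ≠ 0 := by
  have h2 : ∀ᵐ ζ : ℂ, ζ ≠ 0 := ae_ne 0
  exact (Measure.quasiMeasurePreserving_snd (μ := (volume : Measure (Fin N → ℂ)))
    (ν := (volume : Measure ℂ))).ae h2

/-- Identity with a cutoff vanishing near the origin. -/
lemma B1 {Ω : Set (Fin (N + 1) → ℂ)} {u : (Fin (N + 1) → ℂ) → F}
    {g : Fin (N + 1) → (Fin (N + 1) → ℂ) → F} (hd : WeakData Ω u g) (z0 : Fin (N + 1) → ℂ)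
    {A R : ℝ} (hΩ : ∀ x : (Fin N → ℂ) × ℂ, ‖x.1‖ < A → ‖x.2‖ < R → Phi z0 x ∈ Ω)
    (hU : IntegrableOn (fun x => u (Phi z0 x)) (ball (0 : Fin N → ℂ) A ×ˢ ball (0 : ℂ) R))
    (hG : IntegrableOn (GG z0 g) (ball (0 : Fin N → ℂ) A ×ˢ ball (0 : ℂ) R))
    {θ : (Fin N → ℂ) × ℂ → ℂ} (hθ : ContDiff ℝ ∞ θ) (hθc : HasCompactSupport θ)
    (hθs : ∀ x ∈ tsupport θ, ‖x.1‖ < A)
    {c : ℂ → ℂ} (hc : ContDiff ℝ ∞ c) (c0 : ∀ᶠ ζ in 𝓝 0, c ζ = 0) {t : ℝ} (ht : t < R)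
    (ct : ∀ ζ, t ≤ ‖ζ‖ → c ζ = 0) (k : ℕ) :
    ∫ x : (Fin N → ℂ) × ℂ, ((x.2⁻¹) ^ k * c x.2 * θ x) • u (Phi z0 x) =
      - ∫ x : (Fin N → ℂ) × ℂ, ((x.2⁻¹) ^ k * CP θ x) •
        (dbar1 c x.2 • u (Phi z0 x) + c x.2 • GG z0 g x) := by
  obtain ⟨hb, hb2⟩ := smooth_b hc c0 k
  set b : ℂ → ℂ := fun ζ => (ζ⁻¹) ^ k * c ζ with hbdef
  have hP := CP_contDiff hθ hθc
  set ψ : (Fin N → ℂ) × ℂ → ℂ := fun x => b x.2 * CP θ x with hψdef
  have hψ : ContDiff ℝ ∞ ψ := (hb.comp contDiff_snd).mul hP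
  set K : Set ((Fin N → ℂ) × ℂ) := (Prod.fst '' tsupport θ) ×ˢ closedBall (0 : ℂ) t with hKdef
  have hK : IsCompact K := (hθc.isCompact.image continuous_fst).prod (isCompact_closedBall _ _)
  have hψ0 : ∀ x, x ∉ K → ψ x = 0 := by
    intro x hx
    by_contra hcon
    apply hx
    refine ⟨CP_ne_zero (right_ne_zero_of_mul hcon), ?_⟩
    have h1 : c x.2 ≠ 0 := right_ne_zero_of_mul (left_ne_zero_of_mul hcon)
    rw [mem_closedBall_zero_iff]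
    by_contra h2
    exact h1 (ct _ (not_le.mp h2).le)
  have hψc : HasCompactSupport ψ := HasCompactSupport.intro hK hψ0
  obtain ⟨δ, hδ, hδ2⟩ := Metric.eventually_nhds_iff.mp c0
  have hts : tsupport ψ ⊆ K ∩ {x | δ ≤ ‖x.2‖} := by
    apply closure_minimal
    · intro x hx
      refine ⟨?_, ?_⟩
      · by_contra hcon
        exact hx (hψ0 x hcon)
      · by_contra hcon
        have h1 : ‖x.2‖ < δ := not_le.mp hcon
        apply hx
        simp only [hψdef, hbdef]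
        rw [hδ2 (by rwa [dist_zero_right])]
        ring
    · exact hK.isClosed.inter (isClosed_le continuous_const (by fun_prop))
  have h0 : ∀ x ∈ tsupport ψ, x.2 ≠ 0 := by
    intro x hx h1
    have h2 : δ ≤ ‖x.2‖ := (hts hx).2
    rw [h1, norm_zero] at h2
    linarith
  have hKA : ∀ x ∈ K, ‖x.1‖ < A ∧ ‖x.2‖ < R := by
    rintro x ⟨⟨y, hy, hy2⟩, h3⟩
    rw [mem_closedBall_zero_iff] at h3
    refine ⟨?_, by linarith⟩
    rw [← hy2]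
    exact hθs y hy
  have hKReg : K ⊆ ball (0 : Fin N → ℂ) A ×ˢ ball (0 : ℂ) R := by
    intro x hx
    rw [mem_prod, mem_ball_zero_iff, mem_ball_zero_iff]
    exact hKA x hx
  have hpush := push hd z0 hψ hψc h0 (fun x hx => hΩ x (hKA x (hts hx).1).1 (hKA x (hts hx).1).2)
  have hdψ : ∀ x : (Fin N → ℂ) × ℂ, dbar1 (fun ζ => ψ (x.1, ζ)) x.2 =
      dbar1 b x.2 * CP θ x + b x.2 * θ x := by
    intro x
    have h1 := dbar1_mul (f := b) (g := fun ζ => CP θ (x.1, ζ)) (z := x.2)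
      (hb.differentiable (by simp) _) ((slice_contDiff hP x.1).differentiable (by simp) _)
    simp only [hψdef]
    rw [h1, CP_dbar hθ hθc]
  have c1 : ∀ x : (Fin N → ℂ) × ℂ, x ∉ K → dbar1 b x.2 * CP θ x = 0 := by
    intro x hx
    by_contra hcon
    apply hx
    refine ⟨CP_ne_zero (right_ne_zero_of_mul hcon), ?_⟩
    have h1 := left_ne_zero_of_mul hcon
    rw [hb2] at h1
    rw [mem_closedBall_zero_iff]
    by_contra h2
    exact right_ne_zero_of_mul h1 (dbar1_zero_of_large ct (not_le.mp h2))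
  have c2 : ∀ x : (Fin N → ℂ) × ℂ, x ∉ K → b x.2 * θ x = 0 := by
    intro x hx
    by_contra hcon
    apply hx
    refine ⟨⟨x, subset_tsupport _ (right_ne_zero_of_mul hcon), rfl⟩, ?_⟩
    have h1 : c x.2 ≠ 0 := right_ne_zero_of_mul (left_ne_zero_of_mul hcon)
    rw [mem_closedBall_zero_iff]
    by_contra h2
    exact h1 (ct _ (not_le.mp h2).le)
  have hb'c : Continuous (dbar1 b) := dbar1_continuous hb
  have I1 : Integrable (fun x : (Fin N → ℂ) × ℂ => (dbar1 b x.2 * CP θ x) • u (Phi z0 x)) :=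
    integrable_test (Ω := ball (0 : Fin N → ℂ) A ×ˢ ball (0 : ℂ) R)
      (fun K' hK' _ => hU.mono_set hK') ((hb'c.comp continuous_snd).mul hP.continuous)
      hK hKReg c1
  have I2 : Integrable (fun x : (Fin N → ℂ) × ℂ => (b x.2 * θ x) • u (Phi z0 x)) :=
    integrable_test (Ω := ball (0 : Fin N → ℂ) A ×ˢ ball (0 : ℂ) R)
      (fun K' hK' _ => hU.mono_set hK') ((hb.continuous.comp continuous_snd).mul hθ.continuous)
      hK hKReg c2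
  have I3 : Integrable (fun x : (Fin N → ℂ) × ℂ => ψ x • GG z0 g x) :=
    integrable_test (Ω := ball (0 : Fin N → ℂ) A ×ˢ ball (0 : ℂ) R)
      (fun K' hK' _ => hG.mono_set hK') hψ.continuous hK hKReg hψ0
  have e1 : ∫ x : (Fin N → ℂ) × ℂ, dbar1 (fun ζ => ψ (x.1, ζ)) x.2 • u (Phi z0 x) =
      (∫ x : (Fin N → ℂ) × ℂ, (dbar1 b x.2 * CP θ x) • u (Phi z0 x)) +
      ∫ x : (Fin N → ℂ) × ℂ, (b x.2 * θ x) • u (Phi z0 x) := by
    rw [← integral_add I1 I2]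
    apply integral_congr_ae
    filter_upwards with x
    rw [hdψ, add_smul]
  have e2 : ∫ x : (Fin N → ℂ) × ℂ, ((x.2⁻¹) ^ k * CP θ x) •
        (dbar1 c x.2 • u (Phi z0 x) + c x.2 • GG z0 g x) =
      (∫ x : (Fin N → ℂ) × ℂ, (dbar1 b x.2 * CP θ x) • u (Phi z0 x)) +
      ∫ x : (Fin N → ℂ) × ℂ, ψ x • GG z0 g x := by
    rw [← integral_add I1 I3]
    apply integral_congr_ae
    filter_upwards with x
    rw [hb2, smul_add, smul_smul, smul_smul]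
    congr 2
    · ring
    · simp only [hψdef, hbdef]
      ring
  have e3 : ∫ x : (Fin N → ℂ) × ℂ, ((x.2⁻¹) ^ k * c x.2 * θ x) • u (Phi z0 x) =
      ∫ x : (Fin N → ℂ) × ℂ, (b x.2 * θ x) • u (Phi z0 x) := rfl
  rw [e1] at hpush
  rw [e2, e3, neg_add]
  have hpush' : (∫ x : (Fin N → ℂ) × ℂ, (dbar1 b x.2 * CP θ x) • u (Phi z0 x)) +
      ∫ x : (Fin N → ℂ) × ℂ, (b x.2 * θ x) • u (Phi z0 x) =
      - ∫ x : (Fin N → ℂ) × ℂ, ψ x • GG z0 g x := hpush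
  rw [← hpush']
  abel

end Q71.UC
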