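import Pool.Agent.Q71.UC.Lim

open MeasureTheory Set Filter Topology Metric Complex
open scoped ContDiff ComplexConjugate ENNReal

namespace Q71.UC

variable {N : ℕ} {F : Type*} [NormedAddCommGroup F] [NormedSpace ℂ F] [CompleteSpace F]

/-- a constant -/
noncomputable def kc : ℝ≥0∞ := ∫⁻ w in ball (0 : ℂ) 1, ‖w‖ₑ ^ (-(1 : ℝ))

lemma kc_lt : kc < ⊤ := near (by norm_num) 1

lemma K1 (S : Set ℂ) (ζ : ℂ) : ∫⁻ z in S, ‖ζ - z‖ₑ⁻¹ ≤ kc + volume S := by
  set f : ℂ → ℝ≥0∞ := (ball (0 : ℂ) 1).indicator (fun w => ‖w‖ₑ ^ (-(1 : ℝ))) with hf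
  have mf : Measurable f := Measurable.indicator (by fun_prop) measurableSet_ball
  have h1 : ∀ z, ‖ζ - z‖ₑ⁻¹ ≤ f (ζ - z) + 1 := by
    intro z
    by_cases hz : ζ - z ∈ ball (0 : ℂ) 1
    · rw [hf, indicator_of_mem hz, ENNReal.rpow_neg_one]
      exact le_self_add
    · rw [hf, indicator_of_notMem hz, zero_add]
      rw [mem_ball_zero_iff, not_lt] at hz
      rw [ENNReal.inv_le_one, ← ofReal_norm, ← ENNReal.ofReal_one]
      exact ENNReal.ofReal_le_ofReal hz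
  calc ∫⁻ z in S, ‖ζ - z‖ₑ⁻¹ ≤ ∫⁻ z in S, (f (ζ - z) + 1) := lintegral_mono h1
    _ = (∫⁻ z in S, f (ζ - z)) + volume S := by
        rw [lintegral_add_left (by fun_prop)]
        simp
    _ ≤ (∫⁻ z, f (ζ - z)) + volume S := by
        gcongr
        exact Measure.restrict_le_self
    _ = kc + volume S := by
        rw [lintegral_sub_left_eq_self f ζ, hf, lintegral_indicator measurableSet_ball]
        rfl

/-- the Cauchy transform of `h` in the last variable -/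
noncomputable def TT (h : (Fin N → ℂ) × ℂ → F) (x : (Fin N → ℂ) × ℂ) : F :=
  (Real.pi : ℂ)⁻¹ • ∫ ζ : ℂ, (x.2 - ζ)⁻¹ • h (x.1, ζ)

lemma mTT {h : (Fin N → ℂ) × ℂ → F} (mh : StronglyMeasurable h) : StronglyMeasurable (TT h) := by
  have m1 : StronglyMeasurable (fun p : ((Fin N → ℂ) × ℂ) × ℂ =>
      (p.1.2 - p.2)⁻¹ • h (p.1.1, p.2)) := by
    refine StronglyMeasurable.smul ?_ ?_
    · exact Measurable.stronglyMeasurable (by fun_prop)
    · exact mh.comp_measurable (by fun_prop)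
  exact (StronglyMeasurable.integral_prod_right (ν := (volume : Measure ℂ)) m1).const_smul _

lemma intTT {h : (Fin N → ℂ) × ℂ → F} (mh : StronglyMeasurable h) (hh : Integrable h)
    {S : Set ℂ} (mS : MeasurableSet S) (hS : volume S < ⊤) :
    IntegrableOn (TT h) (univ ×ˢ S) := by
  refine ⟨(mTT mh).aestronglyMeasurable, ?_⟩
  rw [hasFiniteIntegral_iff_enorm]
  have m0 : Measurable (fun x => ‖h x‖ₑ) := mh.enorm
  have h1 : ∀ x : (Fin N → ℂ) × ℂ, ‖TT h x‖ₑ ≤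
      ∫⁻ ζ : ℂ, ‖x.2 - ζ‖ₑ⁻¹ * ‖h (x.1, ζ)‖ₑ := by
    intro x
    unfold TT
    rw [enorm_smul]
    have e1 : ‖(Real.pi : ℂ)⁻¹‖ₑ ≤ 1 := by
      rw [← ofReal_norm, norm_inv, Complex.norm_real, Real.norm_of_nonneg Real.pi_pos.le,
        ← ENNReal.ofReal_one]
      apply ENNReal.ofReal_le_ofReal
      rw [inv_le_one₀ Real.pi_pos]
      have := Real.pi_gt_three
      linarith
    calc ‖(Real.pi : ℂ)⁻¹‖ₑ * ‖∫ ζ : ℂ, (x.2 - ζ)⁻¹ • h (x.1, ζ)‖ₑ
        ≤ 1 * ∫⁻ ζ : ℂ, ‖(x.2 - ζ)⁻¹ • h (x.1, ζ)‖ₑ :=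
          mul_le_mul' e1 (enorm_integral_le_lintegral_enorm _)
      _ ≤ ∫⁻ ζ : ℂ, ‖x.2 - ζ‖ₑ⁻¹ * ‖h (x.1, ζ)‖ₑ := by
          rw [one_mul]
          apply lintegral_mono_ae
          filter_upwards [ae_ne x.2] with ζ hζ
          rw [enorm_smul, enorm_inv (sub_ne_zero.mpr (Ne.symm hζ))]
  calc ∫⁻ x in univ ×ˢ S, ‖TT h x‖ₑ ≤
      ∫⁻ x : (Fin N → ℂ) × ℂ in univ ×ˢ S, ∫⁻ ζ : ℂ, ‖x.2 - ζ‖ₑ⁻¹ * ‖h (x.1, ζ)‖ₑ :=
        lintegral_mono h1
    _ = ∫⁻ a : Fin N → ℂ, ∫⁻ z in S, ∫⁻ ζ : ℂ, ‖z - ζ‖ₑ⁻¹ * ‖h (a, ζ)‖ₑ := by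
        have m1 : Measurable (fun x : (Fin N → ℂ) × ℂ =>
            ∫⁻ ζ : ℂ, ‖x.2 - ζ‖ₑ⁻¹ * ‖h (x.1, ζ)‖ₑ) := by
          apply Measurable.lintegral_prod_right' (f := fun p : ((Fin N → ℂ) × ℂ) × ℂ =>
            ‖p.1.2 - p.2‖ₑ⁻¹ * ‖h (p.1.1, p.2)‖ₑ)
          have m2 : Measurable (fun p : ((Fin N → ℂ) × ℂ) × ℂ => ‖h (p.1.1, p.2)‖ₑ) :=
            m0.comp (by fun_prop)
          fun_prop
        rw [Measure.volume_eq_prod, ← Measure.prod_restrict, lintegral_prod _ m1.aemeasurable,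
          Measure.restrict_univ]
    _ = ∫⁻ a : Fin N → ℂ, ∫⁻ ζ : ℂ, ‖h (a, ζ)‖ₑ * ∫⁻ z in S, ‖ζ - z‖ₑ⁻¹ := by
        apply lintegral_congr
        intro a
        rw [lintegral_lintegral_swap]
        · apply lintegral_congr
          intro ζ
          rw [← lintegral_const_mul _ (by fun_prop)]
          apply lintegral_congr
          intro z
          rw [mul_comm, ← neg_sub ζ z, enorm_neg]
        · have m2 : Measurable (fun p : ℂ × ℂ => ‖h (a, p.2)‖ₑ) :=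
            m0.comp (by fun_prop)
          have m3 : Measurable (fun p : ℂ × ℂ => ‖p.1 - p.2‖ₑ⁻¹ * ‖h (a, p.2)‖ₑ) := by
            fun_prop
          exact m3.aemeasurable
    _ ≤ ∫⁻ a : Fin N → ℂ, ∫⁻ ζ : ℂ, ‖h (a, ζ)‖ₑ * (kc + volume S) := by
        apply lintegral_mono
        intro a
        apply lintegral_mono
        intro ζ
        exact mul_le_mul_right (K1 S ζ) _
    _ = (∫⁻ x, ‖h x‖ₑ) * (kc + volume S) := by
        rw [← lintegral_mul_const _ m0, Measure.volume_eq_prod, lintegral_prod _ (by fun_prop)]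
    _ < ⊤ := by
        apply ENNReal.mul_lt_top
        · have := hh.2
          rwa [hasFiniteIntegral_iff_enorm] at this
        · exact ENNReal.add_lt_top.mpr ⟨kc_lt, hS⟩

lemma CP_eq (θ : (Fin N → ℂ) × ℂ → ℂ) (a : Fin N → ℂ) (ζ : ℂ) :
    CP θ (a, ζ) = (Real.pi : ℂ)⁻¹ * ∫ z : ℂ, (ζ - z)⁻¹ * θ (a, z) := by
  unfold CP
  congr 1
  rw [← integral_sub_left_eq_self (fun z => (ζ - z)⁻¹ * θ (a, z)) volume ζ]
  apply integral_congr_ae
  filter_upwards with t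
  simp only [sub_sub_cancel]

lemma theta_bound {θ : (Fin N → ℂ) × ℂ → ℂ} (hθ : Continuous θ) (hθc : HasCompactSupport θ) :
    ∃ C : ℝ≥0∞, C < ⊤ ∧ ∀ a ζ, ∫⁻ z : ℂ, ‖ζ - z‖ₑ⁻¹ * ‖θ (a, z)‖ₑ ≤ C := by
  obtain ⟨Cθ, hCθ⟩ := hθc.exists_bound_of_continuous hθ
  set S : Set ℂ := Prod.snd '' tsupport θ with hS
  have hSc : IsCompact S := hθc.isCompact.image continuous_snd
  refine ⟨(kc + volume S) * ENNReal.ofReal Cθ, ?_, ?_⟩
  · exact ENNReal.mul_lt_top (ENNReal.add_lt_top.mpr ⟨kc_lt, hSc.measure_lt_top⟩)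
      ENNReal.ofReal_lt_top
  · intro a ζ
    calc ∫⁻ z : ℂ, ‖ζ - z‖ₑ⁻¹ * ‖θ (a, z)‖ₑ ≤
        ∫⁻ z : ℂ, S.indicator (fun z => ‖ζ - z‖ₑ⁻¹ * ENNReal.ofReal Cθ) z := by
          apply lintegral_mono
          intro z
          by_cases hz : z ∈ S
          · rw [indicator_of_mem hz]
            apply mul_le_mul_right
            rw [← ofReal_norm]
            exact ENNReal.ofReal_le_ofReal (hCθ _)
          · have h1 : θ (a, z) = 0 := by
              apply image_eq_zero_of_notMem_tsupport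
              intro hmem
              exact hz ⟨_, hmem, rfl⟩
            simp [h1]
      _ = (∫⁻ z in S, ‖ζ - z‖ₑ⁻¹) * ENNReal.ofReal Cθ := by
          rw [lintegral_indicator hSc.isClosed.measurableSet, lintegral_mul_const _ (by fun_prop)]
      _ ≤ _ := mul_le_mul_left (K1 S ζ) _

/-- Fubini for the Cauchy transform. -/
lemma fub {h : (Fin N → ℂ) × ℂ → F} (mh : StronglyMeasurable h) (hh : Integrable h)
    {θ : (Fin N → ℂ) × ℂ → ℂ} (hθ : ContDiff ℝ ∞ θ) (hθc : HasCompactSupport θ) :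
    ∫ x, CP θ x • h x = - ∫ x, θ x • TT h x := by
  obtain ⟨C, hC, hCb⟩ := theta_bound hθ.continuous hθc
  have mθ : Measurable θ := hθ.continuous.measurable
  have mP : Continuous (CP θ) := (CP_contDiff hθ hθc).continuous
  -- boundedness of `CP θ`
  have hPb : ∀ x, ‖CP θ x‖ ≤ C.toReal := by
    rintro ⟨a, ζ⟩
    have e1 : ‖(Real.pi : ℂ)⁻¹‖ₑ ≤ 1 := by
      rw [← ofReal_norm, norm_inv, Complex.norm_real, Real.norm_of_nonneg Real.pi_pos.le,
        ← ENNReal.ofReal_one]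
      apply ENNReal.ofReal_le_ofReal
      rw [inv_le_one₀ Real.pi_pos]
      have := Real.pi_gt_three
      linarith
    have e2 : ‖CP θ (a, ζ)‖ₑ ≤ C := by
      rw [CP_eq, enorm_mul]
      calc ‖(Real.pi : ℂ)⁻¹‖ₑ * ‖∫ z : ℂ, (ζ - z)⁻¹ * θ (a, z)‖ₑ
          ≤ 1 * ∫⁻ z : ℂ, ‖(ζ - z)⁻¹ * θ (a, z)‖ₑ :=
            mul_le_mul' e1 (enorm_integral_le_lintegral_enorm _)
        _ ≤ ∫⁻ z : ℂ, ‖ζ - z‖ₑ⁻¹ * ‖θ (a, z)‖ₑ := by
            rw [one_mul]
            apply lintegral_mono_ae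
            filter_upwards [ae_ne ζ] with z hz
            rw [enorm_mul, enorm_inv (sub_ne_zero.mpr (Ne.symm hz))]
        _ ≤ C := hCb a ζ
    rw [← toReal_enorm]
    exact ENNReal.toReal_mono hC.ne e2
  have i1 : Integrable (fun x => CP θ x • h x) :=
    hh.bdd_smul (C := C.toReal) mP.aestronglyMeasurable (Eventually.of_forall hPb)
  have i2 : Integrable (fun x => θ x • TT h x) := by
    obtain ⟨Cθ, hCθ⟩ := hθc.exists_bound_of_continuous hθ.continuous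
    set S : Set ℂ := Prod.snd '' tsupport θ with hS
    have hSc : IsCompact S := hθc.isCompact.image continuous_snd
    have h1 := intTT mh hh hSc.isClosed.measurableSet hSc.measure_lt_top
    have h2 : IntegrableOn (fun x => θ x • TT h x) (univ ×ˢ S) :=
      Integrable.bdd_smul (C := Cθ) h1 hθ.continuous.aestronglyMeasurable
        (Eventually.of_forall hCθ)
    rw [← integrableOn_univ]
    refine h2.of_forall_sdiff_eq_zero MeasurableSet.univ ?_
    intro x hx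
    have h3 : θ x = 0 := by
      apply image_eq_zero_of_notMem_tsupport
      intro hmem
      exact hx.2 ⟨mem_univ _, ⟨x, hmem, rfl⟩⟩
    rw [h3, zero_smul]
  rw [Measure.volume_eq_prod] at i1 i2 hh ⊢
  rw [integral_prod _ i1, integral_prod _ i2, ← integral_neg]
  apply integral_congr_ae
  filter_upwards [hh.prod_right_ae] with a ha
  -- the swap for fixed `a`
  have m1 : StronglyMeasurable (fun p : ℂ × ℂ => ((p.1 - p.2)⁻¹ * θ (a, p.2)) • h (a, p.1)) := by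
    refine StronglyMeasurable.smul ?_ ?_
    · exact Measurable.stronglyMeasurable (by fun_prop)
    · exact mh.comp_measurable (by fun_prop)
  have i3 : Integrable (fun p : ℂ × ℂ => ((p.1 - p.2)⁻¹ * θ (a, p.2)) • h (a, p.1))
      ((volume : Measure ℂ).prod volume) := by
    refine ⟨m1.aestronglyMeasurable, ?_⟩
    rw [hasFiniteIntegral_iff_enorm, lintegral_prod _ m1.enorm.aemeasurable]
    have m0 : Measurable (fun ζ => ‖h (a, ζ)‖ₑ) := (mh.comp_measurable (by fun_prop)).enorm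
    calc ∫⁻ ζ : ℂ, ∫⁻ z : ℂ, ‖((ζ - z)⁻¹ * θ (a, z)) • h (a, ζ)‖ₑ
        ≤ ∫⁻ ζ : ℂ, (∫⁻ z : ℂ, ‖ζ - z‖ₑ⁻¹ * ‖θ (a, z)‖ₑ) * ‖h (a, ζ)‖ₑ := by
          apply lintegral_mono
          intro ζ
          beta_reduce
          rw [← lintegral_mul_const _ (by fun_prop)]
          apply lintegral_mono_ae
          filter_upwards [ae_ne ζ] with z hz
          rw [enorm_smul, enorm_mul, enorm_inv (sub_ne_zero.mpr (Ne.symm hz))]
      _ ≤ ∫⁻ ζ : ℂ, C * ‖h (a, ζ)‖ₑ := by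
          apply lintegral_mono
          intro ζ
          exact mul_le_mul_left (hCb a ζ) _
      _ = C * ∫⁻ ζ : ℂ, ‖h (a, ζ)‖ₑ := by rw [lintegral_const_mul _ m0]
      _ < ⊤ := by
          apply ENNReal.mul_lt_top hC
          have := ha.2
          rwa [hasFiniteIntegral_iff_enorm] at this
  have e1 : ∫ ζ : ℂ, CP θ (a, ζ) • h (a, ζ) =
      (Real.pi : ℂ)⁻¹ • ∫ ζ : ℂ, ∫ z : ℂ, ((ζ - z)⁻¹ * θ (a, z)) • h (a, ζ) := by
    rw [← integral_smul]
    apply integral_congr_ae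
    filter_upwards with ζ
    rw [CP_eq, mul_smul, ← integral_smul_const]
  rw [e1, integral_integral_swap i3, ← integral_smul, ← integral_neg]
  apply integral_congr_ae
  filter_upwards with z
  unfold TT
  simp only
  have e2 : ∫ ζ : ℂ, ((ζ - z)⁻¹ * θ (a, z)) • h (a, ζ) =
      -(θ (a, z) • ∫ ζ : ℂ, (z - ζ)⁻¹ • h (a, ζ)) := by
    rw [← integral_smul, ← integral_neg]
    apply integral_congr_ae
    filter_upwards with ζ
    rw [smul_smul, ← neg_smul]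
    congr 1
    rw [← neg_sub z ζ, inv_neg]
    ring
  rw [e2, smul_neg, smul_comm]

end Q71.UC
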