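import Pool.Agent.Q71.UC.Cone

set_option linter.unusedSectionVars false
set_option linter.unusedVariables false

open MeasureTheory Set Filter Topology Metric Complex
open scoped ContDiff ComplexConjugate ENNReal

namespace Q71.UC

variable {N : ℕ} {F : Type*} [NormedAddCommGroup F] [NormedSpace ℂ F] [CompleteSpace F]

/-- points near which `u` vanishes -/
def ZS (u : (Fin (N + 1) → ℂ) → F) : Set (Fin (N + 1) → ℂ) :=
  {z | ∃ δ > 0, ∀ᵐ y, y ∈ ball z δ → u y = 0}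

lemma ZS_open (u : (Fin (N + 1) → ℂ) → F) : IsOpen (ZS u) := by
  rw [Metric.isOpen_iff]
  rintro z ⟨δ, hδ, h⟩
  refine ⟨δ, hδ, ?_⟩
  intro w hw
  rw [mem_ball] at hw
  refine ⟨δ - dist w z, by linarith, ?_⟩
  filter_upwards [h] with y hy hy2
  apply hy
  rw [mem_ball] at hy2 ⊢
  have := dist_triangle y w z
  linarith

lemma ZS_van {u : (Fin (N + 1) → ℂ) → F} {z : Fin (N + 1) → ℂ} (h : z ∈ ZS u) : Van u z := by
  obtain ⟨δ, hδ, h⟩ := h
  intro M hM
  refine ⟨δ, hδ, ?_⟩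
  have : ∫⁻ y in ball z δ, ‖u y‖ₑ ^ qe N * ‖y - z‖ₑ ^ (-M) = ∫⁻ y in ball z δ, 0 := by
    apply lintegral_congr_ae
    filter_upwards [ae_restrict_of_ae h, ae_restrict_mem measurableSet_ball] with y hy hy2
    have hq : 0 < qe N := lt_of_lt_of_le one_pos (qe_ge N)
    rw [hy hy2, enorm_zero, ENNReal.zero_rpow_of_pos hq, zero_mul]
  rw [this]
  simp

/-- the cone -/
def Cn (z1 : Fin (N + 1) → ℂ) (A ρ : ℝ) : Set (Fin (N + 1) → ℂ) :=
  {z | z 0 ≠ z1 0 ∧ (∀ i : Fin N, ‖z i.succ - z1 i.succ‖ < A * ‖z 0 - z1 0‖) ∧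
    ‖z 0 - z1 0‖ < ρ / A}

lemma Cn_open (z1 : Fin (N + 1) → ℂ) (A ρ : ℝ) : IsOpen (Cn z1 A ρ) := by
  have h : Cn z1 A ρ = {z : Fin (N + 1) → ℂ | z 0 ≠ z1 0} ∩
      ((⋂ i : Fin N, {z | ‖z i.succ - z1 i.succ‖ < A * ‖z 0 - z1 0‖}) ∩
        {z | ‖z 0 - z1 0‖ < ρ / A}) := by
    ext z
    simp only [Cn, mem_inter_iff, mem_iInter]
    rfl
  rw [h]
  refine IsOpen.inter ?_ (IsOpen.inter ?_ ?_)
  · exact isOpen_ne_fun (by fun_prop) (by fun_prop)
  · apply isOpen_iInter_of_finite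
    intro i
    exact isOpen_lt (by fun_prop) (by fun_prop)
  · exact isOpen_lt (by fun_prop) (by fun_prop)

lemma Cn_ae {Ω : Set (Fin (N + 1) → ℂ)} {u : (Fin (N + 1) → ℂ) → F}
    {g : Fin (N + 1) → (Fin (N + 1) → ℂ) → F} {V : (Fin (N + 1) → ℂ) → ℝ≥0∞}
    (hN : 1 ≤ N) (S : Setup Ω u g V) {z1 : Fin (N + 1) → ℂ} (hv : Van u z1) {A ρ : ℝ}
    (hA : 1 ≤ A) (hρ0 : 0 < ρ) (hρ : closedBall z1 ρ ⊆ Ω) :
    ∀ᵐ z, z ∈ Cn z1 A ρ → u z = 0 := by
  have hA0 : 0 < A := lt_of_lt_of_le one_pos hA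
  have h := cone hN S hv hA hρ0 hρ
  set B : Set (Fin (N + 1) → ℂ) := Cn z1 A ρ ∩ {z | ‖u z‖ₑ ≠ 0} with hB
  have mB : MeasurableSet B := (Cn_open z1 A ρ).measurableSet.inter
    (S.mu.enorm (measurableSet_singleton 0)).compl
  have h0 : volume B = 0 := by
    rw [← lintegral_indicator_one mB, cv z1 (measurable_one.indicator mB), lintegral_eq_zero_iff]
    · filter_upwards [h, ae_ne2] with x hx hx2
      have hn : 0 < ‖x.2‖ := norm_pos_iff.mpr hx2
      have : Phi z1 x ∉ B := by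
        rintro ⟨⟨h1, h2, h3⟩, h4⟩
        apply h4
        show ‖u (Phi z1 x)‖ₑ = 0
        rw [Phi_zero, add_sub_cancel_left] at h3
        rw [hx ?_ h3, enorm_zero]
        rw [pi_norm_lt_iff hA0]
        intro i
        have h5 := h2 i
        rw [Phi_zero, Phi_succ, add_sub_cancel_left, add_sub_cancel_left, norm_mul, mul_comm] at h5
        exact lt_of_mul_lt_mul_right h5 hn.le
      rw [indicator_of_notMem this]
      simp
    · have : Measurable (fun x : (Fin N → ℂ) × ℂ => B.indicator (1 : (Fin (N + 1) → ℂ) → ℝ≥0∞)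
          (Phi z1 x)) := (measurable_one.indicator mB).comp (continuous_Phi z1).measurable
      fun_prop
  rw [ae_iff]
  refine measure_mono_null ?_ h0
  intro z hz
  have hz' : ¬ (z ∈ Cn z1 A ρ → u z = 0) := hz
  push Not at hz'
  refine ⟨hz'.1, ?_⟩
  show ‖u z‖ₑ ≠ 0
  simpa using hz'.2

lemma Cn_sub {Ω : Set (Fin (N + 1) → ℂ)} {u : (Fin (N + 1) → ℂ) → F}
    {g : Fin (N + 1) → (Fin (N + 1) → ℂ) → F} {V : (Fin (N + 1) → ℂ) → ℝ≥0∞}
    (hN : 1 ≤ N) (S : Setup Ω u g V) {z1 : Fin (N + 1) → ℂ} (hv : Van u z1) {A ρ : ℝ}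
    (hA : 1 ≤ A) (hρ0 : 0 < ρ) (hρ : closedBall z1 ρ ⊆ Ω) : Cn z1 A ρ ⊆ ZS u := by
  intro z hz
  obtain ⟨δ, hδ, hb⟩ := Metric.isOpen_iff.mp (Cn_open z1 A ρ) z hz
  refine ⟨δ, hδ, ?_⟩
  filter_upwards [Cn_ae hN S hv hA hρ0 hρ] with y hy hy2 using hy (hb hy2)

theorem glob {Ω : Set (Fin (N + 1) → ℂ)} {u : (Fin (N + 1) → ℂ) → F}
    {g : Fin (N + 1) → (Fin (N + 1) → ℂ) → F} {V : (Fin (N + 1) → ℂ) → ℝ≥0∞}
    (hN : 1 ≤ N) (S : Setup Ω u g V) (hΩo : IsOpen Ω) (hΩc : IsPreconnected Ω)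
    {z0 : Fin (N + 1) → ℂ} (hz0 : z0 ∈ Ω) (hv : Van u z0) : ∀ᵐ z, z ∈ Ω → u z = 0 := by
  -- nonempty
  have hne : (Ω ∩ ZS u).Nonempty := by
    obtain ⟨ρ, hρ0, hρ⟩ := Metric.nhds_basis_closedBall.mem_iff.mp (hΩo.mem_nhds hz0)
    have h1 := Cn_sub hN S hv (le_refl 1) hρ0 hρ
    set z : Fin (N + 1) → ℂ := Phi z0 (0, ((ρ / 2 : ℝ) : ℂ)) with hz
    have hn : ‖((ρ / 2 : ℝ) : ℂ)‖ = ρ / 2 := by
      rw [Complex.norm_real, Real.norm_of_nonneg (by positivity)]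
    refine ⟨z, hρ ?_, h1 ?_⟩
    · rw [mem_closedBall_iff_norm]
      have := Phi_norm z0 (le_refl 1) (x := ((0 : Fin N → ℂ), ((ρ / 2 : ℝ) : ℂ))) (by simp)
      refine this.trans ?_
      simp only [hn]
      linarith
    · refine ⟨?_, ?_, ?_⟩
      · rw [hz, Phi_zero]
        simp only [ne_eq, add_eq_left]
        intro h
        rw [h, norm_zero] at hn
        linarith
      · intro i
        rw [hz, Phi_zero, Phi_succ, add_sub_cancel_left, add_sub_cancel_left]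
        simp only [Pi.zero_apply, mul_zero, norm_zero, one_mul, hn]
        positivity
      · rw [hz, Phi_zero, add_sub_cancel_left]
        simp only [hn, div_one]
        linarith
  -- closedness
  have hcl : closure (ZS u) ∩ Ω ⊆ ZS u := by
    rintro zs ⟨hzs, hzΩ⟩
    obtain ⟨ρ2, hρ2, hball⟩ := Metric.nhds_basis_closedBall.mem_iff.mp (hΩo.mem_nhds hzΩ)
    set ρ := ρ2 / 2 with hρdef
    have hρ0 : 0 < ρ := by positivity
    obtain ⟨z1, hz1, hd1⟩ := Metric.mem_closure_iff.mp hzs (ρ / 4) (by positivity)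
    -- perturb
    obtain ⟨z2, hz2, hd2, hne2⟩ : ∃ z2 ∈ ZS u, dist zs z2 < ρ / 2 ∧ z2 0 ≠ zs 0 := by
      by_cases hcase : z1 0 ≠ zs 0
      · exact ⟨z1, hz1, by linarith, hcase⟩
      · rw [not_not] at hcase
        obtain ⟨ε, hε, hb⟩ := Metric.isOpen_iff.mp (ZS_open u) z1 hz1
        set η : ℝ := min (ε / 2) (ρ / 4) with hη
        have hη0 : 0 < η := lt_min (by positivity) (by positivity)
        have hd3 : dist (z1 + Pi.single 0 ((η : ℝ) : ℂ)) z1 = η := by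
          rw [dist_eq_norm, add_sub_cancel_left, Pi.norm_single, Complex.norm_real,
            Real.norm_of_nonneg hη0.le]
        refine ⟨z1 + Pi.single 0 ((η : ℝ) : ℂ), hb ?_, ?_, ?_⟩
        · rw [mem_ball, hd3]
          have := min_le_left (ε / 2) (ρ / 4)
          linarith
        · have h5 := dist_triangle zs z1 (z1 + Pi.single 0 ((η : ℝ) : ℂ))
          rw [dist_comm z1, hd3] at h5
          have := min_le_right (ε / 2) (ρ / 4)
          linarith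
        · rw [Pi.add_apply, Pi.single_eq_same, hcase]
          simp only [ne_eq, add_eq_left, Complex.ofReal_eq_zero]
          exact hη0.ne'
    have hsub : closedBall z2 ρ ⊆ Ω := by
      refine subset_trans ?_ hball
      intro y hy
      rw [mem_closedBall] at hy ⊢
      have h5 := dist_triangle y z2 zs
      rw [dist_comm z2 zs] at h5
      linarith
    set ζ : ℂ := zs 0 - z2 0 with hζ
    have hζ0 : 0 < ‖ζ‖ := by
      rw [norm_pos_iff, hζ, sub_ne_zero]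
      exact Ne.symm hne2
    have hdi : ∀ i, ‖zs i - z2 i‖ < ρ / 2 := by
      intro i
      rw [dist_eq_norm] at hd2
      exact (norm_le_pi_norm (zs - z2) i).trans_lt hd2
    set A : ℝ := ρ / (2 * ‖ζ‖) with hA
    have hζρ : ‖ζ‖ < ρ / 2 := hdi 0
    have hA1 : 1 ≤ A := by
      rw [hA, le_div_iff₀ (by positivity)]
      linarith
    have hA0 : 0 < A := lt_of_lt_of_le one_pos hA1
    apply Cn_sub hN S (ZS_van hz2) hA1 hρ0 hsub
    refine ⟨Ne.symm hne2, ?_, ?_⟩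
    · intro i
      have e1 : A * ‖zs 0 - z2 0‖ = ρ / 2 := by
        rw [hA, ← hζ]
        field_simp
      rw [e1]
      exact hdi i.succ
    · rw [← hζ]
      have e1 : ρ / A = 2 * ‖ζ‖ := by
        rw [hA]
        field_simp
      rw [e1]
      linarith
  have hall : Ω ⊆ ZS u :=
    hΩc.subset_of_closure_inter_subset (ZS_open u) hne hcl
  -- conclusion
  have hnull : volume {z | z ∈ Ω ∧ u z ≠ 0} = 0 := by
    apply measure_null_of_locally_null
    intro z hz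
    obtain ⟨δ, hδ, h1⟩ := hall hz.1
    refine ⟨ball z δ ∩ {z | z ∈ Ω ∧ u z ≠ 0}, ?_, ?_⟩
    · exact inter_mem (mem_nhdsWithin_of_mem_nhds (ball_mem_nhds z hδ)) self_mem_nhdsWithin
    · rw [ae_iff] at h1
      refine measure_mono_null ?_ h1
      rintro y ⟨hy1, hy2⟩
      show ¬ (y ∈ ball z δ → u y = 0)
      push Not
      exact ⟨hy1, hy2.2⟩
  rw [ae_iff]
  refine measure_mono_null ?_ hnull
  intro z hz
  have hz' : ¬ (z ∈ Ω → u z = 0) := hz
  push Not at hz'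
  exact hz'

end Q71.UC
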