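import Mathlib

open MeasureTheory Set Filter Topology Metric
open scoped ENNReal NNReal

namespace Q71.UC

lemma enorm_rpow_eq {z : ℂ} (hz : z ≠ 0) (c : ℝ) : ‖z‖ₑ ^ c = ENNReal.ofReal (‖z‖ ^ c) := by
  rw [← ofReal_norm, ENNReal.ofReal_rpow_of_pos (norm_pos_iff.mpr hz)]

lemma ae_ne (w : ℂ) : ∀ᵐ z : ℂ, z ≠ w := by
  rw [ae_iff]
  simp

lemma near {a : ℝ} (ha : a < 2) (r : ℝ) : ∫⁻ z in ball (0 : ℂ) r, ‖z‖ₑ ^ (-a) < ⊤ := by
  have h := integrableOn_ball_of_norm_le_rpow (μ := (volume : Measure ℂ)) (E := ℂ) (F := ℝ)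
    (f := fun z => ‖z‖ ^ (-a)) (C := 1) (α := a) (r := r)
    (by simp [Complex.finrank_real_complex])
    (by simpa [Complex.finrank_real_complex] using ha)
    (Eventually.of_forall (fun z => by
      rw [one_mul, Real.norm_of_nonneg (by positivity)]))
    (measurable_norm.pow_const _).aestronglyMeasurable
  have h2 := h.2
  rw [hasFiniteIntegral_iff_enorm] at h2
  refine lt_of_le_of_lt (le_of_eq ?_) h2
  apply lintegral_congr_ae
  filter_upwards [ae_restrict_of_ae (ae_ne 0)] with z hz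
  rw [enorm_rpow_eq hz, Real.enorm_eq_ofReal (by positivity)]

lemma far {c : ℝ} (hc : 2 < c) : ∫⁻ z in {z : ℂ | 2 ≤ ‖z‖}, ‖z‖ₑ ^ (-c) < ⊤ := by
  have h : Integrable (fun z : ℂ => (Ici (2 : ℝ)).indicator (fun y => y ^ (-c)) ‖z‖) volume := by
    rw [integrable_fun_norm_addHaar (volume : Measure ℂ)
      (f := fun y => (Ici (2 : ℝ)).indicator (fun y => y ^ (-c)) y)]
    have h1 : IntegrableOn (fun y : ℝ => y ^ (1 - c)) (Ici 2) := by
      rw [integrableOn_Ici_iff_integrableOn_Ioi]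
      exact integrableOn_Ioi_rpow_of_lt (by linarith) (by norm_num)
    have h2 : IntegrableOn (fun y : ℝ => y ^ (Module.finrank ℝ ℂ - 1) •
        (Ici (2 : ℝ)).indicator (fun y => y ^ (-c)) y) (Ici 2) := by
      refine h1.congr_fun ?_ measurableSet_Ici
      intro y hy
      have hy0 : 0 < y := lt_of_lt_of_le (by norm_num) hy
      simp only [Complex.finrank_real_complex, indicator_of_mem hy, smul_eq_mul]
      rw [sub_eq_add_neg, Real.rpow_add hy0, Real.rpow_one]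
      norm_num
    refine (h2.integrable_indicator measurableSet_Ici).integrableOn.congr_fun ?_ measurableSet_Ioi
    intro y _
    by_cases hy : y ∈ Ici (2 : ℝ)
    · simp [indicator_of_mem hy]
    · simp [indicator_of_notMem hy]
  have h2 := h.2
  rw [hasFiniteIntegral_iff_enorm] at h2
  refine lt_of_le_of_lt ?_ h2
  rw [← lintegral_indicator (measurableSet_le measurable_const measurable_norm)]
  apply lintegral_mono
  intro z
  by_cases hz : 2 ≤ ‖z‖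
  · have hz0 : z ≠ 0 := by
      rintro rfl
      norm_num at hz
    have e1 : z ∈ {z : ℂ | 2 ≤ ‖z‖} := hz
    have e2 : ‖z‖ ∈ Ici (2 : ℝ) := hz
    simp only [indicator_of_mem e1, indicator_of_mem e2]
    rw [enorm_rpow_eq hz0, Real.enorm_eq_ofReal (by positivity)]
  · have e1 : z ∉ {z : ℂ | 2 ≤ ‖z‖} := hz
    simp only [indicator_of_notMem e1]
    exact zero_le

lemma rpow_neg_anti {x y : ℝ≥0∞} {b : ℝ} (hb : 0 ≤ b) (h : x ≤ y) : y ^ (-b) ≤ x ^ (-b) := by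
  rw [ENNReal.rpow_neg, ENNReal.rpow_neg]
  exact ENNReal.inv_le_inv.mpr (ENNReal.rpow_le_rpow h hb)

lemma enorm_rpow_neg_le {z : ℂ} {b : ℝ} (hb : 0 ≤ b) {c : ℝ} (hc : 0 < c) (h : c ≤ ‖z‖) :
    ‖z‖ₑ ^ (-b) ≤ ENNReal.ofReal c ^ (-b) := by
  apply rpow_neg_anti hb
  rw [← ofReal_norm]
  exact ENNReal.ofReal_le_ofReal h

lemma J_one {a b : ℝ} (ha : a < 2) (hb : b < 2) (ha0 : 0 ≤ a) (hb0 : 0 ≤ b) (hab : 2 < a + b) :
    ∫⁻ z : ℂ, ‖z‖ₑ ^ (-a) * ‖z - 1‖ₑ ^ (-b) < ⊤ := by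
  set F : ℂ → ℝ≥0∞ := fun z => ‖z‖ₑ ^ (-a) * ‖z - 1‖ₑ ^ (-b) with hF
  have hc : ∀ {c : ℝ} {x : ℝ}, 0 < x → ENNReal.ofReal x ^ c < ⊤ := by
    intro c x hx
    rw [ENNReal.ofReal_rpow_of_pos hx]
    exact ENNReal.ofReal_lt_top
  -- region A : ball 0 1/2
  have hA : ∫⁻ z in ball (0 : ℂ) (1 / 2), F z < ⊤ := by
    calc ∫⁻ z in ball (0 : ℂ) (1 / 2), F z ≤
        ∫⁻ z in ball (0 : ℂ) (1 / 2), ‖z‖ₑ ^ (-a) * ENNReal.ofReal (1 / 2) ^ (-b) := by
          apply setLIntegral_mono' measurableSet_ball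
          intro z hz
          rw [mem_ball_zero_iff] at hz
          apply mul_le_mul_right
          apply enorm_rpow_neg_le hb0 (by norm_num)
          have : ‖(1 : ℂ)‖ ≤ ‖z‖ + ‖z - 1‖ := by
            calc ‖(1 : ℂ)‖ = ‖z - (z - 1)‖ := by ring_nf
              _ ≤ _ := norm_sub_le _ _
          rw [norm_one] at this
          linarith
      _ = (∫⁻ z in ball (0 : ℂ) (1 / 2), ‖z‖ₑ ^ (-a)) * ENNReal.ofReal (1 / 2) ^ (-b) := by
          rw [lintegral_mul_const _ (by fun_prop)]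
      _ < ⊤ := ENNReal.mul_lt_top (near ha _) (hc (by norm_num))
  -- region B : ball 1 1/2
  have hB : ∫⁻ z in ball (1 : ℂ) (1 / 2), F z < ⊤ := by
    calc ∫⁻ z in ball (1 : ℂ) (1 / 2), F z ≤
        ∫⁻ z in ball (1 : ℂ) (1 / 2), ENNReal.ofReal (1 / 2) ^ (-a) * ‖z - 1‖ₑ ^ (-b) := by
          apply setLIntegral_mono' measurableSet_ball
          intro z hz
          rw [mem_ball_iff_norm] at hz
          apply mul_le_mul_left
          apply enorm_rpow_neg_le ha0 (by norm_num)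
          have : ‖(1 : ℂ)‖ ≤ ‖z‖ + ‖z - 1‖ := by
            calc ‖(1 : ℂ)‖ = ‖z - (z - 1)‖ := by ring_nf
              _ ≤ _ := norm_sub_le _ _
          rw [norm_one] at this
          linarith
      _ = ENNReal.ofReal (1 / 2) ^ (-a) * ∫⁻ z in ball (1 : ℂ) (1 / 2), ‖z - 1‖ₑ ^ (-b) := by
          rw [lintegral_const_mul _ (by fun_prop)]
      _ < ⊤ := by
          apply ENNReal.mul_lt_top (hc (by norm_num))
          have e : ∫⁻ z in ball (1 : ℂ) (1 / 2), ‖z - 1‖ₑ ^ (-b) =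
              ∫⁻ z in ball (0 : ℂ) (1 / 2), ‖z‖ₑ ^ (-b) := by
            rw [← lintegral_indicator measurableSet_ball, ← lintegral_indicator measurableSet_ball]
            rw [← lintegral_add_right_eq_self _ (1 : ℂ)]
            apply lintegral_congr
            intro z
            by_cases hz : z ∈ ball (0 : ℂ) (1 / 2)
            · have h2 : z + 1 ∈ ball (1 : ℂ) (1 / 2) := by
                simpa [mem_ball_iff_norm] using hz
              rw [indicator_of_mem hz, indicator_of_mem h2, add_sub_cancel_right]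
            · have h2 : z + 1 ∉ ball (1 : ℂ) (1 / 2) := by
                simpa [mem_ball_iff_norm] using hz
              rw [indicator_of_notMem hz, indicator_of_notMem h2]
          rw [e]
          exact near hb _
  -- region C : rest inside ball 0 2
  have hC : ∫⁻ z in ball (0 : ℂ) 2 \ (ball (0 : ℂ) (1 / 2) ∪ ball (1 : ℂ) (1 / 2)), F z < ⊤ := by
    calc _ ≤ ∫⁻ z in ball (0 : ℂ) 2 \ (ball (0 : ℂ) (1 / 2) ∪ ball (1 : ℂ) (1 / 2)),
        ENNReal.ofReal (1 / 2) ^ (-a) * ENNReal.ofReal (1 / 2) ^ (-b) := by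
          apply setLIntegral_mono' (by measurability)
          intro z hz
          have h1 : 1 / 2 ≤ ‖z‖ := by
            by_contra h
            exact hz.2 (Or.inl (by rw [mem_ball_zero_iff]; linarith))
          have h2 : 1 / 2 ≤ ‖z - 1‖ := by
            by_contra h
            exact hz.2 (Or.inr (by rw [mem_ball_iff_norm]; linarith))
          exact mul_le_mul' (enorm_rpow_neg_le ha0 (by norm_num) h1)
            (enorm_rpow_neg_le hb0 (by norm_num) h2)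
      _ < ⊤ := by
          rw [setLIntegral_const]
          apply ENNReal.mul_lt_top
          · exact ENNReal.mul_lt_top (hc (by norm_num)) (hc (by norm_num))
          · exact lt_of_le_of_lt (measure_mono sdiff_subset) measure_ball_lt_top
  -- region D : outside
  have hD : ∫⁻ z in {z : ℂ | 2 ≤ ‖z‖}, F z < ⊤ := by
    calc _ ≤ ∫⁻ z in {z : ℂ | 2 ≤ ‖z‖}, ENNReal.ofReal (1 / 2) ^ (-b) * ‖z‖ₑ ^ (-(a + b)) := by
          apply setLIntegral_mono' (measurableSet_le measurable_const measurable_norm)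
          intro z hz
          have hz' : 2 ≤ ‖z‖ := hz
          have hz0 : z ≠ 0 := by
            rintro rfl
            norm_num at hz'
          have h1 : (1 / 2) * ‖z‖ ≤ ‖z - 1‖ := by
            have : ‖z‖ ≤ ‖z - 1‖ + ‖(1 : ℂ)‖ := by
              calc ‖z‖ = ‖(z - 1) + 1‖ := by ring_nf
                _ ≤ _ := norm_add_le _ _
            rw [norm_one] at this
            linarith
          have h2 : ‖z - 1‖ₑ ^ (-b) ≤ (ENNReal.ofReal (1 / 2) * ‖z‖ₑ) ^ (-b) := by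
            apply rpow_neg_anti hb0
            rw [← ofReal_norm, ← ofReal_norm, ← ENNReal.ofReal_mul (by norm_num)]
            exact ENNReal.ofReal_le_ofReal h1
          have h3 : (ENNReal.ofReal (1 / 2) * ‖z‖ₑ) ^ (-b) =
              ENNReal.ofReal (1 / 2) ^ (-b) * ‖z‖ₑ ^ (-b) := by
            apply ENNReal.mul_rpow_of_ne_top ENNReal.ofReal_ne_top enorm_ne_top
          calc F z ≤ ‖z‖ₑ ^ (-a) * (ENNReal.ofReal (1 / 2) ^ (-b) * ‖z‖ₑ ^ (-b)) := by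
                rw [← h3]
                exact mul_le_mul_right h2 _
            _ = ENNReal.ofReal (1 / 2) ^ (-b) * (‖z‖ₑ ^ (-a) * ‖z‖ₑ ^ (-b)) := by ring
            _ = _ := by
                rw [← ENNReal.rpow_add _ _ (by simpa using hz0) enorm_ne_top]
                congr 2
                ring
      _ = ENNReal.ofReal (1 / 2) ^ (-b) * ∫⁻ z in {z : ℂ | 2 ≤ ‖z‖}, ‖z‖ₑ ^ (-(a + b)) := by
          rw [lintegral_const_mul _ (by fun_prop)]
      _ < ⊤ := ENNReal.mul_lt_top (hc (by norm_num)) (far hab)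
  have hcover : (univ : Set ℂ) ⊆ (ball (0 : ℂ) (1 / 2) ∪ ball (1 : ℂ) (1 / 2)) ∪
      ((ball (0 : ℂ) 2 \ (ball (0 : ℂ) (1 / 2) ∪ ball (1 : ℂ) (1 / 2))) ∪ {z : ℂ | 2 ≤ ‖z‖}) := by
    intro z _
    by_cases h1 : z ∈ ball (0 : ℂ) (1 / 2) ∪ ball (1 : ℂ) (1 / 2)
    · exact Or.inl h1
    · right
      by_cases h2 : z ∈ ball (0 : ℂ) 2
      · exact Or.inl ⟨h2, h1⟩
      · right
        rw [mem_ball_zero_iff] at h2
        exact not_lt.mp h2
  calc ∫⁻ z, F z = ∫⁻ z in univ, F z := by rw [Measure.restrict_univ]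
    _ ≤ _ := lintegral_mono_set hcover
    _ ≤ _ := lintegral_union_le _ _ _
    _ ≤ _ := add_le_add (lintegral_union_le _ _ _) (lintegral_union_le _ _ _)
    _ < ⊤ := by
      simp only [ENNReal.add_lt_top]
      exact ⟨⟨hA, hB⟩, hC, hD⟩

/-- scaling in the plane -/
lemma scale1 {ζ : ℂ} (hζ : ζ ≠ 0) {G : ℂ → ℝ≥0∞} (hG : Measurable G) :
    ∫⁻ b, G b = ENNReal.ofReal (‖ζ‖ ^ 2) * ∫⁻ a, G (ζ * a) := by
  have hn : 0 < ‖ζ‖ := norm_pos_iff.mpr hζ
  set u : ℂ := ζ / ‖ζ‖ with hu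
  have hu1 : ‖u‖ = 1 := by
    rw [hu, norm_div, Complex.norm_real, norm_norm, div_self hn.ne']
  have hζu : ∀ a : ℂ, ζ * a = ‖ζ‖ • (u * a) := by
    intro a
    rw [hu]
    simp only [Complex.real_smul]
    have : (‖ζ‖ : ℂ) ≠ 0 := by exact_mod_cast hn.ne'
    field_simp
  have hmp : MeasurePreserving (fun w : ℂ => u * w) volume volume := by
    let c : Circle := ⟨u, by simpa [Submonoid.unitSphere] using hu1⟩
    have h1 := (rotation c).measurePreserving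
    have h2 : (fun w : ℂ => u * w) = rotation c := by
      funext w
      rfl
    rw [h2]
    exact h1
  have h1 : ∫⁻ a, G (ζ * a) = ∫⁻ a : ℂ, G (‖ζ‖ • a) := by
    simp only [hζu]
    exact hmp.lintegral_comp (f := fun a => G (‖ζ‖ • a)) (by fun_prop)
  have h2 := Measure.map_addHaar_smul (volume : Measure ℂ) hn.ne'
  have h3 : ∫⁻ a : ℂ, G (‖ζ‖ • a) = ∫⁻ b, G b ∂(Measure.map (‖ζ‖ • ·) volume) := by
    rw [lintegral_map hG (by fun_prop)]
  rw [h1, h3, h2, lintegral_smul_measure, Complex.finrank_real_complex, smul_eq_mul, ← mul_assoc,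
    ← ENNReal.ofReal_mul (by positivity), abs_inv, abs_of_pos (by positivity),
    mul_inv_cancel₀ (by positivity), ENNReal.ofReal_one, one_mul]

lemma J_scale {a b : ℝ} {ζ : ℂ} (hζ : ζ ≠ 0) :
    ∫⁻ z : ℂ, ‖z‖ₑ ^ (-a) * ‖z - ζ‖ₑ ^ (-b) =
      ‖ζ‖ₑ ^ (2 - a - b) * ∫⁻ z : ℂ, ‖z‖ₑ ^ (-a) * ‖z - 1‖ₑ ^ (-b) := by
  rw [scale1 hζ (G := fun z => ‖z‖ₑ ^ (-a) * ‖z - ζ‖ₑ ^ (-b)) (by fun_prop)]
  have h0 : ‖ζ‖ₑ ≠ 0 := by simpa using hζ
  have h1 : ‖ζ‖ₑ ≠ ⊤ := enorm_ne_top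
  have h2 : ENNReal.ofReal (‖ζ‖ ^ 2) = ‖ζ‖ₑ ^ (2 : ℝ) := by
    rw [enorm_rpow_eq hζ]
    norm_num
  have h3 : ∀ c : ℂ, ‖ζ * c‖ₑ ^ (-a) * ‖ζ * c - ζ‖ₑ ^ (-b) =
      (‖ζ‖ₑ ^ (-a) * ‖ζ‖ₑ ^ (-b)) * (‖c‖ₑ ^ (-a) * ‖c - 1‖ₑ ^ (-b)) := by
    intro c
    have e1 : ζ * c - ζ = ζ * (c - 1) := by ring
    rw [e1, enorm_mul, enorm_mul, ENNReal.mul_rpow_of_ne_top h1 enorm_ne_top,
      ENNReal.mul_rpow_of_ne_top h1 enorm_ne_top]
    ring
  simp only [h3]
  rw [lintegral_const_mul _ (by fun_prop), h2, ← mul_assoc, ← ENNReal.rpow_add _ _ h0 h1,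
    ← ENNReal.rpow_add _ _ h0 h1]
  congr 2
  ring

/-- The kernel bound. -/
theorem kernel_bound {n : ℕ} (hn : 2 ≤ n) : ∃ C : ℝ≥0∞, C < ⊤ ∧
    ∀ (S : Set ℂ), MeasurableSet S → ∀ (W : ℂ → ℝ≥0∞), Measurable W → ∀ ζ : ℂ, ζ ≠ 0 →
      ∫⁻ z in S, W z * ‖z‖ₑ ^ (-(1 / 2 : ℝ)) * ‖z - ζ‖ₑ⁻¹ ≤
        C * (∫⁻ z in S, W z ^ (2 * n : ℝ) * ‖z‖ₑ ^ (2 * n - 2 : ℝ)) ^ (1 / (2 * n : ℝ)) *
          ‖ζ‖ₑ ^ (-(1 / 2 : ℝ)) := by
  have hn' : (2 : ℝ) ≤ n := by exact_mod_cast hn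
  have hd : (0 : ℝ) < 2 * n - 1 := by linarith
  set a : ℝ := (3 * n - 2) / (2 * n - 1) with ha
  set b : ℝ := (2 * n) / (2 * n - 1) with hb
  have ha2 : a < 2 := by rw [ha, div_lt_iff₀ hd]; linarith
  have hb2 : b < 2 := by rw [hb, div_lt_iff₀ hd]; linarith
  have ha0 : 0 ≤ a := by apply div_nonneg <;> linarith
  have hb0 : 0 < b := by apply div_pos <;> linarith
  have hab : 2 < a + b := by rw [ha, hb, ← add_div, lt_div_iff₀ hd]; linarith
  have hJ := J_one ha2 hb2 ha0 hb0.le hab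
  refine ⟨(∫⁻ z : ℂ, ‖z‖ₑ ^ (-a) * ‖z - 1‖ₑ ^ (-b)) ^ (1 / b), ?_, ?_⟩
  · exact ENNReal.rpow_lt_top_of_nonneg (by positivity) hJ.ne
  intro S hS W hW ζ hζ
  have hconj : (2 * n : ℝ).HolderConjugate b := by
    rw [Real.holderConjugate_iff]
    constructor
    · linarith
    · rw [hb]
      field_simp
      ring
  have hpt : ∀ z : ℂ, z ≠ 0 → W z * ‖z‖ₑ ^ (-(1 / 2 : ℝ)) * ‖z - ζ‖ₑ⁻¹ =
      (W z * ‖z‖ₑ ^ ((2 * n - 2) / (2 * n) : ℝ)) * (‖z‖ₑ ^ (-(a / b)) * ‖z - ζ‖ₑ⁻¹) := by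
    intro z hz
    have h0 : ‖z‖ₑ ≠ 0 := by simpa using hz
    have : ‖z‖ₑ ^ (-(1 / 2 : ℝ)) = ‖z‖ₑ ^ ((2 * n - 2) / (2 * n) : ℝ) * ‖z‖ₑ ^ (-(a / b)) := by
      rw [← ENNReal.rpow_add _ _ h0 enorm_ne_top]
      congr 1
      rw [ha, hb]
      field_simp
      ring
    rw [this]
    ring
  calc ∫⁻ z in S, W z * ‖z‖ₑ ^ (-(1 / 2 : ℝ)) * ‖z - ζ‖ₑ⁻¹
      = ∫⁻ z in S, (W z * ‖z‖ₑ ^ ((2 * n - 2) / (2 * n) : ℝ)) *
          (‖z‖ₑ ^ (-(a / b)) * ‖z - ζ‖ₑ⁻¹) := by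
        apply lintegral_congr_ae
        filter_upwards [ae_restrict_of_ae (ae_ne 0)] with z hz
        exact hpt z hz
    _ ≤ (∫⁻ z in S, (W z * ‖z‖ₑ ^ ((2 * n - 2) / (2 * n) : ℝ)) ^ (2 * n : ℝ)) ^
          (1 / (2 * n : ℝ)) *
        (∫⁻ z in S, (‖z‖ₑ ^ (-(a / b)) * ‖z - ζ‖ₑ⁻¹) ^ b) ^ (1 / b) := by
        exact ENNReal.lintegral_mul_le_Lp_mul_Lq _ hconj (by fun_prop) (by fun_prop)
    _ ≤ (∫⁻ z in S, W z ^ (2 * n : ℝ) * ‖z‖ₑ ^ (2 * n - 2 : ℝ)) ^ (1 / (2 * n : ℝ)) *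
        (‖ζ‖ₑ ^ (2 - a - b) * ∫⁻ z : ℂ, ‖z‖ₑ ^ (-a) * ‖z - 1‖ₑ ^ (-b)) ^ (1 / b) := by
        apply mul_le_mul'
        · apply le_of_eq
          congr 1
          apply lintegral_congr
          intro z
          rw [ENNReal.mul_rpow_of_nonneg _ _ (by positivity), ← ENNReal.rpow_mul]
          congr 2
          field_simp
        · apply ENNReal.rpow_le_rpow _ (by positivity)
          rw [← J_scale hζ]
          calc ∫⁻ z in S, (‖z‖ₑ ^ (-(a / b)) * ‖z - ζ‖ₑ⁻¹) ^ b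
              ≤ ∫⁻ z, (‖z‖ₑ ^ (-(a / b)) * ‖z - ζ‖ₑ⁻¹) ^ b := setLIntegral_le_lintegral _ _
            _ = ∫⁻ z : ℂ, ‖z‖ₑ ^ (-a) * ‖z - ζ‖ₑ ^ (-b) := by
              apply lintegral_congr
              intro z
              rw [ENNReal.mul_rpow_of_nonneg _ _ hb0.le, ← ENNReal.rpow_mul, ENNReal.inv_rpow,
                ENNReal.rpow_neg ‖z - ζ‖ₑ]
              congr 2
              field_simp
    _ = _ := by
        rw [ENNReal.mul_rpow_of_nonneg _ _ (by positivity), ← ENNReal.rpow_mul]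
        have : (2 - a - b) * (1 / b) = -(1 / 2) := by
          rw [ha, hb]
          field_simp
          ring
        rw [this]
        ring

end Q71.UC
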