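import Pool.Agent.Q71.UC.Cut

open MeasureTheory Set Filter Topology Metric Complex
open scoped ContDiff ComplexConjugate

namespace Q71.UC

variable {N : ℕ} {F : Type*} [NormedAddCommGroup F] [NormedSpace ℂ F]

/-- Identity with the inner cutoff removed. -/
lemma B2 {Ω : Set (Fin (N + 1) → ℂ)} {u : (Fin (N + 1) → ℂ) → F}
    {g : Fin (N + 1) → (Fin (N + 1) → ℂ) → F} (hd : WeakData Ω u g) (z0 : Fin (N + 1) → ℂ)
    {A R : ℝ} (hΩ : ∀ x : (Fin N → ℂ) × ℂ, ‖x.1‖ < A → ‖x.2‖ < R → Phi z0 x ∈ Ω)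
    (mU : AEStronglyMeasurable (fun x => u (Phi z0 x)) volume)
    (mG : AEStronglyMeasurable (GG z0 g) volume)
    (hU : ∀ k : ℕ, IntegrableOn (fun x : (Fin N → ℂ) × ℂ => (‖x.2‖⁻¹) ^ k * ‖u (Phi z0 x)‖)
      (ball (0 : Fin N → ℂ) A ×ˢ ball (0 : ℂ) R))
    (hG : ∀ k : ℕ, IntegrableOn (fun x : (Fin N → ℂ) × ℂ => (‖x.2‖⁻¹) ^ k * ‖GG z0 g x‖)
      (ball (0 : Fin N → ℂ) A ×ˢ ball (0 : ℂ) R))
    {θ : (Fin N → ℂ) × ℂ → ℂ} (hθ : ContDiff ℝ ∞ θ) (hθc : HasCompactSupport θ)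
    (hθs : ∀ x ∈ tsupport θ, ‖x.1‖ < A)
    {χ : ℂ → ℂ} (hχ : ContDiff ℝ ∞ χ) {t : ℝ} (ht : t < R)
    (ct : ∀ ζ, t ≤ ‖ζ‖ → χ ζ = 0) (k : ℕ) :
    ∫ x : (Fin N → ℂ) × ℂ, ((x.2⁻¹) ^ k * χ x.2 * θ x) • u (Phi z0 x) =
      - ∫ x : (Fin N → ℂ) × ℂ, ((x.2⁻¹) ^ k * CP θ x) •
        (dbar1 χ x.2 • u (Phi z0 x) + χ x.2 • GG z0 g x) := by
  set Reg : Set ((Fin N → ℂ) × ℂ) := ball (0 : Fin N → ℂ) A ×ˢ ball (0 : ℂ) R with hReg
  have mReg : MeasurableSet Reg := measurableSet_ball.prod measurableSet_ball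
  obtain ⟨η, Cη, hCη, hη, hη2, hη0, hη1, hηd⟩ := exists_eta
  have hχc : HasCompactSupport χ := by
    refine HasCompactSupport.intro (isCompact_closedBall (0 : ℂ) t) ?_
    intro ζ hζ
    rw [mem_closedBall_zero_iff, not_le] at hζ
    exact ct ζ hζ.le
  obtain ⟨Cχ, hCχ⟩ := hχc.exists_bound_of_continuous hχ.continuous
  have hCχ0 : 0 ≤ Cχ := (norm_nonneg _).trans (hCχ 0)
  have hdχc : Continuous (dbar1 χ) := dbar1_continuous hχ
  have hdχs : HasCompactSupport (dbar1 χ) := by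
    refine HasCompactSupport.intro (isCompact_closedBall (0 : ℂ) t) ?_
    intro ζ hζ
    rw [mem_closedBall_zero_iff, not_le] at hζ
    exact dbar1_zero_of_large ct hζ
  obtain ⟨Cd, hCd⟩ := hdχs.exists_bound_of_continuous hdχc
  have hCd0 : 0 ≤ Cd := (norm_nonneg _).trans (hCd 0)
  obtain ⟨Cθ, hCθ⟩ := hθc.exists_bound_of_continuous hθ.continuous
  have hCθ0 : 0 ≤ Cθ := (norm_nonneg _).trans (hCθ 0)
  have hP := CP_contDiff hθ hθc
  set K : Set ((Fin N → ℂ) × ℂ) := (Prod.fst '' tsupport θ) ×ˢ closedBall (0 : ℂ) t with hKdef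
  have hK : IsCompact K := (hθc.isCompact.image continuous_fst).prod (isCompact_closedBall _ _)
  have hKReg : K ⊆ Reg := by
    rintro x ⟨⟨y, hy, hy2⟩, h3⟩
    rw [mem_closedBall_zero_iff] at h3
    rw [hReg, mem_prod, mem_ball_zero_iff, mem_ball_zero_iff]
    refine ⟨?_, by linarith⟩
    rw [← hy2]
    exact hθs y hy
  obtain ⟨CP', hCP'⟩ := hK.exists_bound_of_continuousOn hP.continuous.continuousOn
  set CPm := max CP' 0 with hCPm
  have hCPb : ∀ x ∈ K, ‖CP θ x‖ ≤ CPm := fun x hx => (hCP' x hx).trans (le_max_left _ _)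
  have hCPm0 : 0 ≤ CPm := le_max_right _ _
  -- the sequence
  set c : ℕ → ℂ → ℂ := fun j ζ => η j ζ * χ ζ with hcdef
  have hcs : ∀ j, ContDiff ℝ ∞ (c j) := fun j => (hη j).mul hχ
  have hc0 : ∀ j, ∀ᶠ ζ in 𝓝 0, c j ζ = 0 := by
    intro j
    filter_upwards [hη0 j] with ζ hζ
    simp only [hcdef, hζ, zero_mul]
  have hct : ∀ j ζ, t ≤ ‖ζ‖ → c j ζ = 0 := by
    intro j ζ hζ
    simp only [hcdef, ct ζ hζ, mul_zero]
  have hcb : ∀ j ζ, ‖c j ζ‖ ≤ 2 * Cχ := by
    intro j ζ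
    simp only [hcdef]
    rw [norm_mul]
    exact mul_le_mul (hη2 j ζ) (hCχ ζ) (norm_nonneg _) (by norm_num)
  have hcev : ∀ ζ, ζ ≠ 0 → ∀ᶠ j in atTop, c j =ᶠ[𝓝 ζ] χ := by
    intro ζ hζ
    filter_upwards [hη1 ζ hζ] with j hj
    filter_upwards [hj] with w hw
    simp only [hcdef, hw, one_mul]
  have hdcb : ∀ j ζ, ζ ≠ 0 → ‖dbar1 (c j) ζ‖ ≤ Cη * Cχ * ‖ζ‖⁻¹ + 2 * Cd := by
    intro j ζ hζ
    have h1 : dbar1 (c j) ζ = dbar1 (η j) ζ * χ ζ + η j ζ * dbar1 χ ζ :=
      dbar1_mul ((hη j).differentiable (by simp) _) (hχ.differentiable (by simp) _)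
    rw [h1]
    refine (norm_add_le _ _).trans ?_
    rw [norm_mul, norm_mul]
    apply add_le_add
    · calc ‖dbar1 (η j) ζ‖ * ‖χ ζ‖ ≤ (Cη * ‖ζ‖⁻¹) * Cχ :=
            mul_le_mul (hηd j ζ hζ) (hCχ ζ) (norm_nonneg _) (by positivity)
        _ = _ := by ring
    · exact mul_le_mul (hη2 j ζ) (hCd ζ) (norm_nonneg _) (by norm_num)
  have hU0 : IntegrableOn (fun x => u (Phi z0 x)) Reg := by
    have := hU 0
    simp only [pow_zero, one_mul] at this
    exact (integrable_norm_iff mU.restrict).mp this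
  have hG0 : IntegrableOn (GG z0 g) Reg := by
    have := hG 0
    simp only [pow_zero, one_mul] at this
    exact (integrable_norm_iff mG.restrict).mp this
  have hseq : ∀ j, ∫ x : (Fin N → ℂ) × ℂ, ((x.2⁻¹) ^ k * c j x.2 * θ x) • u (Phi z0 x) =
      - ∫ x : (Fin N → ℂ) × ℂ, ((x.2⁻¹) ^ k * CP θ x) •
        (dbar1 (c j) x.2 • u (Phi z0 x) + c j x.2 • GG z0 g x) := fun j =>
    B1 hd z0 hΩ hU0 hG0 hθ hθc hθs (hcs j) (hc0 j) ht (hct j) k
  -- left limit
  have hL : Tendsto (fun j => ∫ x : (Fin N → ℂ) × ℂ, ((x.2⁻¹) ^ k * c j x.2 * θ x) •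
      u (Phi z0 x)) atTop (𝓝 (∫ x : (Fin N → ℂ) × ℂ, ((x.2⁻¹) ^ k * χ x.2 * θ x) •
      u (Phi z0 x))) := by
    refine tendsto_integral_of_dominated_convergence
      (fun x => Reg.indicator (fun x => (2 * Cχ * Cθ) * ((‖x.2‖⁻¹) ^ k * ‖u (Phi z0 x)‖)) x)
      ?_ ?_ ?_ ?_
    · intro j
      have m1 : Measurable (c j) := (hcs j).continuous.measurable
      have m2 : Measurable θ := hθ.continuous.measurable
      exact AEStronglyMeasurable.smul (by fun_prop) mU
    · rw [integrable_indicator_iff mReg]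
      exact (hU k).const_mul _
    · intro j
      filter_upwards with x
      by_cases hx : x ∈ Reg
      · rw [indicator_of_mem hx, norm_smul, norm_mul, norm_mul, norm_pow, norm_inv]
        calc (‖x.2‖⁻¹) ^ k * ‖c j x.2‖ * ‖θ x‖ * ‖u (Phi z0 x)‖ ≤
            (‖x.2‖⁻¹) ^ k * (2 * Cχ) * Cθ * ‖u (Phi z0 x)‖ := by
              gcongr
              · exact hcb j _
              · exact hCθ _
          _ = _ := by ring
      · rw [indicator_of_notMem hx]
        have h1 : c j x.2 * θ x = 0 := by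
          by_contra hcon
          apply hx
          rw [hReg, mem_prod, mem_ball_zero_iff, mem_ball_zero_iff]
          refine ⟨hθs x (subset_tsupport _ (right_ne_zero_of_mul hcon)), ?_⟩
          by_contra h2
          exact (left_ne_zero_of_mul hcon) (hct j _ (ht.le.trans (not_lt.mp h2)))
        rw [mul_assoc, h1, mul_zero, zero_smul, norm_zero]
    · filter_upwards [ae_ne2] with x hx
      apply tendsto_const_nhds.congr'
      filter_upwards [hcev x.2 hx] with j hj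
      rw [hj.self_of_nhds]
  -- right limit
  have hR : Tendsto (fun j => ∫ x : (Fin N → ℂ) × ℂ, ((x.2⁻¹) ^ k * CP θ x) •
      (dbar1 (c j) x.2 • u (Phi z0 x) + c j x.2 • GG z0 g x)) atTop
      (𝓝 (∫ x : (Fin N → ℂ) × ℂ, ((x.2⁻¹) ^ k * CP θ x) •
      (dbar1 χ x.2 • u (Phi z0 x) + χ x.2 • GG z0 g x))) := by
    refine tendsto_integral_of_dominated_convergence
      (fun x => Reg.indicator (fun x =>
        (CPm * Cη * Cχ) * ((‖x.2‖⁻¹) ^ (k + 1) * ‖u (Phi z0 x)‖) +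
        ((CPm * (2 * Cd)) * ((‖x.2‖⁻¹) ^ k * ‖u (Phi z0 x)‖) +
        (CPm * (2 * Cχ)) * ((‖x.2‖⁻¹) ^ k * ‖GG z0 g x‖))) x)
      ?_ ?_ ?_ ?_
    · intro j
      have m1 : Measurable (c j) := (hcs j).continuous.measurable
      have m2 : Measurable (CP θ) := hP.continuous.measurable
      have m3 : Measurable (dbar1 (c j)) := (dbar1_continuous (hcs j)).measurable
      refine AEStronglyMeasurable.smul (by fun_prop) ?_
      exact (AEStronglyMeasurable.smul (m3.comp measurable_snd).aestronglyMeasurable mU).add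
        (AEStronglyMeasurable.smul (by fun_prop) mG)
    · rw [integrable_indicator_iff mReg]
      exact ((hU (k + 1)).const_mul _).add (((hU k).const_mul _).add ((hG k).const_mul _))
    · intro j
      filter_upwards [ae_ne2] with x hx0
      by_cases hxK : x ∈ K
      · have hx := hKReg hxK
        rw [indicator_of_mem hx, norm_smul, norm_mul, norm_pow, norm_inv]
        calc (‖x.2‖⁻¹) ^ k * ‖CP θ x‖ * ‖dbar1 (c j) x.2 • u (Phi z0 x) + c j x.2 • GG z0 g x‖
            ≤ (‖x.2‖⁻¹) ^ k * CPm * ((Cη * Cχ * ‖x.2‖⁻¹ + 2 * Cd) * ‖u (Phi z0 x)‖ +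
              (2 * Cχ) * ‖GG z0 g x‖) := by
              gcongr
              · exact hCPb x hxK
              · refine (norm_add_le _ _).trans ?_
                rw [norm_smul, norm_smul]
                gcongr
                · exact hdcb j _ hx0
                · exact hcb j _
          _ = _ := by ring
      · have h1 : ((x.2⁻¹) ^ k * CP θ x) •
            (dbar1 (c j) x.2 • u (Phi z0 x) + c j x.2 • GG z0 g x) = 0 := by
          by_cases hP0 : CP θ x = 0
          · rw [hP0, mul_zero, zero_smul]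
          · have h2 := CP_ne_zero hP0
            have h3 : t < ‖x.2‖ := by
              by_contra h4
              apply hxK
              refine ⟨h2, ?_⟩
              rw [mem_closedBall_zero_iff]
              exact not_lt.mp h4
            rw [dbar1_zero_of_large (hct j) h3, hct j _ h3.le]
            simp
        rw [h1, norm_zero]
        apply indicator_nonneg
        intro y _
        positivity
    · filter_upwards [ae_ne2] with x hx
      apply tendsto_const_nhds.congr'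
      filter_upwards [hcev x.2 hx] with j hj
      rw [dbar1_congr hj, hj.self_of_nhds]
  have hR' := hR.neg
  exact tendsto_nhds_unique (hL.congr hseq) hR'

end Q71.UC
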