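import Pool.Agent.Q71.UC.Red

set_option linter.unusedSectionVars false
set_option linter.unusedVariables false

open MeasureTheory Set Filter Topology Metric Complex
open scoped ContDiff ComplexConjugate ENNReal

namespace Q71.UC

open Q71.SUCP (LocLp HasWeakDeriv W1Loc dbar dbarNorm eball VanishesToInfiniteOrder)

/-- Q1 of MP_b3ccf3_an holds. -/
theorem main : Q71.SUCP.Q1 := by
  intro n m hn hm Ω hΩo hΩc u ux uy hW V hV hineq z0 hz0 hv
  obtain ⟨N, rfl⟩ : ∃ N, n = N + 1 := ⟨n - 1, by omega⟩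
  have hN : 1 ≤ N := by omega
  have hNr : (1 : ℝ) ≤ N := by exact_mod_cast hN
  have mΩ : MeasurableSet Ω := hΩo.measurableSet
  set s : ℝ := 4 * ((N + 1 : ℕ) : ℝ) / (2 * ((N + 1 : ℕ) : ℝ) + 1) with hs
  have hcast : ((N + 1 : ℕ) : ℝ) = (N : ℝ) + 1 := by push_cast; ring
  have hs1 : 1 ≤ s := by
    rw [hs, hcast, le_div_iff₀ (by positivity)]
    linarith
  have hqs : qe N ≤ s := by
    unfold qe pe
    rw [hs, hcast, div_le_div_iff₀ (by linarith) (by positivity)]
    nlinarith
  have hp1 : (1 : ℝ) ≤ 2 * ((N + 1 : ℕ) : ℝ) := by rw [hcast]; linarith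
  -- measurable representatives
  have mu := LocLp.aesm hs1 hΩo hW.locLp
  have mux := fun j => LocLp.aesm hs1 hΩo (hW.locLp_x j)
  have muy := fun j => LocLp.aesm hs1 hΩo (hW.locLp_y j)
  have mV := LocLp.aesm hp1 hΩo hV
  set u' := mu.mk u with hu'
  set ux' := fun j => (mux j).mk (ux j) with hux'
  set uy' := fun j => (muy j).mk (uy j) with huy'
  set V' := mV.mk V with hV'
  have eu : u =ᵐ[volume.restrict Ω] u' := mu.ae_eq_mk
  have eux : ∀ j, ux j =ᵐ[volume.restrict Ω] ux' j := fun j => (mux j).ae_eq_mk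
  have euy : ∀ j, uy j =ᵐ[volume.restrict Ω] uy' j := fun j => (muy j).ae_eq_mk
  have eV : V =ᵐ[volume.restrict Ω] V' := mV.ae_eq_mk
  have su : StronglyMeasurable u' := mu.stronglyMeasurable_mk
  have sux : ∀ j, StronglyMeasurable (ux' j) := fun j => (mux j).stronglyMeasurable_mk
  have suy : ∀ j, StronglyMeasurable (uy' j) := fun j => (muy j).stronglyMeasurable_mk
  have sV : StronglyMeasurable V' := mV.stronglyMeasurable_mk
  -- integrability of representatives
  have iu : ∀ K ⊆ Ω, IsCompact K → IntegrableOn u' K := fun K hK hKc =>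
    (LocLp.integrableOn hs1 hW.locLp K hK hKc).congr (ae_restrict_sub hK eu)
  have iux : ∀ j, ∀ K ⊆ Ω, IsCompact K → IntegrableOn (ux' j) K := fun j K hK hKc =>
    (LocLp.integrableOn hs1 (hW.locLp_x j) K hK hKc).congr (ae_restrict_sub hK (eux j))
  have iuy : ∀ j, ∀ K ⊆ Ω, IsCompact K → IntegrableOn (uy' j) K := fun j K hK hKc =>
    (LocLp.integrableOn hs1 (hW.locLp_y j) K hK hKc).congr (ae_restrict_sub hK (euy j))
  set g' : Fin (N + 1) → (Fin (N + 1) → ℂ) → EuclideanSpace ℂ (Fin m) :=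
    fun j z => (1 / 2 : ℂ) • (ux' j z + I • uy' j z) with hg'
  have wd : WeakData Ω u' g' := by
    refine ⟨iu, ?_, ?_⟩
    · intro j K hK hKc
      exact ((iux j K hK hKc).add ((iuy j K hK hKc).smul I)).smul (1 / 2 : ℂ)
    · intro j φ hφ
      obtain ⟨hφ1, hφ2, hφ3⟩ := hφ
      have hφ0 : ∀ z, z ∉ tsupport φ → φ z = 0 := fun z hz => image_eq_zero_of_notMem_tsupport hz
      have hφΩ : ∀ z, z ∉ Ω → φ z = 0 := fun z hz => hφ0 z (fun h => hz (hφ3 h))
      have hdΩ : ∀ v z, z ∉ Ω → fderiv ℝ φ z v = 0 := fun v z hz =>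
        fderiv_zero (fun h => hz (hφ3 h))
      have hdc : ∀ v, Continuous (fun z => fderiv ℝ φ z v) := fun v =>
        (hφ1.continuous_fderiv (by simp)).clm_apply continuous_const
      have hx : ∫ z, (fderiv ℝ φ z (Pi.single j 1)) • u' z = - ∫ z, φ z • ux' j z := by
        rw [← test_congr mΩ (hdΩ _) eu, ← test_congr mΩ hφΩ (eux j)]
        exact hW.weak_x j φ ⟨hφ1, hφ2, hφ3⟩
      have hy : ∫ z, (fderiv ℝ φ z (Pi.single j I)) • u' z = - ∫ z, φ z • uy' j z := by
        rw [← test_congr mΩ (hdΩ _) eu, ← test_congr mΩ hφΩ (euy j)]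
        exact hW.weak_y j φ ⟨hφ1, hφ2, hφ3⟩
      have i1 : Integrable (fun z => (fderiv ℝ φ z (Pi.single j 1)) • u' z) :=
        integrable_test iu (hdc _) hφ2.isCompact hφ3 (fun z hz => fderiv_zero hz)
      have i2 : Integrable (fun z => (fderiv ℝ φ z (Pi.single j I)) • u' z) :=
        integrable_test iu (hdc _) hφ2.isCompact hφ3 (fun z hz => fderiv_zero hz)
      have i3 : Integrable (fun z => φ z • ux' j z) :=
        integrable_test (iux j) hφ1.continuous hφ2.isCompact hφ3 hφ0
      have i4 : Integrable (fun z => φ z • uy' j z) :=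
        integrable_test (iuy j) hφ1.continuous hφ2.isCompact hφ3 hφ0
      have e1 : ∫ z, db j φ z • u' z = (1 / 2 : ℂ) •
          ((∫ z, (fderiv ℝ φ z (Pi.single j 1)) • u' z) +
            I • ∫ z, (fderiv ℝ φ z (Pi.single j I)) • u' z) := by
        have i5 : Integrable (fun z => I • ((fderiv ℝ φ z (Pi.single j I)) • u' z)) := i2.smul I
        rw [← integral_smul I, ← integral_add i1 i5, ← integral_smul]
        apply integral_congr_ae
        filter_upwards with z
        unfold db
        rw [smul_smul I, ← add_smul, smul_smul]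
      have e2 : ∫ z, φ z • g' j z = (1 / 2 : ℂ) •
          ((∫ z, φ z • ux' j z) + I • ∫ z, φ z • uy' j z) := by
        have i5 : Integrable (fun z => I • (φ z • uy' j z)) := i4.smul I
        rw [← integral_smul I, ← integral_add i3 i5, ← integral_smul]
        apply integral_congr_ae
        filter_upwards with z
        simp only [hg']
        rw [smul_comm (φ z), smul_add (φ z), smul_comm (φ z) I]
      rw [e1, e2, hx, hy]
      module
  have S : Setup Ω u' g' (fun z => ((N + 1 : ℕ) : ℝ≥0∞) * ‖V' z‖ₑ) := by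
    refine ⟨wd, su, ?_, ?_, ?_, ?_, ?_⟩
    · intro j
      exact ((sux j).add ((suy j).const_smul I)).const_smul (1 / 2 : ℂ)
    · exact sV.enorm.const_mul _
    · have h1 := (ae_restrict_iff' mΩ).mp hineq
      have h2 := (ae_restrict_iff' mΩ).mp eu
      have h3 := (ae_restrict_iff' mΩ).mp eV
      have h4 := ae_all_iff.mpr (fun j => (ae_restrict_iff' mΩ).mp (eux j))
      have h5 := ae_all_iff.mpr (fun j => (ae_restrict_iff' mΩ).mp (euy j))
      filter_upwards [h1, h2, h3, h4, h5] with z a1 a2 a3 a4 a5 hz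
      have b1 := a1 hz
      rw [a2 hz, a3 hz] at b1
      have b2 : ∀ j, ‖g' j z‖ ≤ dbarNorm ux uy z := by
        intro j
        have b3 : g' j z = dbar ux uy j z := by
          simp only [hg', dbar]
          rw [a4 j hz, a5 j hz]
        rw [b3, EuclideanSpace.norm_eq]
        unfold dbarNorm
        apply Real.sqrt_le_sqrt
        exact Finset.single_le_sum (f := fun j => ∑ k, ‖dbar ux uy j z k‖ ^ 2)
          (fun i _ => Finset.sum_nonneg (fun k _ => by positivity)) (Finset.mem_univ j)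
      have b4 : ∀ j, ‖g' j z‖ₑ ≤ ‖V' z‖ₑ * ‖u' z‖ₑ := by
        intro j
        rw [← ofReal_norm, ← ofReal_norm, ← ofReal_norm, ← ENNReal.ofReal_mul (norm_nonneg _)]
        apply ENNReal.ofReal_le_ofReal
        refine (b2 j).trans (b1.trans ?_)
        exact mul_le_mul_of_nonneg_right (Real.le_norm_self _) (norm_nonneg _)
      calc ∑ j, ‖g' j z‖ₑ ≤ ∑ j : Fin (N + 1), ‖V' z‖ₑ * ‖u' z‖ₑ :=
            Finset.sum_le_sum (fun j _ => b4 j)
        _ = _ := by
            rw [Finset.sum_const, Finset.card_univ, Fintype.card_fin, nsmul_eq_mul]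
            ring
    · intro K hK hKc
      have hp0 : 0 < pe N := by have := pe_ge N; linarith
      have h1 := hV K hKc hK
      have h2 := lintegral_rpow_enorm_lt_top_of_eLpNorm_lt_top
        (by
          rw [ne_eq, ENNReal.ofReal_eq_zero, not_le]
          linarith) ENNReal.ofReal_ne_top h1.2
      rw [ENNReal.toReal_ofReal (by positivity)] at h2
      have h3 : ∫⁻ z in K, ‖V' z‖ₑ ^ pe N < ⊤ := by
        refine lt_of_le_of_lt (le_of_eq ?_) h2
        apply lintegral_congr_ae
        filter_upwards [ae_restrict_sub hK eV] with z hz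
        rw [hz]
        rfl
      calc ∫⁻ z in K, (((N + 1 : ℕ) : ℝ≥0∞) * ‖V' z‖ₑ) ^ pe N =
          ∫⁻ z in K, ((N + 1 : ℕ) : ℝ≥0∞) ^ pe N * ‖V' z‖ₑ ^ pe N := by
            apply lintegral_congr
            intro z
            rw [ENNReal.mul_rpow_of_nonneg _ _ hp0.le]
        _ = ((N + 1 : ℕ) : ℝ≥0∞) ^ pe N * ∫⁻ z in K, ‖V' z‖ₑ ^ pe N := by
            rw [lintegral_const_mul _ (sV.enorm.pow_const _)]
        _ < ⊤ := by
            apply ENNReal.mul_lt_top _ h3
            exact ENNReal.rpow_lt_top_of_nonneg hp0.le (ENNReal.natCast_ne_top _)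
    · intro K hK hKc
      have hq0 : 0 < qe N := lt_of_lt_of_le one_pos (qe_ge N)
      have : IsFiniteMeasure (volume.restrict K) :=
        ⟨by rw [Measure.restrict_apply_univ]; exact hKc.measure_lt_top⟩
      have h1 := (hW.locLp K hKc hK).mono_exponent (ENNReal.ofReal_le_ofReal hqs)
      have h2 := lintegral_rpow_enorm_lt_top_of_eLpNorm_lt_top
        (by
          rw [ne_eq, ENNReal.ofReal_eq_zero, not_le]
          exact hq0) ENNReal.ofReal_ne_top h1.2
      rw [ENNReal.toReal_ofReal hq0.le] at h2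
      refine lt_of_le_of_lt (le_of_eq ?_) h2
      apply lintegral_congr_ae
      filter_upwards [ae_restrict_sub hK eu] with z hz
      rw [hz]
  have hexp : 4 * ((N + 1 : ℕ) : ℝ) / (2 * ((N + 1 : ℕ) : ℝ) - 1) = 2 * qe N := by
    unfold qe pe
    ring
  rw [hexp] at hv
  have hvan := van_of hΩo eu su hz0 hv
  have hfin := glob hN S hΩo hΩc.isPreconnected hz0 hvan
  rw [ae_restrict_iff' mΩ]
  have h2 := (ae_restrict_iff' mΩ).mp eu
  filter_upwards [hfin, h2] with z hz1 hz2 hz
  rw [hz2 hz, hz1 hz]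

end Q71.UC
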