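import Pool.Agent.Helper366.IV.CP
import Pool.Agent.Q71.UC.Kernel

open MeasureTheory Set Filter Topology Metric Complex
open scoped Convolution ContDiff ComplexConjugate

namespace Q71.UC

/-- `∂̄` in one variable -/
noncomputable def dbar1 (f : ℂ → ℂ) (z : ℂ) : ℂ :=
  (1 / 2 : ℂ) * (fderiv ℝ f z 1 + I * fderiv ℝ f z I)

lemma dbar1_congr {f g : ℂ → ℂ} {z : ℂ} (h : f =ᶠ[𝓝 z] g) : dbar1 f z = dbar1 g z := by
  unfold dbar1
  rw [h.fderiv_eq]

lemma dbar1_mul {f g : ℂ → ℂ} {z : ℂ} (hf : DifferentiableAt ℝ f z)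
    (hg : DifferentiableAt ℝ g z) :
    dbar1 (fun w => f w * g w) z = dbar1 f z * g z + f z * dbar1 g z := by
  unfold dbar1
  rw [fderiv_fun_mul hf hg]
  simp only [add_apply, smul_apply, smul_eq_mul]
  ring

lemma dbar1_holo {f : ℂ → ℂ} {z : ℂ} (hf : DifferentiableAt ℂ f z) : dbar1 f z = 0 := by
  have h1 : HasFDerivAt f ((fderiv ℂ f z).restrictScalars ℝ) z :=
    hf.hasFDerivAt.restrictScalars ℝ
  unfold dbar1
  rw [h1.fderiv]
  have h2 : fderiv ℂ f z I = I * fderiv ℂ f z 1 := by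
    have : (I : ℂ) = I • (1 : ℂ) := by simp
    conv_lhs => rw [this]
    rw [map_smul, smul_eq_mul]
  simp only [ContinuousLinearMap.coe_restrictScalars']
  rw [h2]
  linear_combination (1 / 2 * fderiv ℂ f z 1) * I_sq

lemma dbar1_antiholo {h : ℂ → ℂ} {h' z : ℂ} (hh : HasDerivAt h h' (conj z)) :
    DifferentiableAt ℝ (fun w => h (conj w)) z ∧ dbar1 (fun w => h (conj w)) z = h' := by
  have h1 : HasFDerivAt h ((ContinuousLinearMap.toSpanSingleton ℂ h').restrictScalars ℝ)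
    (conj z) := hh.hasFDerivAt.restrictScalars ℝ
  have h2 : HasFDerivAt (fun w : ℂ => conj w) (conjCLE : ℂ →L[ℝ] ℂ) z :=
    conjCLE.hasFDerivAt
  have h3 := h1.comp z h2
  refine ⟨h3.differentiableAt, ?_⟩
  unfold dbar1
  rw [show (fun w => h (conj w)) = h ∘ (fun w => conj w) from rfl, h3.fderiv]
  simp
  linear_combination (-h' / 2) * I_mul_I

lemma dbar1_conj_inv_pow (m : ℕ) {z : ℂ} (hz : z ≠ 0) :
    DifferentiableAt ℝ (fun w : ℂ => ((conj w)⁻¹) ^ m) z ∧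
    dbar1 (fun w => ((conj w)⁻¹) ^ m) z = -m * ((conj z)⁻¹) ^ (m + 1) := by
  have hz' : (conj z) ≠ 0 := by simpa using hz
  have h1 : HasDerivAt (fun w : ℂ => (w⁻¹) ^ m) (-m * ((conj z)⁻¹) ^ (m + 1)) (conj z) := by
    have h2 := (hasDerivAt_inv hz').pow m
    refine h2.congr_deriv ?_
    rcases m with _ | m
    · simp
    · simp only [Nat.add_sub_cancel]
      rw [← inv_pow]
      push_cast
      ring
  exact dbar1_antiholo h1

lemma lin_identity (D : ℂ →L[ℝ] ℂ) (w : ℂ) :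
    D w + I * D (I * w) = conj w * (D 1 + I * D I) := by
  have h1 : D w = w.re * D 1 + w.im * D I := by
    have : w = w.re • (1 : ℂ) + w.im • I := by
      apply Complex.ext <;> simp
    conv_lhs => rw [this]
    rw [map_add, map_smul, map_smul, real_smul, real_smul]
  have h2 : D (I * w) = -w.im * D 1 + w.re * D I := by
    have : I * w = (-w.im) • (1 : ℂ) + w.re • I := by
      apply Complex.ext <;> simp
    conv_lhs => rw [this]
    rw [map_add, map_smul, map_smul, real_smul, real_smul]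
    push_cast
    ring
  rw [h1, h2]
  have h3 : (conj w : ℂ) = w.re - w.im * I := by
    apply Complex.ext <;> simp
  rw [h3]
  ring_nf
  rw [I_sq]
  ring

lemma locInt_inv : LocallyIntegrable (fun t : ℂ => t⁻¹) volume := by
  refine locallyIntegrable_of_norm_le_rpow (C := 1) (α := 1)
    (by simp [Complex.finrank_real_complex]) (by simp [Complex.finrank_real_complex])
    (Eventually.of_forall fun z => ?_) (by fun_prop)
  rw [norm_inv, one_mul, Real.rpow_neg_one]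

variable {M : ℕ}

/-- the partial Cauchy transform of `θ` in the last variable -/
noncomputable def CP (θ : (Fin M → ℂ) × ℂ → ℂ) (x : (Fin M → ℂ) × ℂ) : ℂ :=
  (Real.pi : ℂ)⁻¹ * ∫ t : ℂ, t⁻¹ * θ (x.1, x.2 - t)

lemma CP_contDiff {θ : (Fin M → ℂ) × ℂ → ℂ} (hθ : ContDiff ℝ ∞ θ) (hc : HasCompactSupport θ) :
    ContDiff ℝ ∞ (CP θ) := by
  have h1 : ContDiffOn ℝ ((⊤ : ℕ∞) : WithTop ℕ∞) (fun q : (Fin M → ℂ) × ℂ =>
      ((fun t : ℂ => t⁻¹) ⋆[ContinuousLinearMap.mul ℝ ℂ, volume] (fun ζ => θ (q.1, ζ))) q.2)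
      (univ ×ˢ univ) := by
    refine contDiffOn_convolution_right_with_param (ContinuousLinearMap.mul ℝ ℂ)
      (g := fun a ζ => θ (a, ζ)) (k := Prod.snd '' tsupport θ) isOpen_univ
      (hc.isCompact.image continuous_snd) ?_ locInt_inv ?_
    · intro a ζ _ hζ
      apply image_eq_zero_of_notMem_tsupport
      intro hmem
      exact hζ ⟨_, hmem, rfl⟩
    · exact hθ.contDiffOn
  rw [univ_prod_univ, contDiffOn_univ] at h1
  have h2 : CP θ = fun q => (Real.pi : ℂ)⁻¹ * ((fun t : ℂ => t⁻¹) ⋆[ContinuousLinearMap.mul ℝ ℂ,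
      volume] (fun ζ => θ (q.1, ζ))) q.2 := by
    funext q
    rfl
  rw [h2]
  exact contDiff_const.mul h1

lemma slice_contDiff {θ : (Fin M → ℂ) × ℂ → ℂ} {n : WithTop ℕ∞} (hθ : ContDiff ℝ n θ)
    (a : Fin M → ℂ) : ContDiff ℝ n (fun ζ => θ (a, ζ)) :=
  hθ.comp (contDiff_const.prodMk contDiff_id)

lemma slice_compact {θ : (Fin M → ℂ) × ℂ → ℂ} (hc : HasCompactSupport θ)
    (a : Fin M → ℂ) : HasCompactSupport (fun ζ => θ (a, ζ)) := by
  refine HasCompactSupport.intro (hc.isCompact.image continuous_snd) ?_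
  intro ζ hζ
  apply image_eq_zero_of_notMem_tsupport
  intro hmem
  exact hζ ⟨_, hmem, rfl⟩

lemma CP_dbar {θ : (Fin M → ℂ) × ℂ → ℂ} (hθ : ContDiff ℝ ∞ θ) (hc : HasCompactSupport θ)
    (a : Fin M → ℂ) (ζ : ℂ) : dbar1 (fun w => CP θ (a, w)) ζ = θ (a, ζ) := by
  set φ : ℂ → ℂ := fun w => θ (a, w) with hφdef
  have hφ : ContDiff ℝ 1 φ := (slice_contDiff hθ a).of_le (by exact_mod_cast le_top)
  have hφc : HasCompactSupport φ := slice_compact hc a
  have hV : (fun w => CP θ (a, w)) = fun w => (Real.pi : ℂ)⁻¹ *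
      ((fun t : ℂ => t⁻¹) ⋆[ContinuousLinearMap.mul ℝ ℂ, volume] φ) w := by
    ext w
    rfl
  have hd : HasFDerivAt ((fun t : ℂ => t⁻¹) ⋆[ContinuousLinearMap.mul ℝ ℂ, volume] φ)
      (((fun t : ℂ => t⁻¹) ⋆[(ContinuousLinearMap.mul ℝ ℂ).precompR ℂ, volume]
        fderiv ℝ φ) ζ) ζ := hφc.hasFDerivAt_convolution_right _ locInt_inv hφ ζ
  have hd2 := hd.const_mul (Real.pi : ℂ)⁻¹
  have hcf : Continuous (fderiv ℝ φ) := hφ.continuous_fderiv one_ne_zero
  have hint : Integrable (fun t : ℂ => ((ContinuousLinearMap.mul ℝ ℂ).precompR ℂ (t⁻¹))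
      (fderiv ℝ φ (ζ - t))) :=
    (hφc.fderiv ℝ).convolutionExists_right _ locInt_inv hcf ζ
  have hev : ∀ v : ℂ, (((fun t : ℂ => t⁻¹) ⋆[(ContinuousLinearMap.mul ℝ ℂ).precompR ℂ, volume]
      fderiv ℝ φ) ζ) v = ∫ t : ℂ, t⁻¹ * (fderiv ℝ φ (ζ - t)) v := by
    intro v
    unfold convolution
    rw [ContinuousLinearMap.integral_apply hint]
    rfl
  have hiv : ∀ v : ℂ, Integrable (fun t : ℂ => t⁻¹ * (fderiv ℝ φ (ζ - t)) v) := by
    intro v
    exact (ContinuousLinearMap.apply ℝ ℂ v).integrable_comp hint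
  unfold dbar1
  rw [hV, hd2.fderiv]
  simp only [smul_apply, smul_eq_mul]
  rw [hev, hev]
  have h1 := Pool.Agent.Helper366.IV.cauchy_pompeiu φ hφ hφc ζ
  have h2 : ∫ w, (fderiv ℝ φ (ζ - w) 1 + I * fderiv ℝ φ (ζ - w) I) / 2 / w =
      (1 / 2 : ℂ) * ((∫ t : ℂ, t⁻¹ * (fderiv ℝ φ (ζ - t)) 1) +
        I * ∫ t : ℂ, t⁻¹ * (fderiv ℝ φ (ζ - t)) I) := by
    rw [← integral_const_mul I, ← integral_add (hiv 1) ((hiv I).const_mul I),
      ← integral_const_mul]
    apply integral_congr_ae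
    filter_upwards with w
    ring
  rw [h2] at h1
  have hpi : (Real.pi : ℂ) ≠ 0 := by exact_mod_cast Real.pi_ne_zero
  field_simp
  field_simp at h1
  linear_combination h1

end Q71.UC
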