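import Pool.Agent.Q71.UC.CV
import Pool.Agent.Q71.UC.Wirt

open MeasureTheory Set Filter Topology Metric Complex
open scoped ContDiff ComplexConjugate

namespace Q71.UC

variable {N : ℕ} {F : Type*} [NormedAddCommGroup F] [NormedSpace ℂ F]

/-- `∂̄_j` of a test function -/
noncomputable def db {n : ℕ} (j : Fin n) (φ : (Fin n → ℂ) → ℂ) (z : Fin n → ℂ) : ℂ :=
  (1 / 2 : ℂ) * (fderiv ℝ φ z (Pi.single j 1) + I * fderiv ℝ φ z (Pi.single j I))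

/-- smooth compactly supported test functions on `Ω` -/
def IsTest {n : ℕ} (Ω : Set (Fin n → ℂ)) (φ : (Fin n → ℂ) → ℂ) : Prop :=
  ContDiff ℝ ∞ φ ∧ HasCompactSupport φ ∧ tsupport φ ⊆ Ω

lemma sum_lin {n : ℕ} (D : (Fin n → ℂ) →L[ℝ] ℂ) (w : Fin n → ℂ) :
    ∑ j, conj (w j) * ((1 / 2 : ℂ) * (D (Pi.single j 1) + I * D (Pi.single j I))) =
      (1 / 2 : ℂ) * (D w + I * D (I • w)) := by
  have h1 : ∀ v : Fin n → ℂ, D v = ∑ j, D (Pi.single j (v j)) := by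
    intro v
    rw [← map_sum]
    congr 1
    exact (Finset.univ_sum_single v).symm
  rw [h1 w, h1 (I • w), Finset.mul_sum, ← Finset.sum_add_distrib, Finset.mul_sum]
  apply Finset.sum_congr rfl
  intro j _
  let Dj : ℂ →L[ℝ] ℂ := D.comp (ContinuousLinearMap.single ℝ (fun _ : Fin n => ℂ) j)
  have h2 := lin_identity Dj (w j)
  have h3 : ∀ c : ℂ, Dj c = D (Pi.single j c) := fun c => rfl
  rw [h3, h3, h3, h3] at h2
  rw [Pi.smul_apply, smul_eq_mul, h2]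
  ring

/-- the auxiliary function `κ` -/
noncomputable def kap (z0 : Fin (N + 1) → ℂ) (ψ : (Fin N → ℂ) × ℂ → ℂ) (z : Fin (N + 1) → ℂ) : ℂ :=
  ((conj (z 0 - z0 0))⁻¹) ^ (N + 1) * ((z 0 - z0 0)⁻¹) ^ N *
    ψ (fun i => (z i.succ - z0 i.succ) * (z 0 - z0 0)⁻¹, z 0 - z0 0)

lemma exists_delta {ψ : (Fin N → ℂ) × ℂ → ℂ} (hc : HasCompactSupport ψ)
    (h0 : ∀ x ∈ tsupport ψ, x.2 ≠ 0) : ∃ δ > 0, ∀ x, ‖x.2‖ < δ → ψ x = 0 := by
  have hK : IsClosed (Prod.snd '' tsupport ψ) := (hc.isCompact.image continuous_snd).isClosed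
  have h1 : (0 : ℂ) ∈ (Prod.snd '' tsupport ψ)ᶜ := by
    rintro ⟨x, hx, hx2⟩
    exact h0 x hx hx2
  obtain ⟨δ, hδ, hb⟩ := Metric.isOpen_iff.mp hK.isOpen_compl 0 h1
  refine ⟨δ, hδ, fun x hx => ?_⟩
  apply image_eq_zero_of_notMem_tsupport
  intro hmem
  exact hb (by rwa [mem_ball_zero_iff]) ⟨x, hmem, rfl⟩

lemma kap_contDiff (z0 : Fin (N + 1) → ℂ) {ψ : (Fin N → ℂ) × ℂ → ℂ} (hψ : ContDiff ℝ ∞ ψ)
    (hc : HasCompactSupport ψ) (h0 : ∀ x ∈ tsupport ψ, x.2 ≠ 0) : ContDiff ℝ ∞ (kap z0 ψ) := by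
  obtain ⟨δ, hδ, hδ2⟩ := exists_delta hc h0
  rw [contDiff_iff_contDiffAt]
  intro z
  by_cases hz : z 0 = z0 0
  · have h1 : kap z0 ψ =ᶠ[𝓝 z] fun _ => 0 := by
      have h2 : ∀ᶠ y : Fin (N + 1) → ℂ in 𝓝 z, ‖y 0 - z0 0‖ < δ := by
        have h3 : Tendsto (fun y : Fin (N + 1) → ℂ => ‖y 0 - z0 0‖) (𝓝 z) (𝓝 ‖z 0 - z0 0‖) := by
          have : Continuous (fun y : Fin (N + 1) → ℂ => ‖y 0 - z0 0‖) := by fun_prop
          exact this.tendsto z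
        rw [hz, sub_self, norm_zero] at h3
        exact h3.eventually_lt_const hδ
      filter_upwards [h2] with y hy
      unfold kap
      rw [hδ2 _ hy, mul_zero]
    exact contDiffAt_const.congr_of_eventuallyEq h1
  · have hz' : z 0 - z0 0 ≠ 0 := sub_ne_zero.mpr hz
    have c0 : ContDiffAt ℝ ∞ (fun z : Fin (N + 1) → ℂ => z 0 - z0 0) z := by fun_prop
    have c1 : ContDiffAt ℝ ∞ (fun z : Fin (N + 1) → ℂ => (z 0 - z0 0)⁻¹) z := c0.inv hz'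
    have c2 : ContDiffAt ℝ ∞ (fun z : Fin (N + 1) → ℂ => (conj (z 0 - z0 0))⁻¹) z := by
      have c3 : ContDiffAt ℝ ∞ (fun z : Fin (N + 1) → ℂ => conj (z 0 - z0 0)) z :=
        (conjCLE.contDiff.contDiffAt).comp z c0
      exact c3.inv ((map_ne_zero (starRingEnd ℂ)).mpr hz')
    have c4 : ContDiffAt ℝ ∞ (fun z : Fin (N + 1) → ℂ =>
        ((fun i : Fin N => (z i.succ - z0 i.succ) * (z 0 - z0 0)⁻¹), z 0 - z0 0)) z := by
      refine ContDiffAt.prodMk ?_ c0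
      rw [contDiffAt_pi]
      intro i
      refine ContDiffAt.mul ?_ c1
      fun_prop
    exact ((c2.pow _).mul (c1.pow _)).mul ((hψ.contDiffAt).comp z c4)

lemma kap_ne_zero {z0 : Fin (N + 1) → ℂ} {ψ : (Fin N → ℂ) × ℂ → ℂ} {z : Fin (N + 1) → ℂ}
    (h0 : ∀ x ∈ tsupport ψ, x.2 ≠ 0) (h : kap z0 ψ z ≠ 0) : z ∈ Phi z0 '' tsupport ψ := by
  unfold kap at h
  have h1 : ψ (fun i => (z i.succ - z0 i.succ) * (z 0 - z0 0)⁻¹, z 0 - z0 0) ≠ 0 :=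
    right_ne_zero_of_mul h
  have h2 := subset_tsupport ψ (Function.mem_support.mpr h1)
  refine ⟨_, h2, ?_⟩
  have h3 : z 0 - z0 0 ≠ 0 := h0 _ h2
  funext i
  refine Fin.cases ?_ (fun i => ?_) i
  · rw [Phi_zero]
    simp
  · rw [Phi_succ]
    simp only
    field_simp
    ring

/-- the derivative of `ζ ↦ Φ(a,ζ)` -/
noncomputable def dPhi (a : Fin N → ℂ) : ℂ →L[ℝ] (Fin (N + 1) → ℂ) :=
  ContinuousLinearMap.pi (fun i => (ContinuousLinearMap.mul ℝ ℂ).flip ((Fin.cons 1 a : Fin (N + 1) → ℂ) i))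

lemma dPhi_apply (a : Fin N → ℂ) (h : ℂ) (i : Fin (N + 1)) :
    dPhi a h i = h * (Fin.cons 1 a : Fin (N + 1) → ℂ) i := by
  simp [dPhi, mul_comm]

lemma hasFDerivAt_Phi (z0 : Fin (N + 1) → ℂ) (a : Fin N → ℂ) (ζ : ℂ) :
    HasFDerivAt (fun ζ => Phi z0 (a, ζ)) (dPhi a) ζ := by
  have : (fun ζ => Phi z0 (a, ζ)) = fun ζ => z0 + dPhi a ζ := by
    funext ζ i
    rw [Pi.add_apply, dPhi_apply]
    rfl
  rw [this]
  exact (dPhi a).hasFDerivAt.const_add z0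

lemma kap_Phi (z0 : Fin (N + 1) → ℂ) (ψ : (Fin N → ℂ) × ℂ → ℂ) (a : Fin N → ℂ) {ζ : ℂ}
    (hζ : ζ ≠ 0) : kap z0 ψ (Phi z0 (a, ζ)) =
      (((conj ζ)⁻¹) ^ (N + 1) * (ζ⁻¹) ^ N) * ψ (a, ζ) := by
  unfold kap
  rw [Phi_zero]
  simp only [Phi_succ, add_sub_cancel_left]
  congr 3
  funext i
  field_simp

/-- The main pointwise identity. -/
lemma key_identity (z0 : Fin (N + 1) → ℂ) {ψ : (Fin N → ℂ) × ℂ → ℂ} (hψ : ContDiff ℝ ∞ ψ)
    (hc : HasCompactSupport ψ) (h0 : ∀ x ∈ tsupport ψ, x.2 ≠ 0) (a : Fin N → ℂ) {ζ : ℂ}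
    (hζ : ζ ≠ 0) :
    ∑ j, db j (fun z => conj (z j - z0 j) * kap z0 ψ z) (Phi z0 (a, ζ)) * (‖ζ‖ ^ (2 * N) : ℝ) =
      dbar1 (fun ζ => ψ (a, ζ)) ζ := by
  have hk := kap_contDiff z0 hψ hc h0
  set z := Phi z0 (a, ζ) with hz
  have hkd : DifferentiableAt ℝ (kap z0 ψ) z := hk.differentiable (by simp) z
  set D := fderiv ℝ (kap z0 ψ) z with hD
  set w : Fin (N + 1) → ℂ := dPhi a ζ with hw
  have hwz : ∀ j, z j - z0 j = w j := by
    intro j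
    rw [hz, hw, dPhi_apply]
    simp [Phi]
  -- product rule
  have h1 : ∀ j, db j (fun z => conj (z j - z0 j) * kap z0 ψ z) z =
      conj (w j) * ((1 / 2 : ℂ) * (D (Pi.single j 1) + I * D (Pi.single j I))) + kap z0 ψ z := by
    intro j
    have c1 : HasFDerivAt (fun z : Fin (N + 1) → ℂ => conj (z j - z0 j))
        ((conjCLE : ℂ →L[ℝ] ℂ).comp (ContinuousLinearMap.proj j)) z := by
      have c2 : HasFDerivAt (fun z : Fin (N + 1) → ℂ => z j - z0 j)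
          (ContinuousLinearMap.proj j : (Fin (N + 1) → ℂ) →L[ℝ] ℂ) z :=
        (ContinuousLinearMap.proj j : (Fin (N + 1) → ℂ) →L[ℝ] ℂ).hasFDerivAt.sub_const _
      exact (conjCLE.hasFDerivAt).comp z c2
    have c3 := c1.fun_mul hkd.hasFDerivAt
    unfold db
    rw [c3.fderiv, ← hD, hwz j]
    simp only [add_apply, smul_apply, smul_eq_mul,
      ContinuousLinearMap.comp_apply, ContinuousLinearMap.proj_apply, Pi.single_eq_same]
    simp only [ContinuousLinearEquiv.coe_coe, conjCLE_apply, map_one, conj_I]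
    linear_combination (-(kap z0 ψ z) / 2) * I_mul_I
  -- the chain rule
  have hK : HasFDerivAt (fun ζ => kap z0 ψ (Phi z0 (a, ζ))) (D.comp (dPhi a)) ζ :=
    HasFDerivAt.comp (g := kap z0 ψ) (f := fun ζ => Phi z0 (a, ζ)) ζ hkd.hasFDerivAt
      (hasFDerivAt_Phi z0 a ζ)
  have h2 : (1 / 2 : ℂ) * (D w + I * D (I • w)) =
      conj ζ * dbar1 (fun ζ => kap z0 ψ (Phi z0 (a, ζ))) ζ := by
    have h3 := lin_identity (D.comp (dPhi a)) ζ
    have h4 : I • w = dPhi a (I * ζ) := by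
      funext i
      rw [Pi.smul_apply, hw, dPhi_apply, dPhi_apply, smul_eq_mul]
      ring
    unfold dbar1
    rw [hK.fderiv, h4, hw]
    simp only [ContinuousLinearMap.comp_apply] at h3 ⊢
    rw [h3]
    ring
  -- explicit formula for the slice
  have h5 : dbar1 (fun ζ => kap z0 ψ (Phi z0 (a, ζ))) ζ =
      (-(N + 1 : ℕ) * ((conj ζ)⁻¹) ^ (N + 1 + 1) * (ζ⁻¹) ^ N) * ψ (a, ζ) +
        (((conj ζ)⁻¹) ^ (N + 1) * (ζ⁻¹) ^ N) * dbar1 (fun ζ => ψ (a, ζ)) ζ := by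
    have e1 : (fun ζ => kap z0 ψ (Phi z0 (a, ζ))) =ᶠ[𝓝 ζ]
        fun ζ => (((conj ζ)⁻¹) ^ (N + 1) * (ζ⁻¹) ^ N) * ψ (a, ζ) := by
      filter_upwards [isOpen_ne.mem_nhds hζ] with ζ' hζ'
      exact kap_Phi z0 ψ a hζ'
    obtain ⟨d1, e2⟩ := dbar1_conj_inv_pow (N + 1) hζ
    have d2 : DifferentiableAt ℂ (fun ζ : ℂ => (ζ⁻¹) ^ N) ζ :=
      (differentiableAt_inv hζ).pow N
    have d3 : DifferentiableAt ℝ (fun ζ : ℂ => (ζ⁻¹) ^ N) ζ := d2.restrictScalars ℝ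
    have d4 : DifferentiableAt ℝ (fun ζ => ψ (a, ζ)) ζ :=
      (slice_contDiff hψ a).differentiable (by simp) ζ
    rw [dbar1_congr e1, dbar1_mul (d1.fun_mul d3) d4, dbar1_mul d1 d3, e2, dbar1_holo d2]
    ring
  have hnorm : ((‖ζ‖ ^ (2 * N) : ℝ) : ℂ) = (ζ * conj ζ) ^ N := by
    rw [Complex.mul_conj, Complex.normSq_eq_norm_sq]
    push_cast
    rw [← pow_mul]
  rw [← Finset.sum_mul]
  simp only [h1]
  rw [Finset.sum_add_distrib, sum_lin D w, h2, h5, Finset.sum_const, Finset.card_univ,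
    Fintype.card_fin, nsmul_eq_mul, hz, kap_Phi z0 ψ a hζ, hnorm]
  have hcζ : conj ζ ≠ 0 := by simpa using hζ
  have e1 : (conj ζ)⁻¹ * conj ζ = 1 := inv_mul_cancel₀ hcζ
  have e2 : ζ⁻¹ * ζ = 1 := inv_mul_cancel₀ hζ
  have e3 : ((conj ζ)⁻¹) ^ N * (ζ⁻¹) ^ N * (ζ * conj ζ) ^ N = 1 := by
    rw [← mul_pow, ← mul_pow]
    have : (conj ζ)⁻¹ * ζ⁻¹ * (ζ * conj ζ) = 1 := by
      field_simp
    rw [this, one_pow]
  have e4 : conj ζ * ((conj ζ)⁻¹) ^ (N + 1) = ((conj ζ)⁻¹) ^ N := by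
    rw [pow_succ]
    linear_combination ((conj ζ)⁻¹) ^ N * e1
  have e5 : conj ζ * ((conj ζ)⁻¹) ^ (N + 1 + 1) = ((conj ζ)⁻¹) ^ (N + 1) := by
    rw [pow_succ _ (N + 1)]
    linear_combination ((conj ζ)⁻¹) ^ (N + 1) * e1
  push_cast
  linear_combination (dbar1 (fun ζ => ψ (a, ζ)) ζ) * e3 +
    ((ζ⁻¹) ^ N * (ζ * conj ζ) ^ N * dbar1 (fun ζ => ψ (a, ζ)) ζ) * e4 -
    ((N + 1 : ℂ) * (ζ⁻¹) ^ N * (ζ * conj ζ) ^ N * ψ (a, ζ)) * e5

/-- local integrability plus the weak equations `∂̄_j u = g_j` on `Ω` -/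
structure WeakData (Ω : Set (Fin (N + 1) → ℂ)) (u : (Fin (N + 1) → ℂ) → F)
    (g : Fin (N + 1) → (Fin (N + 1) → ℂ) → F) : Prop where
  iu : ∀ K ⊆ Ω, IsCompact K → IntegrableOn u K
  ig : ∀ j, ∀ K ⊆ Ω, IsCompact K → IntegrableOn (g j) K
  weak : ∀ j, ∀ φ, IsTest Ω φ → ∫ z, (db j φ z) • u z = - ∫ z, φ z • g j z

lemma integrable_test {X : Type*} [TopologicalSpace X] [T2Space X] [MeasurableSpace X]
    [BorelSpace X] [SecondCountableTopology X]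
    {μ : Measure X} {Ω : Set X} {u : X → F}
    (hu : ∀ K ⊆ Ω, IsCompact K → IntegrableOn u K μ) {φ : X → ℂ} (hφ : Continuous φ)
    {K : Set X} (hK : IsCompact K) (hKΩ : K ⊆ Ω) (h0 : ∀ x, x ∉ K → φ x = 0) :
    Integrable (fun x => φ x • u x) μ := by
  have h1 : IntegrableOn (fun x => φ x • u x) K μ := by
    obtain ⟨C, hC⟩ := hK.exists_bound_of_continuousOn hφ.continuousOn
    have h2 : Integrable u (μ.restrict K) := hu K hKΩ hK
    refine h2.bdd_smul (C := C) ?_ ?_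
    · exact hφ.aestronglyMeasurable
    · exact (ae_restrict_mem hK.isClosed.measurableSet).mono hC
  rw [← integrableOn_univ]
  refine h1.of_forall_sdiff_eq_zero MeasurableSet.univ ?_
  intro x hx
  rw [h0 x hx.2, zero_smul]

lemma db_continuous {n : ℕ} (j : Fin n) {φ : (Fin n → ℂ) → ℂ} (hφ : ContDiff ℝ ∞ φ) :
    Continuous (db j φ) := by
  have h : Continuous (fderiv ℝ φ) := hφ.continuous_fderiv (by simp)
  unfold db
  have h4 : Continuous fun z => fderiv ℝ φ z (Pi.single j 1) := h.clm_apply continuous_const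
  have h5 : Continuous fun z => fderiv ℝ φ z (Pi.single j I) := h.clm_apply continuous_const
  fun_prop

lemma db_zero {n : ℕ} (j : Fin n) {φ : (Fin n → ℂ) → ℂ} {z : Fin n → ℂ} (hz : z ∉ tsupport φ) :
    db j φ z = 0 := by
  have h1 : φ =ᶠ[𝓝 z] fun _ => 0 := notMem_tsupport_iff_eventuallyEq.mp hz
  unfold db
  rw [h1.fderiv_eq]
  simp

theorem push {Ω : Set (Fin (N + 1) → ℂ)} {u : (Fin (N + 1) → ℂ) → F}
    {g : Fin (N + 1) → (Fin (N + 1) → ℂ) → F} (hd : WeakData Ω u g) (z0 : Fin (N + 1) → ℂ)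
    {ψ : (Fin N → ℂ) × ℂ → ℂ} (hψ : ContDiff ℝ ∞ ψ)
    (hc : HasCompactSupport ψ) (h0 : ∀ x ∈ tsupport ψ, x.2 ≠ 0)
    (hΩ : ∀ x ∈ tsupport ψ, Phi z0 x ∈ Ω) :
    ∫ x : (Fin N → ℂ) × ℂ, dbar1 (fun ζ => ψ (x.1, ζ)) x.2 • u (Phi z0 x) =
      - ∫ x : (Fin N → ℂ) × ℂ, ψ x •
        ∑ j, conj ((Fin.cons 1 x.1 : Fin (N + 1) → ℂ) j) • g j (Phi z0 x) := by
  set φ : Fin (N + 1) → (Fin (N + 1) → ℂ) → ℂ :=
    fun j z => conj (z j - z0 j) * kap z0 ψ z with hφ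
  have hk := kap_contDiff z0 hψ hc h0
  have hφs : ∀ j, ContDiff ℝ ∞ (φ j) := by
    intro j
    refine ContDiff.mul ?_ hk
    exact conjCLE.contDiff.comp (by fun_prop)
  have hKc : IsCompact (Phi z0 '' tsupport ψ) := hc.isCompact.image (continuous_Phi z0)
  have hφ0 : ∀ j z, z ∉ Phi z0 '' tsupport ψ → φ j z = 0 := by
    intro j z hz
    have : kap z0 ψ z = 0 := by
      by_contra hcon
      exact hz (kap_ne_zero h0 hcon)
    simp only [hφ, this, mul_zero]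
  have hts : ∀ j, tsupport (φ j) ⊆ Phi z0 '' tsupport ψ := by
    intro j
    apply closure_minimal _ hKc.isClosed
    intro z hz
    by_contra hcon
    exact hz (hφ0 j z hcon)
  have hKΩ : Phi z0 '' tsupport ψ ⊆ Ω := by
    rintro z ⟨x, hx, rfl⟩
    exact hΩ x hx
  have htest : ∀ j, IsTest Ω (φ j) := fun j =>
    ⟨hφs j, HasCompactSupport.intro hKc (hφ0 j), (hts j).trans hKΩ⟩
  have hdb0 : ∀ j z, z ∉ Phi z0 '' tsupport ψ → db j (φ j) z = 0 := fun j z hz =>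
    db_zero j (fun h => hz (hts j h))
  have i1 : ∀ j, Integrable (fun z => db j (φ j) z • u z) := fun j =>
    integrable_test hd.iu (db_continuous j (hφs j)) hKc hKΩ (hdb0 j)
  have i2 : ∀ j, Integrable (fun z => φ j z • g j z) := fun j =>
    integrable_test (hd.ig j) (hφs j).continuous hKc hKΩ (hφ0 j)
  have h1 : ∫ z, ∑ j, db j (φ j) z • u z = - ∫ z, ∑ j, φ j z • g j z := by
    rw [integral_finsetSum _ (fun j _ => i1 j), integral_finsetSum _ (fun j _ => i2 j),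
      ← Finset.sum_neg_distrib]
    apply Finset.sum_congr rfl
    intro j _
    exact hd.weak j (φ j) (htest j)
  rw [cv_integral z0 (integrable_finsetSum _ (fun j _ => i1 j)).aestronglyMeasurable,
    cv_integral z0 (integrable_finsetSum _ (fun j _ => i2 j)).aestronglyMeasurable] at h1
  have hne : ∀ᵐ x : (Fin N → ℂ) × ℂ, x.2 ≠ 0 := by
    have h2 : ∀ᵐ ζ : ℂ, ζ ≠ 0 := ae_ne 0
    exact (Measure.quasiMeasurePreserving_snd (μ := (volume : Measure (Fin N → ℂ)))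
      (ν := (volume : Measure ℂ))).ae h2
  have e1 : ∫ x : (Fin N → ℂ) × ℂ, (‖x.2‖ ^ (2 * N)) • ∑ j, db j (φ j) (Phi z0 x) • u (Phi z0 x) =
      ∫ x : (Fin N → ℂ) × ℂ, dbar1 (fun ζ => ψ (x.1, ζ)) x.2 • u (Phi z0 x) := by
    apply integral_congr_ae
    filter_upwards [hne] with x hx
    have h3 := key_identity z0 hψ hc h0 x.1 hx
    rw [← Finset.sum_smul, ← h3, ← Finset.sum_mul, mul_smul, Complex.coe_smul, smul_comm]
  have e2 : ∫ x : (Fin N → ℂ) × ℂ, (‖x.2‖ ^ (2 * N)) • ∑ j, φ j (Phi z0 x) • g j (Phi z0 x) =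
      ∫ x : (Fin N → ℂ) × ℂ, ψ x •
        ∑ j, conj ((Fin.cons 1 x.1 : Fin (N + 1) → ℂ) j) • g j (Phi z0 x) := by
    apply integral_congr_ae
    filter_upwards [hne] with x hx
    obtain ⟨a, ζ⟩ := x
    simp only at hx
    rw [Finset.smul_sum, Finset.smul_sum]
    apply Finset.sum_congr rfl
    intro j _
    rw [← Complex.coe_smul, smul_smul, smul_smul]
    congr 1
    simp only [hφ]
    rw [kap_Phi z0 ψ a hx]
    have hnorm : ((‖ζ‖ ^ (2 * N) : ℝ) : ℂ) = (ζ * conj ζ) ^ N := by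
      rw [Complex.mul_conj, Complex.normSq_eq_norm_sq]
      push_cast
      rw [← pow_mul]
    rw [hnorm]
    have e3 : ((conj ζ)⁻¹) ^ N * (ζ⁻¹) ^ N * (ζ * conj ζ) ^ N = 1 := by
      have hcζ : conj ζ ≠ 0 := by simpa using hx
      rw [← mul_pow, ← mul_pow]
      have : (conj ζ)⁻¹ * ζ⁻¹ * (ζ * conj ζ) = 1 := by
        field_simp
      rw [this, one_pow]
    have e4 : conj (Phi z0 (a, ζ) j - z0 j) =
        conj ζ * conj ((Fin.cons 1 a : Fin (N + 1) → ℂ) j) := by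
      rw [← map_mul]
      congr 1
      simp [Phi]
    have e5 : conj ζ * (conj ζ)⁻¹ = 1 := mul_inv_cancel₀ (by simpa using hx)
    rw [e4, pow_succ]
    linear_combination (conj ((Fin.cons 1 a : Fin (N + 1) → ℂ) j) * ψ (a, ζ) *
      (conj ζ * (conj ζ)⁻¹)) * e3 + (conj ((Fin.cons 1 a : Fin (N + 1) → ℂ) j) * ψ (a, ζ)) * e5
  rw [e1, e2] at h1
  exact h1

end Q71.UC
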