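import Mathlib

/-! Definitions used in the statement of the strong unique continuation theorem
for `|∂̄ u| ≤ V |u|` with critical potential `V ∈ L^{2n}_loc` (problem MP_b3ccf3_an). -/

open MeasureTheory Filter Topology
open scoped ContDiff

namespace Q71.SUCP

variable {n m : ℕ}

/-- `f ∈ L^s_loc(Ω)`: `f` is in `L^s(K)` for every compact `K ⊆ Ω`. -/
def LocLp {E : Type*} [NormedAddCommGroup E] (Ω : Set (Fin n → ℂ)) (s : ℝ)
    (f : (Fin n → ℂ) → E) : Prop :=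
  ∀ K : Set (Fin n → ℂ), IsCompact K → K ⊆ Ω → MemLp f (ENNReal.ofReal s) (volume.restrict K)

/-- Test functions on `Ω`: complex valued, smooth in the real sense, compactly supported in `Ω`. -/
def IsTest (Ω : Set (Fin n → ℂ)) (φ : (Fin n → ℂ) → ℂ) : Prop :=
  ContDiff ℝ ∞ φ ∧ HasCompactSupport φ ∧ tsupport φ ⊆ Ω

/-- On `Ω`, the function `g` is the distributional derivative of `u` in the real direction `v`. -/
def HasWeakDeriv (Ω : Set (Fin n → ℂ)) (v : Fin n → ℂ)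
    (u g : (Fin n → ℂ) → EuclideanSpace ℂ (Fin m)) : Prop :=
  ∀ φ : (Fin n → ℂ) → ℂ, IsTest Ω φ →
    ∫ z, (fderiv ℝ φ z v) • u z = - ∫ z, φ z • g z

/-- `u ∈ W^{1,s}_loc(Ω; ℂ^m)`, the distributional derivatives with respect to `x_j = Re z_j` and
`y_j = Im z_j` being `ux j` and `uy j`. -/
structure W1Loc (Ω : Set (Fin n → ℂ)) (s : ℝ) (u : (Fin n → ℂ) → EuclideanSpace ℂ (Fin m))
    (ux uy : Fin n → (Fin n → ℂ) → EuclideanSpace ℂ (Fin m)) : Prop where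
  locLp : LocLp Ω s u
  locLp_x : ∀ j, LocLp Ω s (ux j)
  locLp_y : ∀ j, LocLp Ω s (uy j)
  weak_x : ∀ j, HasWeakDeriv Ω (Pi.single j 1) u (ux j)
  weak_y : ∀ j, HasWeakDeriv Ω (Pi.single j Complex.I) u (uy j)

/-- `∂u/∂z̄_j = (∂u/∂x_j + i ∂u/∂y_j) / 2`. -/
noncomputable def dbar (ux uy : Fin n → (Fin n → ℂ) → EuclideanSpace ℂ (Fin m)) (j : Fin n)
    (z : Fin n → ℂ) : EuclideanSpace ℂ (Fin m) :=
  (1 / 2 : ℂ) • (ux j z + Complex.I • uy j z)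

/-- The Euclidean norm of the collection of all `∂u_k/∂z̄_j` at `z`. -/
noncomputable def dbarNorm (ux uy : Fin n → (Fin n → ℂ) → EuclideanSpace ℂ (Fin m))
    (z : Fin n → ℂ) : ℝ :=
  √(∑ j, ∑ k, ‖dbar ux uy j z k‖ ^ 2)

/-- The Euclidean ball `B(z₀, r)` of `ℂ^n`. -/
def eball (z0 : Fin n → ℂ) (r : ℝ) : Set (Fin n → ℂ) :=
  {z | ∑ i, ‖z i - z0 i‖ ^ 2 < r ^ 2}

/-- `u` vanishes to infinite order in the `L^s` sense at `z₀`:
`r^{-M} ∫_{B(z₀,r)} |u|^s → 0` as `r → 0+`, for every `M`. -/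
def VanishesToInfiniteOrder (s : ℝ) (u : (Fin n → ℂ) → EuclideanSpace ℂ (Fin m))
    (z0 : Fin n → ℂ) : Prop :=
  ∀ M : ℕ, Tendsto (fun r : ℝ => (∫⁻ z in eball z0 r, ‖u z‖ₑ ^ s) / ENNReal.ofReal (r ^ M))
    (𝓝[>] 0) (𝓝 0)

/-- Q1 of MP_b3ccf3_an, as a proposition. -/
def Q1 : Prop :=
  ∀ (n m : ℕ), 2 ≤ n → 1 ≤ m → ∀ Ω : Set (Fin n → ℂ), IsOpen Ω → IsConnected Ω →
    ∀ (u : (Fin n → ℂ) → EuclideanSpace ℂ (Fin m))
      (ux uy : Fin n → (Fin n → ℂ) → EuclideanSpace ℂ (Fin m)),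
    W1Loc Ω (4 * n / (2 * n + 1)) u ux uy →
    ∀ V : (Fin n → ℂ) → ℝ, LocLp Ω (2 * n) V →
    (∀ᵐ z ∂(volume.restrict Ω), dbarNorm ux uy z ≤ V z * ‖u z‖) →
    ∀ z0 ∈ Ω, VanishesToInfiniteOrder (4 * n / (2 * n - 1)) u z0 →
    ∀ᵐ z ∂(volume.restrict Ω), u z = 0

end Q71.SUCP
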