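import Pool.Agent.Q71.UC.Glob
import Pool.Agent.Q71.UC.Stmt

set_option linter.unusedSectionVars false
set_option linter.unusedVariables false

open MeasureTheory Set Filter Topology Metric Complex
open scoped ContDiff ComplexConjugate ENNReal

namespace Q71.UC

open Q71.SUCP (LocLp HasWeakDeriv W1Loc dbar dbarNorm eball VanishesToInfiniteOrder)

lemma LocLp.integrableOn {n : ℕ} {E : Type*} [NormedAddCommGroup E] {Ω : Set (Fin n → ℂ)} {s : ℝ}
    (hs : 1 ≤ s) {f : (Fin n → ℂ) → E} (h : LocLp Ω s f) :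
    ∀ K ⊆ Ω, IsCompact K → IntegrableOn f K := by
  intro K hK hKc
  have : IsFiniteMeasure (volume.restrict K) :=
    ⟨by rw [Measure.restrict_apply_univ]; exact hKc.measure_lt_top⟩
  refine (h K hKc hK).integrable ?_
  rw [← ENNReal.ofReal_one]
  exact ENNReal.ofReal_le_ofReal hs

lemma LocLp.aesm {n : ℕ} {E : Type*} [NormedAddCommGroup E] {Ω : Set (Fin n → ℂ)} {s : ℝ}
    (hs : 1 ≤ s) (hΩ : IsOpen Ω) {f : (Fin n → ℂ) → E} (h : LocLp Ω s f) :
    AEStronglyMeasurable f (volume.restrict Ω) := by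
  have h1 : LocallyIntegrableOn f Ω volume := by
    rw [locallyIntegrableOn_iff hΩ.isLocallyClosed]
    exact fun K hK hKc => LocLp.integrableOn hs h K hK hKc
  exact h1.aestronglyMeasurable

lemma ae_restrict_sub {n : ℕ} {Ω K : Set (Fin n → ℂ)} (hK : K ⊆ Ω) {P : (Fin n → ℂ) → Prop}
    (h : ∀ᵐ z ∂(volume.restrict Ω), P z) : ∀ᵐ z ∂(volume.restrict K), P z :=
  ae_restrict_of_ae_restrict_of_subset hK h

lemma test_congr {n : ℕ} {E : Type*} [NormedAddCommGroup E] [NormedSpace ℂ E]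
    {Ω : Set (Fin n → ℂ)} (mΩ : MeasurableSet Ω) {φ : (Fin n → ℂ) → ℂ}
    (h0 : ∀ z, z ∉ Ω → φ z = 0) {u v : (Fin n → ℂ) → E}
    (huv : u =ᵐ[volume.restrict Ω] v) : ∫ z, φ z • u z = ∫ z, φ z • v z := by
  apply integral_congr_ae
  have h1 := (ae_restrict_iff' mΩ).mp huv
  filter_upwards [h1] with z hz
  by_cases hzΩ : z ∈ Ω
  · rw [hz hzΩ]
  · rw [h0 z hzΩ, zero_smul, zero_smul]

lemma fderiv_zero {n : ℕ} {φ : (Fin n → ℂ) → ℂ} {z v : Fin n → ℂ} (hz : z ∉ tsupport φ) :
    fderiv ℝ φ z v = 0 := by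
  have h1 : φ =ᶠ[𝓝 z] fun _ => 0 := notMem_tsupport_iff_eventuallyEq.mp hz
  rw [h1.fderiv_eq]
  simp

/-- the dyadic argument -/
lemma van_of {N m : ℕ} {Ω : Set (Fin (N + 1) → ℂ)} (hΩ : IsOpen Ω)
    {u u' : (Fin (N + 1) → ℂ) → EuclideanSpace ℂ (Fin m)}
    (hu' : u =ᵐ[volume.restrict Ω] u') (mu' : StronglyMeasurable u')
    {z0 : Fin (N + 1) → ℂ} (hz0 : z0 ∈ Ω)
    (hv : VanishesToInfiniteOrder (2 * qe N) u z0) : Van u' z0 := by
  intro M hM
  have hq0 : 0 < qe N := lt_of_lt_of_le one_pos (qe_ge N)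
  obtain ⟨ρ, hρ0, hρ⟩ := Metric.nhds_basis_ball.mem_iff.mp (hΩ.mem_nhds hz0)
  obtain ⟨M1, hM1⟩ := exists_nat_gt (2 * M)
  -- small radii
  have h1 := (hv M1).eventually_lt_const (show (0 : ℝ≥0∞) < 1 by norm_num)
  obtain ⟨r0, hr0, hr⟩ := (mem_nhdsGT_iff_exists_Ioo_subset).mp h1
  have hr0' : (0 : ℝ) < r0 := hr0
  set c : ℝ := (N : ℝ) + 1 with hc
  have hc1 : 1 ≤ c := by
    rw [hc]
    have : (0 : ℝ) ≤ N := Nat.cast_nonneg N
    linarith
  have hc0 : 0 < c := by linarith
  have hcomp : ∀ r : ℝ, 0 < r → ball z0 r ⊆ eball z0 (c * r) := by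
    intro r hr z hz
    rw [mem_ball_iff_norm] at hz
    show ∑ i, ‖z i - z0 i‖ ^ 2 < (c * r) ^ 2
    calc ∑ i, ‖z i - z0 i‖ ^ 2 < ∑ i : Fin (N + 1), r ^ 2 := by
          apply Finset.sum_lt_sum_of_nonempty Finset.univ_nonempty
          intro i _
          have := (norm_le_pi_norm (z - z0) i).trans_lt hz
          rw [Pi.sub_apply] at this
          gcongr
      _ = c * r ^ 2 := by
          rw [Finset.sum_const, Finset.card_univ, Fintype.card_fin, nsmul_eq_mul]
          push_cast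
          rfl
      _ ≤ (c * r) ^ 2 := by
          rw [mul_pow]
          apply mul_le_mul_of_nonneg_right _ (by positivity)
          nlinarith
  set δ : ℝ := min ρ (r0 / (2 * c)) with hδ
  have hδ0 : 0 < δ := lt_min hρ0 (by positivity)
  refine ⟨δ, hδ0, ?_⟩
  set f : (Fin (N + 1) → ℂ) → ℝ≥0∞ := fun z => ‖u' z‖ₑ ^ (2 * qe N) with hf
  have mun : Measurable (fun z => ‖u' z‖ₑ) := mu'.enorm
  have mf : Measurable f := mun.pow_const _
  have hI : ∀ r : ℝ, 0 < r → r ≤ δ → ∫⁻ z in ball z0 r, f z ≤ ENNReal.ofReal ((c * r) ^ M1) := by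
    intro r hr0 hrδ
    have e1 : ball z0 r ⊆ Ω := (ball_subset_ball (hrδ.trans (min_le_left _ _))).trans hρ
    have e2 : ∫⁻ z in ball z0 r, f z = ∫⁻ z in ball z0 r, ‖u z‖ₑ ^ (2 * qe N) := by
      apply lintegral_congr_ae
      filter_upwards [ae_restrict_sub e1 hu'] with z hz
      rw [hf]
      simp only
      rw [hz]
    have e3 : c * r ∈ Ioo 0 r0 := by
      refine ⟨by positivity, ?_⟩
      have : r ≤ r0 / (2 * c) := hrδ.trans (min_le_right _ _)
      rw [le_div_iff₀ (by positivity)] at this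
      nlinarith
    have e4 := hr e3
    have e5 : (∫⁻ z in eball z0 (c * r), ‖u z‖ₑ ^ (2 * qe N)) / ENNReal.ofReal ((c * r) ^ M1)
        < 1 := e4
    rw [e2]
    refine (lintegral_mono_set (hcomp r hr0)).trans ?_
    have e6 : ENNReal.ofReal ((c * r) ^ M1) ≠ 0 := by
      rw [ne_eq, ENNReal.ofReal_eq_zero, not_le]
      positivity
    rw [ENNReal.div_lt_iff (Or.inl e6) (Or.inl ENNReal.ofReal_ne_top), one_mul] at e5
    exact e5.le
  -- reduce to the square
  have hsq : ∀ z, ‖u' z‖ₑ ^ qe N * ‖z - z0‖ₑ ^ (-M) ≤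
      1 + f z * ‖z - z0‖ₑ ^ (-(2 * M)) := by
    intro z
    have := le_one_add_rpow (‖u' z‖ₑ ^ qe N * ‖z - z0‖ₑ ^ (-M)) (q := 2) (by norm_num)
    refine this.trans (le_of_eq ?_)
    rw [ENNReal.mul_rpow_of_nonneg _ _ (by norm_num), ← ENNReal.rpow_mul, ← ENNReal.rpow_mul, hf]
    simp only
    rw [show qe N * 2 = 2 * qe N by ring, show -M * 2 = -(2 * M) by ring]
  refine lt_of_le_of_lt (lintegral_mono hsq) ?_
  rw [lintegral_add_left measurable_const]
  apply ENNReal.add_lt_top.mpr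
  constructor
  · simp only [lintegral_const, Measure.restrict_apply_univ, one_mul]
    exact measure_ball_lt_top
  -- the dyadic bound
  set rj : ℕ → ℝ := fun j => δ * (1 / 2) ^ j with hrj
  have hrj0 : ∀ j, 0 < rj j := fun j => by simp only [hrj]; positivity
  have hrjδ : ∀ j, rj j ≤ δ := by
    intro j
    simp only [hrj]
    have : ((1 : ℝ) / 2) ^ j ≤ 1 := pow_le_one₀ (by norm_num) (by norm_num)
    nlinarith
  have hpt : ∀ᵐ z ∂(volume.restrict (ball z0 δ)), f z * ‖z - z0‖ₑ ^ (-(2 * M)) ≤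
      ∑' j, (ball z0 (rj j)).indicator
        (fun z => f z * ENNReal.ofReal (rj (j + 1)) ^ (-(2 * M))) z := by
    have hne : ∀ᵐ z : Fin (N + 1) → ℂ, z ≠ z0 := by
      rw [ae_iff]
      simp
    filter_upwards [ae_restrict_mem measurableSet_ball, ae_restrict_of_ae hne] with z hz hzne
    rw [mem_ball_iff_norm] at hz
    have hzpos : 0 < ‖z - z0‖ := norm_pos_iff.mpr (sub_ne_zero.mpr hzne)
    obtain ⟨j, hj1, hj2⟩ : ∃ j : ℕ, rj (j + 1) ≤ ‖z - z0‖ ∧ ‖z - z0‖ < rj j := by
      have hex : ∃ j : ℕ, rj (j + 1) ≤ ‖z - z0‖ := by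
        have : Tendsto (fun j : ℕ => rj (j + 1)) atTop (𝓝 0) := by
          have h2 : Tendsto (fun j : ℕ => ((1 : ℝ) / 2) ^ (j + 1)) atTop (𝓝 0) :=
            (tendsto_add_atTop_iff_nat 1).mpr
              (tendsto_pow_atTop_nhds_zero_of_lt_one (by norm_num) (by norm_num))
          have h3 := h2.const_mul δ
          rwa [mul_zero] at h3
        exact (this.eventually_le_const hzpos).exists
      classical
      refine ⟨Nat.find hex, Nat.find_spec hex, ?_⟩
      by_cases h0 : Nat.find hex = 0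
      · rw [h0]
        simp only [hrj, pow_zero, mul_one]
        exact hz
      · have h4 := Nat.find_min hex (Nat.sub_one_lt h0)
        rw [Nat.sub_add_cancel (Nat.one_le_iff_ne_zero.mpr h0)] at h4
        exact not_le.mp h4
    refine le_trans ?_ (ENNReal.le_tsum j)
    have hmem : z ∈ ball z0 (rj j) := by rwa [mem_ball_iff_norm]
    rw [indicator_of_mem hmem]
    apply mul_le_mul_right
    apply rpow_neg_anti (by positivity)
    rw [← ofReal_norm]
    exact ENNReal.ofReal_le_ofReal hj1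
  refine lt_of_le_of_lt (lintegral_mono_ae hpt) ?_
  rw [lintegral_tsum (fun j => ((mf.mul_const _).indicator measurableSet_ball).aemeasurable)]
  -- bound of each term
  set θ : ℝ := (1 / 2) ^ ((M1 : ℝ) - 2 * M) with hθ
  have hθ0 : 0 < θ := by positivity
  have hθ1 : θ < 1 := by
    rw [hθ]
    exact Real.rpow_lt_one (by norm_num) (by norm_num) (by linarith)
  set Cc : ℝ := (c * δ) ^ M1 * (δ / 2) ^ (-(2 * M)) with hCc
  have hterm : ∀ j : ℕ, ∫⁻ z in ball z0 δ, (ball z0 (rj j)).indicator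
        (fun z => f z * ENNReal.ofReal (rj (j + 1)) ^ (-(2 * M))) z ≤
        ENNReal.ofReal (Cc * θ ^ j) := by
    intro j
    calc ∫⁻ z in ball z0 δ, (ball z0 (rj j)).indicator
            (fun z => f z * ENNReal.ofReal (rj (j + 1)) ^ (-(2 * M))) z
          ≤ ∫⁻ z, (ball z0 (rj j)).indicator
            (fun z => f z * ENNReal.ofReal (rj (j + 1)) ^ (-(2 * M))) z :=
          setLIntegral_le_lintegral _ _
      _ = (∫⁻ z in ball z0 (rj j), f z) * ENNReal.ofReal (rj (j + 1)) ^ (-(2 * M)) := by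
          rw [lintegral_indicator measurableSet_ball, lintegral_mul_const _ mf]
      _ ≤ ENNReal.ofReal ((c * rj j) ^ M1) * ENNReal.ofReal (rj (j + 1)) ^ (-(2 * M)) :=
          mul_le_mul_left (hI _ (hrj0 j) (hrjδ j)) _
      _ = ENNReal.ofReal (Cc * θ ^ j) := by
          rw [ENNReal.ofReal_rpow_of_pos (hrj0 _), ← ENNReal.ofReal_mul (by
            have := (hrj0 j).le
            positivity)]
          congr 1
          have e1 : rj (j + 1) = (δ / 2) * (1 / 2) ^ j := by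
            simp only [hrj]
            ring
          have e2 : θ ^ j = ((1 / 2 : ℝ) ^ j) ^ M1 * (((1 / 2 : ℝ) ^ j)) ^ (-(2 * M)) := by
            rw [hθ, ← Real.rpow_natCast (((1 : ℝ) / 2) ^ ((M1 : ℝ) - 2 * M)),
              ← Real.rpow_mul (by norm_num), ← Real.rpow_natCast ((1 : ℝ) / 2) j,
              ← Real.rpow_natCast (((1 : ℝ) / 2) ^ (j : ℝ)) M1,
              ← Real.rpow_mul (by norm_num), ← Real.rpow_mul (by norm_num),
              ← Real.rpow_add (by norm_num)]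
            congr 1
            ring
          rw [e1, Real.mul_rpow (by positivity) (by positivity), e2, hCc]
          simp only [hrj]
          rw [mul_pow, mul_pow, mul_pow]
          generalize ((1 : ℝ) / 2) ^ j = w
          ring
  refine lt_of_le_of_lt (ENNReal.tsum_le_tsum hterm) ?_
  have hsum : Summable (fun j : ℕ => Cc * θ ^ j) :=
    (summable_geometric_of_lt_one hθ0.le hθ1).mul_left _
  rw [← ENNReal.ofReal_tsum_of_nonneg (fun j => by positivity) hsum]
  exact ENNReal.ofReal_lt_top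

end Q71.UC
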