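import Pool.Agent.Q71.UC.Fub

set_option linter.unusedSectionVars false
set_option linter.unusedVariables false

open MeasureTheory Set Filter Topology Metric Complex
open scoped ContDiff ComplexConjugate ENNReal

namespace Q71.UC

variable {N : ℕ} {F : Type*} [NormedAddCommGroup F] [NormedSpace ℂ F] [CompleteSpace F]

lemma TT_le (h : (Fin N → ℂ) × ℂ → F) (x : (Fin N → ℂ) × ℂ) : ‖TT h x‖ₑ ≤
      ∫⁻ ζ : ℂ, ‖x.2 - ζ‖ₑ⁻¹ * ‖h (x.1, ζ)‖ₑ := by
  unfold TT
  rw [enorm_smul]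
  have e1 : ‖(Real.pi : ℂ)⁻¹‖ₑ ≤ 1 := by
    rw [← ofReal_norm, norm_inv, Complex.norm_real, Real.norm_of_nonneg Real.pi_pos.le,
      ← ENNReal.ofReal_one]
    apply ENNReal.ofReal_le_ofReal
    rw [inv_le_one₀ Real.pi_pos]
    have := Real.pi_gt_three
    linarith
  calc ‖(Real.pi : ℂ)⁻¹‖ₑ * ‖∫ ζ : ℂ, (x.2 - ζ)⁻¹ • h (x.1, ζ)‖ₑ
      ≤ 1 * ∫⁻ ζ : ℂ, ‖(x.2 - ζ)⁻¹ • h (x.1, ζ)‖ₑ :=
        mul_le_mul' e1 (enorm_integral_le_lintegral_enorm _)
    _ ≤ ∫⁻ ζ : ℂ, ‖x.2 - ζ‖ₑ⁻¹ * ‖h (x.1, ζ)‖ₑ := by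
        rw [one_mul]
        apply lintegral_mono_ae
        filter_upwards [ae_ne x.2] with ζ hζ
        rw [enorm_smul, enorm_inv (sub_ne_zero.mpr (Ne.symm hζ))]

lemma dbar1_zero_of_small {χ : ℂ → ℂ} {s : ℝ} (cs : ∀ ζ, ‖ζ‖ ≤ s → χ ζ = 1) {ζ : ℂ}
    (h : ‖ζ‖ < s) : dbar1 χ ζ = 0 := by
  have h1 : χ =ᶠ[𝓝 ζ] fun _ => 1 := by
    have h6 : ∀ᶠ w : ℂ in 𝓝 ζ, ‖w‖ < s := (continuous_norm.tendsto _).eventually_lt_const h
    filter_upwards [h6] with w hw using cs w hw.le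
  rw [dbar1_congr h1]
  unfold dbar1
  simp

theorem rep {Ω : Set (Fin (N + 1) → ℂ)} {u : (Fin (N + 1) → ℂ) → F}
    {g : Fin (N + 1) → (Fin (N + 1) → ℂ) → F} (hd : WeakData Ω u g) (z0 : Fin (N + 1) → ℂ)
    {A R : ℝ} (hΩ : ∀ x : (Fin N → ℂ) × ℂ, ‖x.1‖ < A → ‖x.2‖ < R → Phi z0 x ∈ Ω)
    (mU : StronglyMeasurable (fun x => u (Phi z0 x)))
    (mG : StronglyMeasurable (GG z0 g))
    (hU : ∀ k : ℕ, IntegrableOn (fun x : (Fin N → ℂ) × ℂ => (‖x.2‖⁻¹) ^ k * ‖u (Phi z0 x)‖)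
      (ball (0 : Fin N → ℂ) A ×ˢ ball (0 : ℂ) R))
    (hG : ∀ k : ℕ, IntegrableOn (fun x : (Fin N → ℂ) × ℂ => (‖x.2‖⁻¹) ^ k * ‖GG z0 g x‖)
      (ball (0 : Fin N → ℂ) A ×ˢ ball (0 : ℂ) R))
    {s t : ℝ} (hs : 0 < s) (hst : s < t) (ht : t < R) :
    ∃ C : ℝ≥0∞, C < ⊤ ∧ ∀ k : ℕ, ∀ᵐ x : (Fin N → ℂ) × ℂ, ‖x.1‖ < A → ‖x.2‖ < s →
      ‖u (Phi z0 x)‖ₑ * ‖x.2‖ₑ ^ (-(k : ℝ)) ≤
        (∫⁻ ζ in ball (0 : ℂ) s, ‖GG z0 g (x.1, ζ)‖ₑ * ‖ζ‖ₑ ^ (-(k : ℝ)) * ‖x.2 - ζ‖ₑ⁻¹) +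
        C * ∫⁻ ζ in ball (0 : ℂ) t \ ball 0 s,
          (‖GG z0 g (x.1, ζ)‖ₑ + ‖u (Phi z0 (x.1, ζ))‖ₑ) * ‖ζ‖ₑ ^ (-(k : ℝ)) * ‖x.2 - ζ‖ₑ⁻¹ := by
  obtain ⟨χ, hχ, hχ1, hχs, hχt⟩ := exists_chi hs (show s < (s + t) / 2 by linarith)
  have htt : (s + t) / 2 < t := by linarith
  have hdχc : Continuous (dbar1 χ) := dbar1_continuous hχ
  have hdχs : HasCompactSupport (dbar1 χ) := by
    refine HasCompactSupport.intro (isCompact_closedBall (0 : ℂ) ((s + t) / 2)) ?_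
    intro ζ hζ
    rw [mem_closedBall_zero_iff, not_le] at hζ
    exact dbar1_zero_of_large hχt hζ
  obtain ⟨Cd, hCd⟩ := hdχs.exists_bound_of_continuous hdχc
  have hCd0 : 0 ≤ Cd := (norm_nonneg _).trans (hCd 0)
  refine ⟨max 1 (ENNReal.ofReal Cd), max_lt ENNReal.one_lt_top ENNReal.ofReal_lt_top, ?_⟩
  intro k
  set Reg : Set ((Fin N → ℂ) × ℂ) := ball (0 : Fin N → ℂ) A ×ˢ ball (0 : ℂ) R with hReg
  have mReg : MeasurableSet Reg := measurableSet_ball.prod measurableSet_ball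
  have oReg : IsOpen Reg := isOpen_ball.prod isOpen_ball
  have memReg : ∀ x : (Fin N → ℂ) × ℂ, x ∈ Reg ↔ ‖x.1‖ < A ∧ ‖x.2‖ < R := by
    intro x
    rw [hReg, mem_prod, mem_ball_zero_iff, mem_ball_zero_iff]
  set h0 : (Fin N → ℂ) × ℂ → F := fun x =>
    ((x.2⁻¹) ^ k) • (dbar1 χ x.2 • u (Phi z0 x) + χ x.2 • GG z0 g x) with hh0
  set h : (Fin N → ℂ) × ℂ → F := Reg.indicator h0 with hhdef
  have mχ : Measurable χ := hχ.continuous.measurable
  have mdχ : Measurable (dbar1 χ) := hdχc.measurable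
  have mh0 : StronglyMeasurable h0 := by
    refine StronglyMeasurable.smul (Measurable.stronglyMeasurable (by fun_prop)) ?_
    exact (StronglyMeasurable.smul (mdχ.comp measurable_snd).stronglyMeasurable mU).add
      (StronglyMeasurable.smul (mχ.comp measurable_snd).stronglyMeasurable mG)
  have mh : StronglyMeasurable h := mh0.indicator mReg
  have hh : Integrable h := by
    rw [hhdef, integrable_indicator_iff mReg]
    have h1 : IntegrableOn (fun x : (Fin N → ℂ) × ℂ => Cd * ((‖x.2‖⁻¹) ^ k * ‖u (Phi z0 x)‖) +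
        1 * ((‖x.2‖⁻¹) ^ k * ‖GG z0 g x‖)) Reg := ((hU k).const_mul _).add ((hG k).const_mul _)
    refine Integrable.mono' h1 mh0.aestronglyMeasurable (Eventually.of_forall fun x => ?_)
    rw [hh0]
    simp only
    rw [norm_smul, norm_pow, norm_inv]
    calc (‖x.2‖⁻¹) ^ k * ‖dbar1 χ x.2 • u (Phi z0 x) + χ x.2 • GG z0 g x‖ ≤
        (‖x.2‖⁻¹) ^ k * (Cd * ‖u (Phi z0 x)‖ + 1 * ‖GG z0 g x‖) := by
          gcongr
          refine (norm_add_le _ _).trans ?_
          rw [norm_smul, norm_smul]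
          gcongr
          · exact hCd _
          · exact hχ1 _
      _ = _ := by ring
  -- the difference
  set D : (Fin N → ℂ) × ℂ → F := fun x =>
    ((x.2⁻¹) ^ k * χ x.2) • u (Phi z0 x) - TT h x with hD
  have iL : IntegrableOn (fun x : (Fin N → ℂ) × ℂ => ((x.2⁻¹) ^ k * χ x.2) • u (Phi z0 x)) Reg := by
    refine Integrable.mono' (hU k) ?_ (Eventually.of_forall fun x => ?_)
    · exact (StronglyMeasurable.smul (Measurable.stronglyMeasurable (by fun_prop))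
        mU).aestronglyMeasurable
    · rw [norm_smul, norm_mul, norm_pow, norm_inv]
      calc (‖x.2‖⁻¹) ^ k * ‖χ x.2‖ * ‖u (Phi z0 x)‖ ≤ (‖x.2‖⁻¹) ^ k * 1 * ‖u (Phi z0 x)‖ := by
            gcongr
            exact hχ1 _
        _ = _ := by ring
  have iT : IntegrableOn (TT h) Reg := by
    refine (intTT mh hh (S := ball (0 : ℂ) R) measurableSet_ball measure_ball_lt_top).mono_set ?_
    intro x hx
    exact ⟨mem_univ _, hx.2⟩
  have iD : IntegrableOn D Reg := iL.sub iT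
  have hzero : ∀ᵐ x : (Fin N → ℂ) × ℂ, x ∈ Reg → D x = 0 := by
    refine oReg.ae_eq_zero_of_integral_contDiff_smul_eq_zero iD.locallyIntegrableOn ?_
    intro φ hφ hφc hφs
    set θ : (Fin N → ℂ) × ℂ → ℂ := fun x => ((φ x : ℝ) : ℂ) with hθdef
    have hθ : ContDiff ℝ ∞ θ := Complex.ofRealCLM.contDiff.comp hφ
    have hsupp : Function.support θ = Function.support φ := by
      ext x
      simp [hθdef]
    have htsupp : tsupport θ = tsupport φ := by
      unfold tsupport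
      rw [hsupp]
    have hθc : HasCompactSupport θ := by
      unfold HasCompactSupport
      rw [htsupp]
      exact hφc
    have hθs : ∀ x ∈ tsupport θ, ‖x.1‖ < A := by
      intro x hx
      rw [htsupp] at hx
      exact ((memReg x).mp (hφs hx)).1
    have hB := B2 hd z0 hΩ mU.aestronglyMeasurable mG.aestronglyMeasurable hU hG hθ hθc hθs hχ
      (htt.trans ht) hχt k
    have hF := fub mh hh hθ hθc
    have e1 : ∫ x : (Fin N → ℂ) × ℂ, ((x.2⁻¹) ^ k * CP θ x) •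
        (dbar1 χ x.2 • u (Phi z0 x) + χ x.2 • GG z0 g x) = ∫ x, CP θ x • h x := by
      apply integral_congr_ae
      filter_upwards with x
      by_cases hx : x ∈ Reg
      · rw [hhdef, indicator_of_mem hx, hh0]
        simp only
        rw [smul_smul, mul_comm (CP θ x)]
      · rw [hhdef, indicator_of_notMem hx, smul_zero]
        by_cases hP0 : CP θ x = 0
        · rw [hP0, mul_zero, zero_smul]
        · obtain ⟨y, hy, hy2⟩ := CP_ne_zero hP0
          have h3 : R ≤ ‖x.2‖ := by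
            by_contra h4
            apply hx
            rw [memReg, ← hy2]
            exact ⟨hθs y hy, not_le.mp h4⟩
          rw [dbar1_zero_of_large hχt (by linarith), hχt _ (by linarith)]
          simp
    rw [e1, hF, neg_neg] at hB
    have i1 : Integrable (fun x => θ x • TT h x) := by
      refine integrable_test (Ω := Reg) (fun K' hK' _ => iT.mono_set hK') hθ.continuous
        hφc.isCompact hφs ?_
      intro x hx
      rw [← htsupp] at hx
      exact image_eq_zero_of_notMem_tsupport hx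
    have i2 : Integrable (fun x : (Fin N → ℂ) × ℂ => θ x • (((x.2⁻¹) ^ k * χ x.2) •
        u (Phi z0 x))) := by
      refine integrable_test (Ω := Reg) (fun K' hK' _ => iL.mono_set hK') hθ.continuous
        hφc.isCompact hφs ?_
      intro x hx
      rw [← htsupp] at hx
      exact image_eq_zero_of_notMem_tsupport hx
    have e2 : ∫ x, φ x • D x = (∫ x : (Fin N → ℂ) × ℂ, θ x • (((x.2⁻¹) ^ k * χ x.2) •
        u (Phi z0 x))) - ∫ x, θ x • TT h x := by
      rw [← integral_sub i2 i1]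
      apply integral_congr_ae
      filter_upwards with x
      rw [hD]
      simp only
      rw [← smul_sub, hθdef]
      simp only
      rw [Complex.coe_smul]
    have e3 : (∫ x : (Fin N → ℂ) × ℂ, θ x • (((x.2⁻¹) ^ k * χ x.2) •
        u (Phi z0 x))) = ∫ x : (Fin N → ℂ) × ℂ, ((x.2⁻¹) ^ k * χ x.2 * θ x) • u (Phi z0 x) := by
      apply integral_congr_ae
      filter_upwards with x
      rw [smul_smul, mul_comm]
    rw [e2, e3, hB, sub_self]
  filter_upwards [hzero, ae_ne2] with x hx hx0 hxA hxs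
  have hxR : x ∈ Reg := (memReg x).mpr ⟨hxA, by linarith⟩
  have h1 := hx hxR
  rw [hD] at h1
  simp only at h1
  rw [sub_eq_zero, hχs _ hxs.le, mul_one] at h1
  have h2 : ‖u (Phi z0 x)‖ₑ * ‖x.2‖ₑ ^ (-(k : ℝ)) = ‖TT h x‖ₑ := by
    rw [← h1, enorm_smul, enorm_pow, enorm_inv hx0, mul_comm]
    congr 1
    rw [ENNReal.rpow_neg, ENNReal.rpow_natCast, ENNReal.inv_pow]
  rw [h2]
  refine (TT_le h x).trans ?_
  have mT : MeasurableSet (ball (0 : ℂ) t \ ball (0 : ℂ) s) :=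
    measurableSet_ball.diff measurableSet_ball
  rw [← lintegral_indicator measurableSet_ball, ← lintegral_indicator mT,
    ← lintegral_const_mul', ← lintegral_add_left]
  · apply lintegral_mono_ae
    filter_upwards [ae_ne 0] with ζ hζ
    have e0 : ‖(ζ⁻¹) ^ k‖ₑ = ‖ζ‖ₑ ^ (-(k : ℝ)) := by
      rw [enorm_pow, enorm_inv hζ, ENNReal.rpow_neg, ENNReal.rpow_natCast, ENNReal.inv_pow]
    by_cases hc1 : ‖ζ‖ < s
    · have e1 : ζ ∈ ball (0 : ℂ) s := by rwa [mem_ball_zero_iff]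
      have e2 : ζ ∉ ball (0 : ℂ) t \ ball (0 : ℂ) s := fun hcon => hcon.2 e1
      have e3 : (x.1, ζ) ∈ Reg := (memReg _).mpr ⟨hxA, by simp only; linarith⟩
      rw [indicator_of_mem e1, indicator_of_notMem e2, mul_zero, add_zero, hhdef,
        indicator_of_mem e3, hh0]
      simp only
      rw [dbar1_zero_of_small hχs hc1, hχs _ hc1.le, zero_smul, zero_add, one_smul, enorm_smul, e0]
      apply le_of_eq
      ring
    · have e1 : ζ ∉ ball (0 : ℂ) s := by rwa [mem_ball_zero_iff]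
      by_cases hc2 : ‖ζ‖ < t
      · have e2 : ζ ∈ ball (0 : ℂ) t \ ball (0 : ℂ) s := ⟨by rwa [mem_ball_zero_iff], e1⟩
        have e3 : (x.1, ζ) ∈ Reg := (memReg _).mpr ⟨hxA, by simp only; linarith⟩
        rw [indicator_of_notMem e1, indicator_of_mem e2, zero_add, hhdef,
          indicator_of_mem e3, hh0]
        simp only
        rw [enorm_smul, e0]
        have e4 : ‖dbar1 χ ζ • u (Phi z0 (x.1, ζ)) + χ ζ • GG z0 g (x.1, ζ)‖ₑ ≤
            max 1 (ENNReal.ofReal Cd) * (‖GG z0 g (x.1, ζ)‖ₑ + ‖u (Phi z0 (x.1, ζ))‖ₑ) := by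
          refine (enorm_add_le _ _).trans ?_
          rw [enorm_smul, enorm_smul, mul_add, add_comm]
          apply add_le_add
          · apply mul_le_mul_left
            refine le_trans ?_ (le_max_left _ _)
            rw [← ofReal_norm, ← ENNReal.ofReal_one]
            exact ENNReal.ofReal_le_ofReal (hχ1 _)
          · apply mul_le_mul_left
            refine le_trans ?_ (le_max_right _ _)
            rw [← ofReal_norm]
            exact ENNReal.ofReal_le_ofReal (hCd _)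
        calc ‖x.2 - ζ‖ₑ⁻¹ * (‖ζ‖ₑ ^ (-(k : ℝ)) *
            ‖dbar1 χ ζ • u (Phi z0 (x.1, ζ)) + χ ζ • GG z0 g (x.1, ζ)‖ₑ) ≤
            ‖x.2 - ζ‖ₑ⁻¹ * (‖ζ‖ₑ ^ (-(k : ℝ)) * (max 1 (ENNReal.ofReal Cd) *
              (‖GG z0 g (x.1, ζ)‖ₑ + ‖u (Phi z0 (x.1, ζ))‖ₑ))) :=
              mul_le_mul_right (mul_le_mul_right e4 _) _
          _ = _ := by ring
      · have e2 : h (x.1, ζ) = 0 := by
          rw [not_lt] at hc2
          rw [hhdef]
          by_cases hcR : (x.1, ζ) ∈ Reg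
          · rw [indicator_of_mem hcR, hh0]
            simp only
            rw [dbar1_zero_of_large hχt (by linarith), hχt _ (by linarith)]
            simp
          · rw [indicator_of_notMem hcR]
        rw [e2]
        simp
  · have m1 : Measurable (fun ζ => ‖GG z0 g (x.1, ζ)‖ₑ) :=
      (mG.comp_measurable (by fun_prop)).enorm
    exact Measurable.indicator (by fun_prop) measurableSet_ball
  · exact (max_lt ENNReal.one_lt_top ENNReal.ofReal_lt_top).ne

end Q71.UC
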